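import Pool.Agent.Helper54.Wav.Defs

/-!
# Parseval on a dense set and unit vectors give an orthonormal basis
-/

set_option autoImplicit false

open scoped InnerProductSpace Topology

namespace Pool.Agent.Helper54.Wav

theorem orthonormal_of_parseval {H ι : Type*} [NormedAddCommGroup H] [InnerProductSpace ℂ H]
    (v : ι → H) (hv : ∀ i, ‖v i‖ = 1) (D : Set H) (hD : Dense D)
    (hP : ∀ f ∈ D, HasSum (fun i => ‖⟪v i, f⟫_ℂ‖ ^ 2) (‖f‖ ^ 2)) :
    Orthonormal ℂ v ∧ ∀ f : H, (∀ i, ⟪v i, f⟫_ℂ = 0) → f = 0 := by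
  classical
  have bessel : ∀ (F : Finset ι) (f : H), ∑ i ∈ F, ‖⟪v i, f⟫_ℂ‖ ^ 2 ≤ ‖f‖ ^ 2 := by
    intro F f
    have hcl : IsClosed {f : H | ∑ i ∈ F, ‖⟪v i, f⟫_ℂ‖ ^ 2 ≤ ‖f‖ ^ 2} := by
      apply isClosed_le
      · exact continuous_finsetSum _ fun i _ => by fun_prop
      · fun_prop
    have hsub : D ⊆ {f : H | ∑ i ∈ F, ‖⟪v i, f⟫_ℂ‖ ^ 2 ≤ ‖f‖ ^ 2} := by
      intro f hf
      exact sum_le_hasSum F (fun i _ => by positivity) (hP f hf)
    have := hcl.closure_subset_iff.2 hsub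
    rw [hD.closure_eq] at this
    exact this (Set.mem_univ f)
  refine ⟨⟨hv, ?_⟩, ?_⟩
  · intro i j hij
    have h := bessel {i, j} (v j)
    rw [Finset.sum_pair hij] at h
    have h1 : ‖⟪v j, v j⟫_ℂ‖ = 1 := by
      rw [inner_self_eq_norm_sq_to_K, hv j]
      simp
    rw [h1, hv j] at h
    have h2 : ‖⟪v i, v j⟫_ℂ‖ ^ 2 ≤ 0 := by linarith
    have h3 : ‖⟪v i, v j⟫_ℂ‖ = 0 := by
      have := sq_nonneg ‖⟪v i, v j⟫_ℂ‖
      exact pow_eq_zero_iff (two_ne_zero) |>.1 (le_antisymm h2 this)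
    exact norm_eq_zero.1 h3
  · intro f hf
    have hmem : f ∈ closure D := hD f
    rw [Metric.mem_closure_iff] at hmem
    have key : ∀ ε > 0, ‖f‖ ≤ 2 * ε := by
      intro ε hε
      obtain ⟨g, hg, hfg⟩ := hmem ε hε
      have h1 := hP g hg
      have h2 : ∀ i, ‖⟪v i, g⟫_ℂ‖ ^ 2 = ‖⟪v i, g - f⟫_ℂ‖ ^ 2 := by
        intro i
        rw [inner_sub_right, hf i, sub_zero]
      have h3 : ‖g‖ ^ 2 ≤ ‖g - f‖ ^ 2 := by
        refine le_of_tendsto h1 ?_
        filter_upwards with F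
        simp_rw [h2]
        exact bessel F (g - f)
      have h4 : ‖g‖ ≤ ‖g - f‖ := by
        exact le_of_sq_le_sq h3 (norm_nonneg _)
      have h5 : ‖g - f‖ < ε := by
        rw [← dist_eq_norm, dist_comm]; exact hfg
      have h6 : ‖f‖ ≤ ‖g‖ + ‖g - f‖ := by
        have := norm_sub_le g (g - f)
        simpa using this
      linarith
    have : ‖f‖ ≤ 0 := by
      by_contra hcon
      push Not at hcon
      have := key (‖f‖ / 4) (by positivity)
      linarith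
    exact norm_le_zero_iff.1 this

end Pool.Agent.Helper54.Wav
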