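import Pool.Agent.Helper54.Wav.Piece

/-!
# Assembly of the pieces
-/

set_option autoImplicit false

open MeasureTheory Matrix Set
open scoped ComplexConjugate ContDiff ENNReal

namespace Pool.Agent.Helper54.Wav

variable {n : ℕ}

namespace RotData

lemma mulVec_isBounded (M : Matrix (Fin n) (Fin n) ℝ) {S : Set (Fin n → ℝ)}
    (hS : Bornology.IsBounded S) : Bornology.IsBounded ((fun x => M *ᵥ x) '' S) := by
  have h1 : IsCompact ((fun x => M *ᵥ x) '' closure S) :=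
    hS.isCompact_closure.image (Matrix.toLin' M).continuous_of_finiteDimensional
  exact h1.isBounded.subset (Set.image_mono subset_closure)

/-- pullback of a rotation by an invertible matrix -/
noncomputable def pull (R : RotData n) (M : Matrix (Fin n) (Fin n) ℝ) (hM : M.det ≠ 0) :
    RotData n where
  σ := fun ξ => R.σ (M *ᵥ ξ)
  c := fun ξ => R.c (M *ᵥ ξ)
  S := {ξ | M *ᵥ ξ ∈ R.S}
  h := M⁻¹ *ᵥ R.h
  hσ := R.hσ.comp (Matrix.toLin' M).toContinuousLinearMap.contDiff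
  hc := R.hc.comp (Matrix.toLin' M).toContinuousLinearMap.contDiff
  sq := fun ξ => R.sq _
  off := fun ξ hξ => R.off _ hξ
  bdd := by
    have hu : IsUnit M.det := isUnit_iff_ne_zero.2 hM
    refine (mulVec_isBounded M⁻¹ R.bdd).subset fun ξ hξ => ⟨M *ᵥ ξ, hξ, ?_⟩
    simp only
    rw [Matrix.mulVec_mulVec, Matrix.nonsing_inv_mul M hu, Matrix.one_mulVec]
  disj := by
    have hu : IsUnit M.det := isUnit_iff_ne_zero.2 hM
    intro ξ hξ h
    apply R.disj _ hξ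
    have h1 : M *ᵥ (ξ + M⁻¹ *ᵥ R.h) ∈ R.S := h
    rwa [Matrix.mulVec_add, Matrix.mulVec_mulVec, Matrix.mul_nonsing_inv M hu,
      Matrix.one_mulVec] at h1

lemma pull_theta (R : RotData n) (M : Matrix (Fin n) (Fin n) ℝ) (hM : M.det ≠ 0)
    (ξ μ : Fin n → ℝ) : (R.pull M hM).theta ξ μ = R.theta (M *ᵥ ξ) (M *ᵥ μ) := by
  have hu : IsUnit M.det := isUnit_iff_ne_zero.2 hM
  have e1 : M *ᵥ (ξ - M⁻¹ *ᵥ R.h) = M *ᵥ ξ - R.h := by
    rw [Matrix.mulVec_sub, Matrix.mulVec_mulVec, Matrix.mul_nonsing_inv M hu, Matrix.one_mulVec]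
  have e2 : (M *ᵥ μ = 0) ↔ μ = 0 := by
    constructor
    · intro h
      have := congrArg (fun x => M⁻¹ *ᵥ x) h
      simpa [Matrix.mulVec_mulVec, Matrix.nonsing_inv_mul M hu] using this
    · rintro rfl
      exact Matrix.mulVec_zero _
  have e3 : (M *ᵥ μ = R.h) ↔ μ = M⁻¹ *ᵥ R.h := by
    constructor
    · intro h
      rw [← h, Matrix.mulVec_mulVec, Matrix.nonsing_inv_mul M hu, Matrix.one_mulVec]
    · rintro rfl
      rw [Matrix.mulVec_mulVec, Matrix.mul_nonsing_inv M hu, Matrix.one_mulVec]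
  have e4 : (M *ᵥ μ = -R.h) ↔ μ = -(M⁻¹ *ᵥ R.h) := by
    constructor
    · intro h
      rw [← Matrix.mulVec_neg, ← h, Matrix.mulVec_mulVec, Matrix.nonsing_inv_mul M hu,
        Matrix.one_mulVec]
    · rintro rfl
      rw [Matrix.mulVec_neg, Matrix.mulVec_mulVec, Matrix.mul_nonsing_inv M hu, Matrix.one_mulVec]
  simp only [theta, pull]
  rw [e1]
  have k0 : ∀ x : ℂ, (if M *ᵥ μ = 0 then x else 0) = if μ = 0 then x else 0 := fun x =>
    if_congr e2 rfl rfl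
  have k1 : ∀ x : ℂ, (if M *ᵥ μ = R.h then x else 0) = if μ = M⁻¹ *ᵥ R.h then x else 0 := fun x =>
    if_congr e3 rfl rfl
  have k2 : ∀ x : ℂ, (if M *ᵥ μ = -R.h then x else 0) = if μ = -(M⁻¹ *ᵥ R.h) then x else 0 :=
    fun x => if_congr e4 rfl rfl
  rw [k0, k1, k2]
  try rfl

end RotData

lemma ker_sigma {m : ℕ} {L : Fin m → ℕ} (g : (t : Fin m) → Fin (L t) → (Fin n → ℝ) → ℂ)
    (ξ μ : Fin n → ℝ) :
    ker (fun i : Fin (∑ t, L t) =>
      g (finSigmaFinEquiv.symm i).1 (finSigmaFinEquiv.symm i).2) ξ μ = ∑ t, ker (g t) ξ μ := by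
  unfold ker
  by_cases h : ∃ m : Fin n → ℤ, μ = zv m
  · simp only [if_pos h]
    rw [Equiv.sum_comp finSigmaFinEquiv.symm
      (fun p : (t : Fin m) × Fin (L t) => g p.1 p.2 ξ * conj (g p.1 p.2 (ξ + μ))),
      Fintype.sum_sigma]
  · simp only [if_neg h, Finset.sum_const_zero]

lemma sum_shift (Q : ℤ → ℂ) (k : ℕ) (j : ℤ) :
    ∑ l ∈ Finset.range k, Q (j - l) - ∑ l ∈ Finset.range k, Q (j - 1 - l) = Q j - Q (j - k) := by
  rw [← Finset.sum_sub_distrib]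
  have h := Finset.sum_range_sub (fun l : ℕ => Q (j - l)) k
  have h2 : ∑ l ∈ Finset.range k, (Q (j - l) - Q (j - 1 - l)) =
      -∑ l ∈ Finset.range k, (Q (j - ((l + 1 : ℕ) : ℤ)) - Q (j - (l : ℤ))) := by
    rw [← Finset.sum_neg_distrib]
    refine Finset.sum_congr rfl fun l _ => ?_
    have e : j - ((l + 1 : ℕ) : ℤ) = j - 1 - l := by push_cast; ring
    rw [e]
    ring
  rw [h2, h]
  simp

theorem assemble (hn : 0 < n) {r : ℕ} (hr : n ≤ r) (N : Seminorm ℝ (Fin n → ℝ))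
    (hN : ∀ x, N x = 0 → x = 0)
    (φ : Fin r → (Fin n → ℝ) → ℂ) {κ d : ℝ} (hκ : 0 < κ) (hκ1 : κ < 1) (hd : 0 < d)
    (hφs : ∀ s, ContDiff ℝ ∞ (φ s)) (hφc : ∀ s, HasCompactSupport (φ s))
    (hφd : ∀ s x, d ≤ N x → φ s x = 0)
    (hφon : ∀ s t ξ, ∑ᶠ m : Fin n → ℤ, φ s (ξ + zv m) * conj (φ t (ξ + zv m)) =
        if s = t then 1 else 0)
    (hφcomp : ∀ ξ m, N ξ ≤ κ * d → ∑ s, φ s ξ * conj (φ s (ξ + zv m)) = if m = 0 then 1 else 0)
    (B : Matrix (Fin n) (Fin n) ℝ) (hBN : ∀ x, N x ≤ κ * N (B *ᵥ x)) (hB : 1 < |B.det|)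
    {q k : ℕ} (hq : 0 < q) (hk : 0 < k) (D : Matrix (Fin n) (Fin n) ℤ)
    (hD : D.map (fun z : ℤ => (z : ℝ)) = (q : ℝ) • B ^ (-(k : ℤ)))
    (m : ℕ) (hm : 0 < m) (s : ℕ → ℤ) (W : ℕ → RotData n) (a b : ℕ → Fin n → ℤ)
    (ha : ∀ t < m, (W (t + 1)).h = (B ^ (s t)) *ᵥ zv (a t))
    (hb : ∀ t < m, (W t).h = (B ^ (s t)) *ᵥ zv (b t))
    (G1 : ∀ t < m, ∀ x ∈ (W (t + 1)).S, N ((B ^ (-(s t))) *ᵥ x) ≤ q * (κ * d))
    (G2 : ∀ t < m, ∀ x ∈ (W (t + 1)).S, q * d ≤ N ((B ^ (-(s t))) *ᵥ x - zv (a t)))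
    (G3 : ∀ t < m, ∀ x, N ((B ^ ((k : ℤ) - s t)) *ᵥ x - zv (a t)) < q * d →
      (W (t + 1)).σ x = 1 ∧ q * d ≤ N ((B ^ (-(s t))) *ᵥ x - zv (a t)))
    (G4 : ∀ t < m, ∀ x ∈ (W t).S, (W (t + 1)).σ x = 1 ∧
      q * d ≤ N ((B ^ (-(s t))) *ᵥ x - zv (a t)) ∧
      q * d ≤ N ((B ^ ((k : ℤ) - s t)) *ᵥ x - zv (a t)))
    (G5 : ∀ t < m, ∀ x ∈ (W t).S, x + (W t).h ∉ (W (t + 1)).S ∧
      q * d ≤ N ((B ^ (-(s t))) *ᵥ (x + (W t).h) - zv (a t)) ∧
      q * d ≤ N ((B ^ ((k : ℤ) - s t)) *ᵥ (x + (W t).h) - zv (a t)))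
    (G6 : ∃ ε > 0, ∀ t < m, ∀ x, N x ≤ ε → (W t).σ x = 1)
    (Wper : ∀ ξ μ, (W m).theta ξ μ = (W 0).theta (B⁻¹ *ᵥ ξ) (B⁻¹ *ᵥ μ)) :
    ∃ (L : ℕ) (g : Fin L → (Fin n → ℝ) → ℂ), 0 < L ∧ (∀ l, ContDiff ℝ ∞ (g l)) ∧
      (∀ l, HasCompactSupport (g l)) ∧ (∃ ε > 0, ∀ l ξ, ‖ξ‖ < ε → g l ξ = 0) ∧
      (∀ l, ∫ ξ, ‖g l ξ‖ ^ 2 = 1) ∧
      (∀ ξ μ, ξ ≠ 0 → ∑ᶠ j : ℤ, ker g ((B ^ (-j)) *ᵥ ξ) ((B ^ (-j)) *ᵥ μ) =
        if μ = 0 then 1 else 0) := by
  classical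
  have hBdet : B.det ≠ 0 := by
    intro h
    rw [h, abs_zero] at hB
    linarith
  have hBu : IsUnit B.det := isUnit_iff_ne_zero.2 hBdet
  have hq0 : (0 : ℝ) < q := by exact_mod_cast hq
  have hexp := hexp_of_norm N hN hκ hκ1 B hBN
  obtain ⟨c2, hc2, hN2⟩ := seminorm_le N
  obtain ⟨c1, hc1, hN1⟩ := le_seminorm N hN
  have hinv : ∀ t : ℕ, (B ^ (s t))⁻¹ = B ^ (-(s t)) := by
    intro t
    rw [← Matrix.zpow_neg hBu]
  have hadd : ∀ (i j : ℤ) (x : Fin n → ℝ), (B ^ i) *ᵥ ((B ^ j) *ᵥ x) = (B ^ (i + j)) *ᵥ x := by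
    intro i j x
    rw [Matrix.mulVec_mulVec, ← Matrix.zpow_add hBu]
  have hinj : ∀ (j : ℤ) (x : Fin n → ℝ), (B ^ j) *ᵥ x = 0 ↔ x = 0 := by
    intro j x
    constructor
    · intro h
      rw [← zpow_mulVec_neg B hBdet j x, h, Matrix.mulVec_zero]
    · rintro rfl
      exact Matrix.mulVec_zero _
  -- the local rotations
  have hdz : ∀ j : ℤ, (B ^ j).det ≠ 0 := fun j => det_zpow_ne B hBdet j
  -- the pieces
  have hpiece : ∀ t : Fin m, ∃ (L : ℕ) (g : Fin L → (Fin n → ℝ) → ℂ), 0 < L ∧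
      (∀ l, ContDiff ℝ ∞ (g l)) ∧
      (∀ l, HasCompactSupport (g l)) ∧ (∃ ε > 0, ∀ l ξ, ‖ξ‖ < ε → g l ξ = 0) ∧
      (∀ l, ∫ ξ, ‖g l ξ‖ ^ 2 = 1) ∧
      (∀ ξ μ, ker g ξ μ = ker φ ((q : ℝ)⁻¹ • (ξ - zv (a t))) ((q : ℝ)⁻¹ • μ) -
        ker φ ((q : ℝ)⁻¹ • ((B ^ (k : ℤ)) *ᵥ ξ - zv (a t))) ((q : ℝ)⁻¹ • ((B ^ (k : ℤ)) *ᵥ μ)) +
        (W (t + 1)).theta ((B ^ (s t)) *ᵥ ξ) ((B ^ (s t)) *ᵥ μ) -
        (W t).theta ((B ^ (s t)) *ᵥ ξ) ((B ^ (s t)) *ᵥ μ)) := by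
    intro t
    have ht := t.isLt
    obtain ⟨ε, hε, h6⟩ := G6
    have e1 : ∀ ξ : Fin n → ℝ, (B ^ (-(s t))) *ᵥ ((B ^ (s t)) *ᵥ ξ) = ξ := by
      intro ξ
      exact zpow_mulVec_neg B hBdet _ ξ
    have e2 : ∀ ξ : Fin n → ℝ, (B ^ ((k : ℤ) - s t)) *ᵥ ((B ^ (s t)) *ᵥ ξ) =
        (B ^ (k : ℤ)) *ᵥ ξ := by
      intro ξ
      rw [hadd, sub_add_cancel]
    have e3 : ∀ ξ : Fin n → ℝ, (B ^ (s t)) *ᵥ (ξ + zv (b t)) = (B ^ (s t)) *ᵥ ξ + (W t).h := by
      intro ξ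
      rw [hb t ht, Matrix.mulVec_add]
    obtain ⟨L, g, h1, h2, h3, h4, h5, h7⟩ := piece hn hr N φ hκ1 hd hφs hφc hφd hφon hφcomp B hB
      hq hk D hD (a t) (b t) ((W (t + 1)).pull (B ^ (s t)) (hdz _))
      ((W t).pull (B ^ (s t)) (hdz _))
      (by
        change (B ^ (s t))⁻¹ *ᵥ (W (t + 1)).h = _
        rw [hinv, ha t ht, e1])
      (by
        change (B ^ (s t))⁻¹ *ᵥ (W t).h = _
        rw [hinv, hb t ht, e1])
      (by
        intro ξ hξ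
        have := G1 t ht _ hξ
        rwa [e1] at this)
      (by
        intro ξ hξ
        have := G2 t ht _ hξ
        rwa [e1] at this)
      (by
        intro ξ hξ
        have := G3 t ht ((B ^ (s t)) *ᵥ ξ) (by rwa [e2])
        rwa [e1] at this)
      (by
        intro ξ hξ
        have := G4 t ht _ hξ
        rwa [e1, e2] at this)
      (by
        intro ξ hξ
        have := G5 t ht _ hξ
        rw [← e3, e1, e2] at this
        exact this)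
      (by
        obtain ⟨c3, hc3, hM⟩ := seminorm_le (N.comp (Matrix.toLin' (B ^ (s t))))
        refine ⟨ε / c3, by positivity, fun ξ hξ => h6 t ht _ ?_⟩
        have h8 := hM ξ
        rw [lt_div_iff₀ hc3] at hξ
        have h9 : N ((B ^ (s t)) *ᵥ ξ) ≤ c3 * ‖ξ‖ := h8
        linarith)
    refine ⟨L, g, h1, h2, h3, h4, h5, fun ξ μ => ?_⟩
    rw [h7, RotData.pull_theta, RotData.pull_theta]
  choose L g gL gs gc gz gn gk using hpiece
  have hLpos : 0 < ∑ t, L t := by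
    refine Finset.sum_pos (fun t _ => gL t) ?_
    exact ⟨⟨0, hm⟩, Finset.mem_univ _⟩
  refine ⟨∑ t, L t, fun i => g (finSigmaFinEquiv.symm i).1 (finSigmaFinEquiv.symm i).2, hLpos,
    fun l => gs _ _, fun l => gc _ _, ?_, fun l => gn _ _, ?_⟩
  · choose ε hε hz using gz
    have hne : (Finset.univ : Finset (Fin m)).Nonempty := ⟨⟨0, hm⟩, Finset.mem_univ _⟩
    refine ⟨Finset.univ.inf' hne ε, ?_, fun l ξ hξ => ?_⟩
    · rw [gt_iff_lt, Finset.lt_inf'_iff]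
      exact fun t _ => hε t
    · exact hz _ _ _ (lt_of_lt_of_le hξ (Finset.inf'_le _ (Finset.mem_univ _)))
  · intro ξ μ hξ
    have hξ0 : 0 < ‖ξ‖ := norm_pos_iff.2 hξ
    -- two limits
    have hsmall : ∀ ε > 0, ∃ J : ℕ, ∀ j : ℤ, (J : ℤ) ≤ j → ‖(B ^ (-j)) *ᵥ ξ‖ ≤ ε := by
      intro ε hε
      obtain ⟨J, hJ⟩ := hexp (‖ξ‖ + 1) (by positivity) ε hε
      exact ⟨J, fun j hj => (hJ j hj ξ).1 (by linarith)⟩
    have hlarge : ∀ R > 0, ∃ J : ℕ, ∀ j : ℤ, j ≤ -(J : ℤ) → R ≤ ‖(B ^ (-j)) *ᵥ ξ‖ := by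
      intro R hR
      obtain ⟨J, hJ⟩ := hexp R hR ‖ξ‖ hξ0
      exact ⟨J, fun j hj => (hJ (-j) (by linarith) ξ).2 le_rfl⟩
    have hlargeS : ∀ T : Set (Fin n → ℝ), Bornology.IsBounded T → ∃ J : ℕ, ∀ j : ℤ,
        j ≤ -(J : ℤ) → (B ^ (-j)) *ᵥ ξ ∉ T := by
      intro T hT
      obtain ⟨R, hR⟩ := hT.subset_closedBall 0
      obtain ⟨J, hJ⟩ := hlarge (max R 0 + 1) (by positivity)
      refine ⟨J, fun j hj h => ?_⟩
      have h1 := hR h
      rw [mem_closedBall_zero_iff] at h1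
      have h2 := hJ j hj
      have h3 := le_max_left R 0
      linarith
    -- sums
    set p : Fin m → ℤ → ℂ := fun t j =>
      ker φ ((q : ℝ)⁻¹ • ((B ^ (-(j + s t))) *ᵥ ξ - zv (a t)))
        ((q : ℝ)⁻¹ • ((B ^ (-(j + s t))) *ᵥ μ)) with hp
    set θ : ℕ → ℤ → ℂ := fun t j => (W t).theta ((B ^ (-j)) *ᵥ ξ) ((B ^ (-j)) *ᵥ μ) with hθ
    have hK : ∀ (t : Fin m) (j : ℤ), ker (g t) ((B ^ (-(j + s t))) *ᵥ ξ)
        ((B ^ (-(j + s t))) *ᵥ μ) = p t j - p t (j - k) + θ (t + 1) j - θ t j := by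
      intro t j
      rw [gk, hadd, hadd, hadd, hadd]
      have e1 : (k : ℤ) + -(j + s t) = -(j - k + s t) := by ring
      have e2 : s t + -(j + s t) = -j := by ring
      rw [e1, e2]
    have hfin : ∀ t : Fin m, (Function.support fun j : ℤ =>
        ker (g t) ((B ^ (-j)) *ᵥ ξ) ((B ^ (-j)) *ᵥ μ)).Finite := by
      intro t
      obtain ⟨ε, hε, hz⟩ := gz t
      obtain ⟨J1, hJ1⟩ := hsmall (ε / 2) (by positivity)
      have hbd : Bornology.IsBounded (⋃ l, tsupport (g t l)) := by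
        rw [Bornology.isBounded_iUnion]
        exact fun l => (gc t l).isCompact.isBounded
      obtain ⟨J2, hJ2⟩ := hlargeS _ hbd
      refine (Set.finite_Icc (-(J2 : ℤ)) J1).subset fun j hj => ?_
      rw [Set.mem_Icc]
      by_contra hcon
      rw [not_and_or, not_le, not_le] at hcon
      apply hj
      apply ker_far
      intro l
      rcases hcon with h | h
      · have h1 := hJ2 j h.le
        by_contra h2
        exact h1 (Set.mem_iUnion.2 ⟨l, subset_tsupport _ h2⟩)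
      · have h1 := hJ1 j h.le
        exact hz l _ (by linarith)
    have hstep1 : ∑ᶠ j : ℤ, ker (fun i : Fin (∑ t, L t) =>
        g (finSigmaFinEquiv.symm i).1 (finSigmaFinEquiv.symm i).2) ((B ^ (-j)) *ᵥ ξ)
          ((B ^ (-j)) *ᵥ μ) =
        ∑ t : Fin m, ∑ᶠ j : ℤ, ker (g t) ((B ^ (-j)) *ᵥ ξ) ((B ^ (-j)) *ᵥ μ) := by
      simp_rw [ker_sigma]
      exact finsum_sum_comm _ _ fun t _ => hfin t
    have hstep2 : ∀ t : Fin m, ∑ᶠ j : ℤ, ker (g t) ((B ^ (-j)) *ᵥ ξ) ((B ^ (-j)) *ᵥ μ) =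
        ∑ᶠ j : ℤ, (p t j - p t (j - k) + θ (t + 1) j - θ t j) := by
      intro t
      rw [← finsum_comp_equiv (Equiv.addRight (s t))
        (f := fun j : ℤ => ker (g t) ((B ^ (-j)) *ᵥ ξ) ((B ^ (-j)) *ᵥ μ))]
      refine finsum_congr fun j => ?_
      simp only [Equiv.coe_addRight]
      exact hK t j
    have hfin2 : ∀ t : Fin m, (Function.support fun j : ℤ =>
        (p t j - p t (j - k) + θ (t + 1) j - θ t j)).Finite := by
      intro t
      have h1 : (fun j : ℤ => (p t j - p t (j - k) + θ (t + 1) j - θ t j)) =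
          (fun j : ℤ => ker (g t) ((B ^ (-j)) *ᵥ ξ) ((B ^ (-j)) *ᵥ μ)) ∘
            (Equiv.addRight (s t)) := by
        funext j
        simp only [Function.comp, Equiv.coe_addRight]
        exact (hK t j).symm
      rw [h1, Function.support_comp_eq_preimage]
      exact (hfin t).preimage (Equiv.injective _).injOn
    rw [hstep1, Finset.sum_congr rfl fun t _ => hstep2 t,
      ← finsum_sum_comm _ _ fun t _ => hfin2 t]
    -- the telescoping sum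
    set Q : ℤ → ℂ := fun j => ∑ t : Fin m, p t j with hQ
    set X : ℤ → ℂ := fun j => θ 0 j + ∑ l ∈ Finset.range k, Q (j - 1 - l) with hX
    have hθm : ∀ j : ℤ, θ m j = θ 0 (j + 1) := by
      intro j
      simp only [hθ]
      rw [Wper]
      have e1 : ∀ x : Fin n → ℝ, B⁻¹ *ᵥ ((B ^ (-j)) *ᵥ x) = (B ^ (-(j + 1))) *ᵥ x := by
        intro x
        rw [Matrix.mulVec_mulVec]
        congr 1
        rw [neg_add, add_comm, Matrix.zpow_add hBu, Matrix.zpow_neg_one]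
      rw [e1, e1]
    have hsum : ∀ j : ℤ, ∑ t : Fin m, (p t j - p t (j - k) + θ (t + 1) j - θ t j) =
        X (j + 1) - X j := by
      intro j
      have h1 : ∑ t : Fin m, (θ ((t : ℕ) + 1) j - θ t j) = θ m j - θ 0 j := by
        rw [Fin.sum_univ_eq_sum_range (fun t => θ (t + 1) j - θ t j) m]
        exact Finset.sum_range_sub (fun t => θ t j) m
      have h2 := sum_shift Q k j
      have h3 : ∑ t : Fin m, (p t j - p t (j - k) + θ (t + 1) j - θ t j) =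
          Q j - Q (j - k) + ∑ t : Fin m, (θ ((t : ℕ) + 1) j - θ t j) := by
        simp only [hQ]
        rw [← Finset.sum_sub_distrib, ← Finset.sum_add_distrib]
        refine Finset.sum_congr rfl fun t _ => ?_
        ring
      rw [h3, h1, hθm, ← h2]
      simp only [hX, add_sub_cancel_right]
      ring
    simp_rw [hsum]
    -- limits
    obtain ⟨ε, hε, h6⟩ := G6
    obtain ⟨J1, hJ1⟩ := hsmall (ε / c2) (by positivity)
    have hnear : ∀ j : ℤ, (J1 : ℤ) ≤ j → N ((B ^ (-j)) *ᵥ ξ) ≤ ε := by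
      intro j hj
      have h1 := hJ1 j hj
      rw [le_div_iff₀ hc2] at h1
      have := hN2 ((B ^ (-j)) *ᵥ ξ)
      linarith
    have hSn : ∀ t < m, ∀ x, N x ≤ ε → x ∈ (W t).S := by
      intro t ht x hx
      by_contra hcon
      have h1 := ((W t).off x hcon).1
      rw [h6 t ht x hx] at h1
      exact one_ne_zero h1
    have hn0 : ∀ x : Fin n → ℝ, q * d ≤ N x → ∀ s, φ s ((q : ℝ)⁻¹ • x) = 0 := by
      intro x hx s
      exact hφd s _ ((le_norm_div N hq x d).2 hx)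
    have hpnear : ∀ (t : Fin m) (j : ℤ), (J1 : ℤ) ≤ j → p t j = 0 := by
      intro t j hj
      have h1 := (G4 t t.isLt _ (hSn t t.isLt _ (hnear j hj))).2.1
      rw [hadd] at h1
      have e : -(s t) + -j = -(j + s t) := by ring
      rw [e] at h1
      exact ker_far (hn0 _ h1) _
    have hpfar : ∀ t : Fin m, ∃ J : ℕ, ∀ j : ℤ, j ≤ -(J : ℤ) → p t j = 0 := by
      intro t
      obtain ⟨J, hJ⟩ := hlarge ((N (zv (a t)) + q * d) / c1) (by positivity)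
      refine ⟨J + (s t).natAbs, fun j hj => ?_⟩
      have h1 := hJ (j + s t) (by omega)
      rw [div_le_iff₀ hc1] at h1
      have h2 := hN1 ((B ^ (-(j + s t))) *ᵥ ξ)
      refine ker_far (hn0 _ ?_) _
      have h3 : N ((B ^ (-(j + s t))) *ᵥ ξ) ≤
          N ((B ^ (-(j + s t))) *ᵥ ξ - zv (a t)) + N (zv (a t)) := by
        have := map_add_le_add N ((B ^ (-(j + s t))) *ᵥ ξ - zv (a t)) (zv (a t))
        rwa [sub_add_cancel] at this
      linarith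
    choose J2 hJ2 using hpfar
    have hθnear : ∀ j : ℤ, (J1 : ℤ) ≤ j → θ 0 j = if μ = 0 then 1 else 0 := by
      intro j hj
      simp only [hθ]
      have h1 := h6 0 hm _ (hnear j hj)
      have h2 : (W 0).c ((B ^ (-j)) *ᵥ ξ) = 0 := by
        have := (W 0).sq ((B ^ (-j)) *ᵥ ξ)
        rw [h1] at this
        nlinarith
      rw [(W 0).theta_of_mem (hSn 0 hm _ (hnear j hj)), h1, h2]
      simp only [hinj]
      simp
    obtain ⟨J3, hJ3⟩ := hlargeS ((W 0).S ∪ (fun x => x + (W 0).h) '' (W 0).S) (by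
      refine (W 0).bdd.union ?_
      have h1 : IsCompact ((fun x => x + (W 0).h) '' closure (W 0).S) :=
        (W 0).bdd.isCompact_closure.image (by fun_prop)
      exact h1.isBounded.subset (Set.image_mono subset_closure))
    have hθfar : ∀ j : ℤ, j ≤ -(J3 : ℤ) → θ 0 j = 0 := by
      intro j hj
      have h1 := hJ3 j hj
      simp only [hθ]
      apply (W 0).theta_of_not_mem
      · exact fun h => h1 (Or.inl h)
      · exact fun h => h1 (Or.inr ⟨_, h, sub_add_cancel _ _⟩)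
    rw [finsum_telescope X (if μ = 0 then 1 else 0) 0 (J1 + k + J3 + ∑ t, J2 t), sub_zero]
    · intro j hj
      push_cast at hj
      simp only [hX]
      rw [hθnear j (by
        have : (0 : ℤ) ≤ ∑ t, (J2 t : ℤ) := Finset.sum_nonneg fun t _ => Int.natCast_nonneg _
        have h3 : (0 : ℤ) ≤ J3 := Int.natCast_nonneg _
        have h4 : (0 : ℤ) ≤ k := Int.natCast_nonneg _
        linarith)]
      rw [Finset.sum_eq_zero, add_zero]
      intro l hl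
      rw [Finset.mem_range] at hl
      refine Finset.sum_eq_zero fun t _ => hpnear t _ ?_
      have : (0 : ℤ) ≤ ∑ t, (J2 t : ℤ) := Finset.sum_nonneg fun t _ => Int.natCast_nonneg _
      have hl' : (l : ℤ) + 1 ≤ k := by exact_mod_cast hl
      have h3 : (0 : ℤ) ≤ J3 := Int.natCast_nonneg _
      linarith
    · intro j hj
      push_cast at hj
      simp only [hX]
      have h0 : (0 : ℤ) ≤ ∑ t, (J2 t : ℤ) := Finset.sum_nonneg fun t _ => Int.natCast_nonneg _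
      have h3 : (0 : ℤ) ≤ J3 := Int.natCast_nonneg _
      have h4 : (0 : ℤ) ≤ k := Int.natCast_nonneg _
      have h5 : (0 : ℤ) ≤ J1 := Int.natCast_nonneg _
      rw [hθfar j (by linarith)]
      rw [Finset.sum_eq_zero, add_zero]
      intro l hl
      refine Finset.sum_eq_zero fun t _ => hJ2 t _ ?_
      have h1 : (J2 t : ℤ) ≤ ∑ t, (J2 t : ℤ) :=
        Finset.single_le_sum (f := fun t => (J2 t : ℤ)) (fun t _ => Int.natCast_nonneg _)
          (Finset.mem_univ t)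
      have h2 : (0 : ℤ) ≤ l := Int.natCast_nonneg _
      linarith

end Pool.Agent.Helper54.Wav
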