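import Pool.Agent.Helper54.Wav.PerOp
import Pool.Agent.Helper1.Wav.Completion
import Pool.Agent.Helper7.Wav.Orthonormalize
import Pool.Agent.Helper48.Wav.W7

/-!
# The core of the template theorem
-/

set_option autoImplicit false

open MeasureTheory Matrix Set Module
open scoped ComplexConjugate ContDiff ENNReal InnerProductSpace

namespace Pool.Agent.Helper54.Wav

variable {n : ℕ}

lemma et_expand (h : ℕ) (ξ : Fin n → ℝ) (v : VV n (2 * h + 1)) :
    v = ∑ t, ⟪et h t ξ, v⟫_ℂ • et h t ξ := by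
  have hcard : finrank ℂ (VV n (2 * h + 1)) = Fintype.card (Fin n → Fin (2 * h + 1)) := by
    rw [finrank_euclideanSpace]
  let b : OrthonormalBasis (Fin n → Fin (2 * h + 1)) ℂ (VV n (2 * h + 1)) :=
    OrthonormalBasis.mk (et_orthonormal h ξ) (by
      rw [(et_orthonormal h ξ).linearIndependent.span_eq_top_of_card_eq_finrank' hcard.symm])
  have h1 := b.sum_repr' v
  have h2 : ∀ t, b t = et h t ξ := fun t => by simp [b]
  simp_rw [h2] at h1
  exact h1.symm

lemma et_coeff (h : ℕ) (ξ : Fin n → ℝ) (c : (Fin n → Fin (2 * h + 1)) → ℂ)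
    (hc : ∑ t, c t • et h t ξ = 0) : c = 0 := by
  have := (Fintype.linearIndependent_iff.1 (et_orthonormal h ξ).linearIndependent) c hc
  exact funext this

lemma opv_et {h : ℕ} {γ : (Fin n → ℝ) → ℝ} (hγ : ∀ x, (h : ℝ) ≤ ‖x‖ → γ x = 0)
    {ξ : Fin n → ℝ} (hξ : ξ ∈ QQ n) (t : Fin n → Fin (2 * h + 1)) :
    opv h γ ξ (et h t ξ) = (γ (ξ + zv (rep h t)) : ℂ) • et h t ξ := by
  classical
  rw [opv_eq hγ hξ]
  have h1 := orthonormal_iff_ite.1 (et_orthonormal h ξ)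
  simp_rw [h1]
  simp

lemma opv_inner {h : ℕ} {γ : (Fin n → ℝ) → ℝ} (hγ : ∀ x, (h : ℝ) ≤ ‖x‖ → γ x = 0)
    {ξ : Fin n → ℝ} (hξ : ξ ∈ QQ n) (u v : VV n (2 * h + 1)) :
    ⟪opv h γ ξ u, v⟫_ℂ = ⟪u, opv h γ ξ v⟫_ℂ := by
  rw [opv_eq hγ hξ, opv_eq hγ hξ, sum_inner, inner_sum]
  refine Finset.sum_congr rfl fun t _ => ?_
  rw [inner_smul_left, inner_smul_right, map_mul, Complex.conj_ofReal, inner_conj_symm]
  ring

lemma opv_sum {h : ℕ} {γ : (Fin n → ℝ) → ℝ} (hγ : ∀ x, (h : ℝ) ≤ ‖x‖ → γ x = 0)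
    {ξ : Fin n → ℝ} (hξ : ξ ∈ QQ n) {ι : Type*} (s : Finset ι) (c : ι → ℂ)
    (v : ι → VV n (2 * h + 1)) :
    opv h γ ξ (∑ i ∈ s, c i • v i) = ∑ i ∈ s, c i • opv h γ ξ (v i) := by
  simp_rw [opv_eq hγ hξ, Finset.smul_sum]
  rw [Finset.sum_comm]
  refine Finset.sum_congr rfl fun t _ => ?_
  rw [inner_sum, Finset.mul_sum, Finset.sum_smul]
  refine Finset.sum_congr rfl fun i _ => ?_
  rw [inner_smul_right, smul_smul]
  congr 1
  ring

lemma inner_span_zero {V ι : Type*} [NormedAddCommGroup V] [InnerProductSpace ℂ V] (S : ι → V)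
    (v : V) (hv : ∀ i, ⟪S i, v⟫_ℂ = 0) {w : V} (hw : w ∈ Submodule.span ℂ (Set.range S)) :
    ⟪w, v⟫_ℂ = 0 := by
  induction hw using Submodule.span_induction with
  | mem x hx => obtain ⟨k, rfl⟩ := hx; exact hv k
  | zero => exact inner_zero_left _
  | add x y _ _ hx hy => rw [inner_add_left, hx, hy, add_zero]
  | smul c x _ hx => rw [inner_smul_left, hx, mul_zero]

theorem template_core (h p r : ℕ) (α γ : (Fin n → ℝ) → ℝ) (hαs : ContDiff ℝ ∞ α)
    (hγs : ContDiff ℝ ∞ γ) (hα : ∀ x, (h : ℝ) ≤ ‖x‖ → α x = 0) (hγ : ∀ x, (h : ℝ) ≤ ‖x‖ → γ x = 0)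
    (hαγ : ∀ x, α x = 0 → γ x = 0)
    (F1 F2 : Finset (Fin n → Fin (2 * h + 1)))
    (hF1 : ∀ ξ ∈ QQ n, ∀ t, γ (ξ + zv (rep h t)) = 1 → t ∈ F1)
    (hF2 : ∀ ξ ∈ QQ n, ∀ t ∈ F2, α (ξ + zv (rep h t)) ≠ 0)
    (hM : Fintype.card (Fin n → Fin (2 * h + 1)) = p + r)
    (h1 : 2 * p + 2 * F1.card + n ≤ 2 * Fintype.card (Fin n → Fin (2 * h + 1)))
    (h2 : n + 2 * Fintype.card (Fin n → Fin (2 * h + 1)) ≤ 2 * p + 2 * F2.card)
    (hr : n ≤ 2 * r) :
    ∃ Φ : Fin r → (Fin n → ℝ) → VV n (2 * h + 1), (∀ j, ContDiff ℝ ∞ (Φ j)) ∧ (∀ j, Per (Φ j)) ∧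
      (∀ ξ, Orthonormal ℂ (fun j => Φ j ξ)) ∧
      (∀ ξ ∈ QQ n, ∀ t, γ (ξ + zv (rep h t)) = 1 → α (ξ + zv (rep h t)) = 1 →
        et h t ξ ∈ Submodule.span ℂ (Set.range fun j => Φ j ξ)) ∧
      (∀ ξ ∈ QQ n, ∀ t, α (ξ + zv (rep h t)) = 0 → ∀ j, ⟪et h t ξ, Φ j ξ⟫_ℂ = 0) := by
  classical
  have hfr : finrank ℂ (VV n (2 * h + 1)) = Fintype.card (Fin n → Fin (2 * h + 1)) := by
    rw [finrank_euclideanSpace]
  obtain ⟨T, hT⟩ := Pool.Agent.Helper48.Wav.generic_columns (et h) (et_contDiff h)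
    (et_orthonormal h) hfr F1 F2 p h1 h2
  -- the bundle `ℬ Y`
  let G : Fin p → (Fin n → ℝ) → VV n (2 * h + 1) := fun i ξ => T i - opv h γ ξ (T i)
  have hGs : ∀ i, ContDiff ℝ ∞ (G i) := fun i =>
    contDiff_const.sub (opv_smooth hγs hγ contDiff_const)
  have hGp : ∀ i, Per (G i) := fun i ξ m => by simp only [G, opv_per]
  have hG_eq : ∀ ξ ∈ QQ n, ∀ i t, ⟪et h t ξ, G i ξ⟫_ℂ =
      ((1 - γ (ξ + zv (rep h t)) : ℝ) : ℂ) * ⟪et h t ξ, T i⟫_ℂ := by
    intro ξ hξ i t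
    simp only [G]
    rw [inner_sub_right, ← opv_inner hγ hξ, opv_et hγ hξ, inner_smul_left, Complex.conj_ofReal]
    push_cast
    ring
  have hGli : ∀ ξ, LinearIndependent ℂ (fun i => G i ξ) := by
    intro ξ
    obtain ⟨m, hm⟩ := exists_QQ ξ
    have e1 : (fun i => G i ξ) = fun i => G i (ξ + zv m) := funext fun i => (hGp i ξ m).symm
    rw [e1]
    generalize ξ + zv m = ξ at hm
    rw [Fintype.linearIndependent_iff]
    intro c hc
    have hmem : (∑ i, c i • T i) ∈ Submodule.span ℂ ((fun t => et h t ξ) '' F1) := by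
      rw [et_expand h ξ (∑ i, c i • T i)]
      refine Submodule.sum_mem _ fun t _ => ?_
      by_cases ht : t ∈ F1
      · exact Submodule.smul_mem _ _ (Submodule.subset_span ⟨t, by simpa using ht, rfl⟩)
      · have h3 : ⟪et h t ξ, ∑ i, c i • G i ξ⟫_ℂ = 0 := by rw [hc, inner_zero_right]
        rw [inner_sum] at h3
        simp_rw [inner_smul_right, hG_eq ξ hm] at h3
        have h4 : ((1 - γ (ξ + zv (rep h t)) : ℝ) : ℂ) * ⟪et h t ξ, ∑ i, c i • T i⟫_ℂ = 0 := by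
          rw [← h3, inner_sum, Finset.mul_sum]
          refine Finset.sum_congr rfl fun i _ => ?_
          rw [inner_smul_right]
          ring
        rcases mul_eq_zero.1 h4 with h5 | h5
        · exfalso
          apply ht
          apply hF1 ξ hm
          have : (1 - γ (ξ + zv (rep h t)) : ℝ) = 0 := by exact_mod_cast h5
          linarith
        · rw [h5, zero_smul]
          exact Submodule.zero_mem _
    exact fun i => congrFun ((hT ξ).1 c hmem) i
  obtain ⟨S, hSs, hSp, hSon, hSspan⟩ := Pool.Agent.Helper7.Wav.orthonormalize p G hGs hGp hGli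
  obtain ⟨H, hHs, hHp, hHon⟩ := completion p r (hfr.trans hM) hr S hSs hSp hSon
  have hHon1 : ∀ ξ, Orthonormal ℂ (fun j => H j ξ) := by
    intro ξ
    have := (hHon ξ).comp (Sum.inr : Fin r → Fin p ⊕ Fin r) Sum.inr_injective
    exact this
  have hSH : ∀ ξ i j, ⟪S i ξ, H j ξ⟫_ℂ = 0 := by
    intro ξ i j
    have := (hHon ξ).2 (i := Sum.inl i) (j := Sum.inr j) (by simp)
    exact this
  -- G is orthogonal to H
  have hGH : ∀ ξ i j, ⟪G i ξ, H j ξ⟫_ℂ = 0 := by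
    intro ξ i j
    have hmem : G i ξ ∈ Submodule.span ℂ (Set.range fun i => S i ξ) := by
      rw [hSspan]
      exact Submodule.subset_span ⟨i, rfl⟩
    exact inner_span_zero _ _ (fun k => hSH ξ k j) hmem
  -- vectors orthogonal to G are in the span of H
  have hspanH : ∀ ξ v, (∀ i, ⟪G i ξ, v⟫_ℂ = 0) → v = ∑ j, ⟪H j ξ, v⟫_ℂ • H j ξ := by
    intro ξ v hv
    have hSv : ∀ i, ⟪S i ξ, v⟫_ℂ = 0 := by
      intro i
      have hmem : S i ξ ∈ Submodule.span ℂ (Set.range fun i => G i ξ) := by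
        rw [← hSspan]
        exact Submodule.subset_span ⟨i, rfl⟩
      exact inner_span_zero _ _ hv hmem
    have hcard : Fintype.card (Fin p ⊕ Fin r) = finrank ℂ (VV n (2 * h + 1)) := by
      rw [Fintype.card_sum, Fintype.card_fin, Fintype.card_fin, hfr, hM]
    let b : OrthonormalBasis (Fin p ⊕ Fin r) ℂ (VV n (2 * h + 1)) :=
      OrthonormalBasis.mk (hHon ξ) (by
        rw [(hHon ξ).linearIndependent.span_eq_top_of_card_eq_finrank' hcard])
    have h3 := b.sum_repr' v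
    have h4 : ∀ t, b t = Sum.elim (fun i => S i ξ) (fun i => H i ξ) t := fun t => by simp [b]
    simp_rw [h4] at h3
    rw [Fintype.sum_sum_type] at h3
    simp only [Sum.elim_inl, Sum.elim_inr, hSv, zero_smul, Finset.sum_const_zero, zero_add] at h3
    exact h3.symm
  -- the bundle `𝒜 H`
  let F : Fin r → (Fin n → ℝ) → VV n (2 * h + 1) := fun j ξ => opv h α ξ (H j ξ)
  have hFs : ∀ j, ContDiff ℝ ∞ (F j) := fun j => opv_smooth hαs hα (hHs j)
  have hFp : ∀ j, Per (F j) := fun j ξ m => by simp only [F, opv_per, hHp j ξ m]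
  have hFli : ∀ ξ, LinearIndependent ℂ (fun j => F j ξ) := by
    intro ξ
    obtain ⟨m, hm⟩ := exists_QQ ξ
    have e1 : (fun j => F j ξ) = fun j => F j (ξ + zv m) := funext fun j => (hFp j ξ m).symm
    rw [e1]
    generalize ξ + zv m = ξ at hm
    rw [Fintype.linearIndependent_iff]
    intro c hc
    set u : VV n (2 * h + 1) := ∑ j, c j • H j ξ with hu
    have h3 : opv h α ξ u = 0 := by
      rw [hu, opv_sum hα hm]
      exact hc
    have h4 : ∀ t, (α (ξ + zv (rep h t)) : ℂ) * ⟪et h t ξ, u⟫_ℂ = 0 := by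
      rw [opv_eq hα hm] at h3
      exact fun t => congrFun (et_coeff h ξ _ h3) t
    have h5 : u ∈ Submodule.span ℂ ((fun t => et h t ξ) '' (F2ᶜ : Finset _)) := by
      rw [et_expand h ξ u]
      refine Submodule.sum_mem _ fun t _ => ?_
      by_cases ht : t ∈ F2
      · have h6 := h4 t
        have h7 : (α (ξ + zv (rep h t)) : ℂ) ≠ 0 := by exact_mod_cast hF2 ξ hm t ht
        rcases mul_eq_zero.1 h6 with h8 | h8
        · exact absurd h8 h7
        · rw [h8, zero_smul]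
          exact Submodule.zero_mem _
      · exact Submodule.smul_mem _ _ (Submodule.subset_span ⟨t, by simpa using ht, rfl⟩)
    have h6 : opv h γ ξ u = 0 := by
      rw [opv_eq hγ hm]
      refine Finset.sum_eq_zero fun t _ => ?_
      rcases mul_eq_zero.1 (h4 t) with h8 | h8
      · have : α (ξ + zv (rep h t)) = 0 := by exact_mod_cast h8
        rw [hαγ _ this]
        simp
      · rw [h8, mul_zero, zero_smul]
    have h7 : ∀ i, ⟪T i, u⟫_ℂ = 0 := by
      intro i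
      have h8 : ⟪G i ξ, u⟫_ℂ = 0 := by
        rw [hu, inner_sum]
        refine Finset.sum_eq_zero fun j _ => ?_
        rw [inner_smul_right, hGH, mul_zero]
      simp only [G] at h8
      rw [inner_sub_left, opv_inner hγ hm, h6, inner_zero_right, sub_zero] at h8
      exact h8
    have h8 := (hT ξ).2 u h5 h7
    exact (Fintype.linearIndependent_iff.1 (hHon1 ξ).linearIndependent) c h8
  obtain ⟨Φ, hΦs, hΦp, hΦon, hΦspan⟩ := Pool.Agent.Helper7.Wav.orthonormalize r F hFs hFp hFli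
  refine ⟨Φ, hΦs, hΦp, hΦon, ?_, ?_⟩
  · intro ξ hξ t hγt hαt
    have h3 : ∀ i, ⟪G i ξ, et h t ξ⟫_ℂ = 0 := by
      intro i
      rw [← inner_conj_symm, hG_eq ξ hξ, hγt]
      simp
    have h4 := hspanH ξ _ h3
    have h5 : opv h α ξ (et h t ξ) = et h t ξ := by
      rw [opv_et hα hξ, hαt]
      simp
    rw [hΦspan, ← h5, h4, opv_sum hα hξ]
    exact Submodule.sum_mem _ fun j _ => Submodule.smul_mem _ _ (Submodule.subset_span ⟨j, rfl⟩)
  · intro ξ hξ t hαt j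
    have h3 : ∀ k, ⟪F k ξ, et h t ξ⟫_ℂ = 0 := by
      intro k
      simp only [F]
      rw [opv_inner hα hξ, opv_et hα hξ, hαt]
      simp
    have hmem : Φ j ξ ∈ Submodule.span ℂ (Set.range fun k => F k ξ) := by
      rw [← hΦspan]
      exact Submodule.subset_span ⟨j, rfl⟩
    have h4 := inner_span_zero _ _ h3 hmem
    rw [← inner_conj_symm, h4, map_zero]

end Pool.Agent.Helper54.Wav
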