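import Mathlib

/-!
# Wavelets for expansive dilations: definitions

`E n` is `ℝⁿ` with the Euclidean norm.
-/

set_option autoImplicit false

open MeasureTheory Matrix
open scoped ComplexConjugate ContDiff FourierTransform SchwartzMap

namespace Pool.Agent.Helper54.Wav

/-- `ℝⁿ` with its Euclidean norm. -/
abbrev E (n : ℕ) := EuclideanSpace ℝ (Fin n)

/-- `A` is expansive: every complex eigenvalue of `A` has modulus larger than one. -/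
def Expansive {n : ℕ} (A : Matrix (Fin n) (Fin n) ℝ) : Prop :=
  ∀ z : ℂ, (A.map (algebraMap ℝ ℂ)).charpoly.IsRoot z → 1 < ‖z‖

/-- The dilated and translated function `x ↦ |det A|^{j/2} ψ(A^j x - k)`. -/
noncomputable def dil {n : ℕ} (A : Matrix (Fin n) (Fin n) ℝ) (ψ : E n → ℂ) (j : ℤ)
    (k : Fin n → ℤ) (x : E n) : ℂ :=
  ((|A.det| ^ ((j : ℝ) / 2) : ℝ) : ℂ) *
    ψ (WithLp.toLp 2 ((A ^ j) *ᵥ x.ofLp - fun i => (k i : ℝ)))

/-- `ψ¹, …, ψᴸ` is an orthonormal wavelet for `(A, ℤⁿ)`: the functions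
`|det A|^{j/2} ψˡ(A^j x - k)` (`l ≤ L`, `j ∈ ℤ`, `k ∈ ℤⁿ`) form an orthonormal basis of `L²(ℝⁿ)`. -/
structure IsWavelet {n L : ℕ} (A : Matrix (Fin n) (Fin n) ℝ) (ψ : Fin L → E n → ℂ) : Prop where
  memLp : ∀ l, MemLp (ψ l) 2 volume
  orthonormal : ∀ (l l' : Fin L) (j j' : ℤ) (k k' : Fin n → ℤ),
    ∫ x, conj (dil A (ψ l) j k x) * dil A (ψ l') j' k' x =
      if l = l' ∧ j = j' ∧ k = k' then 1 else 0
  complete : ∀ f : E n → ℂ, MemLp f 2 volume →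
    (∀ (l : Fin L) (j : ℤ) (k : Fin n → ℤ), ∫ x, conj (dil A (ψ l) j k x) * f x = 0) →
    f =ᵐ[volume] 0

/-- An integer vector, seen in `ℝⁿ`. -/
def zv {n : ℕ} (m : Fin n → ℤ) : Fin n → ℝ := fun i => (m i : ℝ)

/-- `e(t) = exp(2π i t)`. -/
noncomputable def ee (t : ℝ) : ℂ := Complex.exp (2 * Real.pi * t * Complex.I)

/-- Periodicity under `ℤⁿ`. -/
def Per {n : ℕ} {X : Type*} (f : (Fin n → ℝ) → X) : Prop := ∀ ξ m, f (ξ + zv m) = f ξ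

open Classical in
/-- The kernel `Σ_l g_l(ξ) conj(g_l(ξ + μ))` for `μ ∈ ℤⁿ`, extended by `0` to `μ ∈ ℝⁿ`. -/
noncomputable def ker {n L : ℕ} (g : Fin L → (Fin n → ℝ) → ℂ) (ξ μ : Fin n → ℝ) : ℂ :=
  if ∃ m : Fin n → ℤ, μ = zv m then ∑ l, g l ξ * conj (g l (ξ + μ)) else 0

end Pool.Agent.Helper54.Wav
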