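import Pool.Agent.Helper54.Wav.Freq4

/-!
# The vectors `e(η) ∈ ℂ^{ρⁿ}` and periodizations
-/

set_option autoImplicit false

open MeasureTheory Matrix Set Module
open scoped ComplexConjugate ContDiff ENNReal InnerProductSpace

namespace Pool.Agent.Helper54.Wav

variable {n : ℕ}

lemma ee_add (a b : ℝ) : ee (a + b) = ee a * ee b := by
  unfold ee
  rw [← Complex.exp_add]
  congr 1
  push_cast
  ring

lemma ee_zero : ee 0 = 1 := by simp [ee]

lemma ee_sum {ι : Type*} (s : Finset ι) (f : ι → ℝ) : ee (∑ i ∈ s, f i) = ∏ i ∈ s, ee (f i) := by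
  classical
  induction s using Finset.induction_on with
  | empty => simp [ee_zero]
  | insert a s ha ih => rw [Finset.sum_insert ha, Finset.prod_insert ha, ee_add, ih]

lemma ee_int (k : ℤ) : ee k = 1 := by
  unfold ee
  rw [Complex.exp_eq_one_iff]
  exact ⟨k, by push_cast; ring⟩

lemma ee_nat_mul (m : ℕ) (a : ℝ) : ee (m * a) = ee a ^ m := by
  induction m with
  | zero => simp [ee_zero]
  | succ m ih => rw [pow_succ, ← ih, ← ee_add]; congr 1; push_cast; ring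

lemma ee_eq_one_iff (a : ℝ) : ee a = 1 ↔ ∃ k : ℤ, a = k := by
  unfold ee
  rw [Complex.exp_eq_one_iff]
  constructor
  · rintro ⟨k, hk⟩
    refine ⟨k, ?_⟩
    have h1 : (2 * Real.pi * Complex.I : ℂ) ≠ 0 := Complex.two_pi_I_ne_zero
    have h2 : (2 * Real.pi * Complex.I : ℂ) * (a : ℂ) = (2 * Real.pi * Complex.I) * (k : ℂ) := by
      linear_combination hk
    have h3 := mul_left_cancel₀ h1 h2
    exact_mod_cast h3
  · rintro ⟨k, rfl⟩
    exact ⟨k, by push_cast; ring⟩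

lemma ee_contDiff : ContDiff ℝ ∞ ee := by
  unfold ee
  have h1 : ContDiff ℝ ∞ (fun t : ℝ => (t : ℂ)) := Complex.ofRealCLM.contDiff
  exact ((contDiff_const.mul h1).mul contDiff_const).cexp

/-- one-dimensional character sums -/
lemma sum_ee_fin (ρ : ℕ) (hρ : 0 < ρ) (k : ℤ) :
    ∑ s : Fin ρ, ee ((s : ℕ) * ((k : ℝ) / ρ)) = if (ρ : ℤ) ∣ k then (ρ : ℂ) else 0 := by
  have hρ' : (ρ : ℝ) ≠ 0 := by positivity
  simp_rw [ee_nat_mul]
  rw [Fin.sum_univ_eq_sum_range (fun s => ee ((k : ℝ) / ρ) ^ s) ρ]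
  split_ifs with h
  · obtain ⟨c, rfl⟩ := h
    have h1 : ee ((((ρ : ℤ) * c : ℤ) : ℝ) / ρ) = 1 := by
      rw [ee_eq_one_iff]
      exact ⟨c, by push_cast; field_simp⟩
    rw [h1]
    simp
  · have h1 : ee ((k : ℝ) / ρ) ≠ 1 := by
      rw [Ne, ee_eq_one_iff]
      rintro ⟨c, hc⟩
      apply h
      refine ⟨c, ?_⟩
      have : (k : ℝ) = ρ * c := by
        rw [div_eq_iff hρ'] at hc
        linarith
      exact_mod_cast this
    have h2 : ee ((k : ℝ) / ρ) ^ ρ = 1 := by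
      rw [← ee_nat_mul]
      have : (ρ : ℝ) * ((k : ℝ) / ρ) = k := by field_simp
      rw [this, ee_int]
    have h3 := mul_neg_geom_sum (ee ((k : ℝ) / ρ)) ρ
    rw [h2, sub_self] at h3
    rcases mul_eq_zero.1 h3 with h4 | h4
    · exact absurd (sub_eq_zero.1 h4).symm h1
    · exact h4

/-- the coefficient space -/
abbrev VV (n ρ : ℕ) := EuclideanSpace ℂ (Fin n → Fin ρ)

/-- the vector `e(η)` -/
noncomputable def ev (ρ : ℕ) (η : Fin n → ℝ) : VV n ρ :=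
  WithLp.toLp 2 fun s => ((1 / Real.sqrt ((ρ : ℝ) ^ n) : ℝ) : ℂ) *
    ee (-∑ i, ((s i : ℕ) : ℝ) * (η i / ρ))

lemma ev_contDiff (ρ : ℕ) : ContDiff ℝ ∞ (ev (n := n) ρ) := by
  rw [contDiff_piLp]
  intro s
  unfold ev
  simp only
  refine contDiff_const.mul (ee_contDiff.comp ?_)
  refine ContDiff.neg (ContDiff.sum fun i _ => ?_)
  exact contDiff_const.mul ((contDiff_apply ℝ ℝ i).div_const _)

lemma inner_ev (ρ : ℕ) (hρ : 0 < ρ) (η : Fin n → ℝ) (k : Fin n → ℤ) :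
    ⟪ev ρ η, ev ρ (η + zv k)⟫_ℂ = if ∀ i, (ρ : ℤ) ∣ k i then 1 else 0 := by
  have hρ' : (ρ : ℝ) ≠ 0 := by positivity
  rw [PiLp.inner_apply]
  have h1 : ∀ s : Fin n → Fin ρ, ⟪(ev ρ η) s, (ev ρ (η + zv k)) s⟫_ℂ =
      ((1 / (ρ : ℝ) ^ n : ℝ) : ℂ) * ∏ i, ee ((s i : ℕ) * (((-k i : ℤ) : ℝ) / ρ)) := by
    intro s
    simp only [ev, RCLike.inner_apply, map_mul, Complex.conj_ofReal, conj_ee, neg_neg]
    rw [← ee_sum]
    have h2 : ((1 / Real.sqrt ((ρ : ℝ) ^ n) : ℝ) : ℂ) * ((1 / Real.sqrt ((ρ : ℝ) ^ n) : ℝ) : ℂ) =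
        ((1 / (ρ : ℝ) ^ n : ℝ) : ℂ) := by
      rw [← Complex.ofReal_mul]
      congr 1
      have h3 : Real.sqrt ((ρ : ℝ) ^ n) * Real.sqrt ((ρ : ℝ) ^ n) = (ρ : ℝ) ^ n :=
        Real.mul_self_sqrt (by positivity)
      rw [div_mul_div_comm, h3, one_mul]
    have h4 : ee (-∑ i, ((s i : ℕ) : ℝ) * ((η + zv k) i / ρ)) * ee (∑ i, ((s i : ℕ) : ℝ) * (η i / ρ))
        = ee (∑ i, ((s i : ℕ) : ℝ) * (((-k i : ℤ) : ℝ) / ρ)) := by
      rw [← ee_add, ← Finset.sum_neg_distrib, ← Finset.sum_add_distrib]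
      congr 1
      refine Finset.sum_congr rfl fun i _ => ?_
      simp only [Pi.add_apply, zv]
      push_cast
      ring
    rw [← h4, ← h2]
    ring
  simp_rw [h1]
  rw [← Finset.mul_sum]
  have h5 : ∑ s : Fin n → Fin ρ, ∏ i, ee ((s i : ℕ) * (((-k i : ℤ) : ℝ) / ρ)) =
      ∏ i : Fin n, ∑ t : Fin ρ, ee ((t : ℕ) * (((-k i : ℤ) : ℝ) / ρ)) := by
    rw [Finset.prod_univ_sum]
    simp
  rw [h5]
  simp_rw [sum_ee_fin ρ hρ]
  split_ifs with h
  · have h6 : ∀ i, (ρ : ℤ) ∣ -k i := fun i => (dvd_neg).2 (h i)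
    simp only [h6, if_true, Finset.prod_const, Finset.card_univ, Fintype.card_fin]
    rw [← Complex.ofReal_natCast, ← Complex.ofReal_pow, ← Complex.ofReal_mul]
    have : (1 / (ρ : ℝ) ^ n) * (ρ : ℝ) ^ n = 1 := by field_simp
    rw [this, Complex.ofReal_one]
  · push Not at h
    obtain ⟨i, hi⟩ := h
    rw [Finset.prod_eq_zero (Finset.mem_univ i), mul_zero]
    rw [if_neg]
    rwa [dvd_neg]

end Pool.Agent.Helper54.Wav
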