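import Pool.Agent.Helper54.Wav.Freq4

set_option autoImplicit false

open MeasureTheory Matrix Set
open scoped ComplexConjugate ContDiff ENNReal

namespace Pool.Agent.Helper54.Wav

variable {n : ℕ}

lemma compact_bound {L : ℕ} (g : Fin L → (Fin n → ℝ) → ℂ) (hc : ∀ l, HasCompactSupport (g l)) :
    ∃ R : ℝ, ∀ l x, R < ‖x‖ → g l x = 0 := by
  have h : ∀ l, ∃ R : ℝ, ∀ x, R < ‖x‖ → g l x = 0 := by
    intro l
    obtain ⟨R, hR⟩ := (hc l).isCompact.isBounded.subset_closedBall 0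
    refine ⟨R, fun x hx => ?_⟩
    by_contra hcon
    have h1 := hR (subset_tsupport _ hcon)
    rw [mem_closedBall_zero_iff] at h1
    linarith
  choose R hR using h
  obtain ⟨M, hM⟩ := (Set.finite_range R).bddAbove
  exact ⟨M, fun l x hx => hR l x ((hM (Set.mem_range_self l)).trans_lt hx)⟩

lemma finite_of_bound {L : ℕ} {g : Fin L → (Fin n → ℝ) → ℂ} {R : ℝ}
    (hR : ∀ l x, R < ‖x‖ → g l x = 0) (η : Fin n → ℝ) :
    {m : Fin n → ℤ | ∃ l, g l (η + zv m) ≠ 0}.Finite := by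
  refine (finite_shift η R).subset ?_
  rintro m ⟨l, hl⟩
  change ‖η + zv m‖ ≤ R
  by_contra hcon
  push Not at hcon
  exact hl (hR l _ hcon)

theorem parseval_freq {L : ℕ} (B : Matrix (Fin n) (Fin n) ℝ) (hB : B.det ≠ 0)
    (hexp : ∀ R > 0, ∀ ε > 0, ∃ J : ℕ, ∀ j : ℤ, (J : ℤ) ≤ j → ∀ ξ : Fin n → ℝ,
      (‖ξ‖ ≤ R → ‖(B ^ (-j)) *ᵥ ξ‖ ≤ ε) ∧ (ε ≤ ‖ξ‖ → R ≤ ‖(B ^ j) *ᵥ ξ‖))
    (g : Fin L → (Fin n → ℝ) → ℂ) (hg : ∀ l, Continuous (g l)) (hc : ∀ l, HasCompactSupport (g l))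
    (h0 : ∃ ε > 0, ∀ l ξ, ‖ξ‖ < ε → g l ξ = 0)
    (h2 : ∀ ξ μ, ξ ≠ 0 → ∑ᶠ j : ℤ, ker g ((B ^ (-j)) *ᵥ ξ) ((B ^ (-j)) *ᵥ μ) =
      if μ = 0 then 1 else 0)
    (f : (Fin n → ℝ) → ℂ) (hf : Measurable f) (hfb : ∃ C, ∀ x, ‖f x‖ ≤ C)
    (hfs : ∃ ε > 0, ∃ R, ∀ x, (‖x‖ ≤ ε ∨ R ≤ ‖x‖) → f x = 0) :
    HasSum (fun i : Fin L × ℤ × (Fin n → ℤ) =>
      ‖∫ ξ, conj (fdil B (g i.1) i.2.1 i.2.2 ξ) * f ξ‖ ^ 2) (∫ ξ, ‖f ξ‖ ^ 2) := by
  classical
  obtain ⟨ε0, hε0, h0⟩ := h0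
  obtain ⟨R0, hR0⟩ := compact_bound g hc
  obtain ⟨ε, hε, R, hfs⟩ := hfs
  obtain ⟨J, hJ⟩ := hexp (max (max R 1) (R0 + 1)) (by positivity) (min (ε0 / 2) ε) (by positivity)
  have hvan : ∀ j ∉ Finset.Icc (-(J : ℤ)) J, ∀ ξ, f ξ ≠ 0 → ∀ l, g l ((B ^ (-j)) *ᵥ ξ) = 0 := by
    intro j hj ξ hξ l
    have h1 : ε < ‖ξ‖ := by
      by_contra hcon
      push Not at hcon
      exact hξ (hfs ξ (Or.inl hcon))
    have h2 : ‖ξ‖ < R := by
      by_contra hcon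
      push Not at hcon
      exact hξ (hfs ξ (Or.inr hcon))
    rw [Finset.mem_Icc, not_and_or, not_le, not_le] at hj
    rcases hj with hj | hj
    · have := (hJ (-j) (by omega) ξ).2 ((min_le_right _ _).trans h1.le)
      apply hR0
      have h3 : R0 + 1 ≤ ‖(B ^ (-j)) *ᵥ ξ‖ := (le_max_right _ _).trans this
      linarith
    · have := (hJ j hj.le ξ).1 ((h2.le.trans (le_max_left _ _)).trans (le_max_left _ _))
      apply h0
      have h3 : ‖(B ^ (-j)) *ᵥ ξ‖ ≤ ε0 / 2 := this.trans (min_le_left _ _)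
      linarith
  have hk := fun (l : Fin L) (j : ℤ) => hasSum_k B hB (g l) f (hg l) (hc l) hf hfb j
  have hPsi0 : ∀ j ∉ Finset.Icc (-(J : ℤ)) J, ∀ l, Psi B (g l) f j = 0 := by
    intro j hj l
    funext ξ
    by_cases hξ : f ξ = 0
    · simp [Psi, hξ]
    · simp [Psi, hvan j hj ξ hξ l]
  -- pointwise identity
  have hpt : ∀ ξ, ∑ l, ∑ j ∈ Finset.Icc (-(J : ℤ)) J, Psi B (g l) f j ξ = ((‖f ξ‖ ^ 2 : ℝ) : ℂ) := by
    intro ξ
    by_cases hξ : f ξ = 0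
    · simp [Psi, hξ]
    · have hξ0 : ξ ≠ 0 := by
        rintro rfl
        exact hξ (hfs 0 (Or.inl (by simpa using hε.le)))
      have hsk := sum_kernel B hB g (finite_of_bound hR0) ξ (Finset.Icc (-(J : ℤ)) J)
        (fun j hj l => hvan j hj ξ hξ l) (fun μ => h2 ξ μ hξ0) f
      rw [Finset.sum_comm]
      have e1 : ∀ j, ∑ l, Psi B (g l) f j ξ = f ξ * conj (∑' m : Fin n → ℤ,
          ker g ((B ^ (-j)) *ᵥ ξ) (zv m) * f (ξ + (B ^ j) *ᵥ zv m)) := by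
        intro j
        unfold Psi
        rw [← Finset.mul_sum]
        congr 1
        have hct : conj (∑' m : Fin n → ℤ, ker g ((B ^ (-j)) *ᵥ ξ) (zv m) *
            f (ξ + (B ^ j) *ᵥ zv m)) = ∑' m : Fin n → ℤ, conj (ker g ((B ^ (-j)) *ᵥ ξ) (zv m) *
            f (ξ + (B ^ j) *ᵥ zv m)) := Complex.conj_tsum _
        rw [hct, ← Summable.tsum_finsetSum]
        · refine tsum_congr fun m => ?_
          rw [ker_zv, map_mul, map_sum, Finset.sum_mul]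
          refine Finset.sum_congr rfl fun l _ => ?_
          simp
        · intro l _
          refine summable_of_hasFiniteSupport ?_
          refine (finite_of_bound hR0 ((B ^ (-j)) *ᵥ ξ)).subset ?_
          intro m hm
          refine ⟨l, fun hcon => hm ?_⟩
          simp [hcon]
      simp_rw [e1]
      rw [← Finset.mul_sum, ← map_sum, hsk, Complex.mul_conj, Complex.normSq_eq_norm_sq]
  have htot : HasSum (fun p : Fin L × ℤ => (∫ ξ, Psi B (g p.1) f p.2 ξ).re) (∫ ξ, ‖f ξ‖ ^ 2) := by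
    have h1 : (∫ ξ, ‖f ξ‖ ^ 2) = ∑ p ∈ (Finset.univ : Finset (Fin L)) ×ˢ Finset.Icc (-(J : ℤ)) J,
        (∫ ξ, Psi B (g p.1) f p.2 ξ).re := by
      rw [Finset.sum_product]
      have h3 : ∫ ξ, ∑ l, ∑ j ∈ Finset.Icc (-(J : ℤ)) J, Psi B (g l) f j ξ
          = ∑ l, ∑ j ∈ Finset.Icc (-(J : ℤ)) J, ∫ ξ, Psi B (g l) f j ξ := by
        rw [integral_finsetSum]
        · refine Finset.sum_congr rfl fun l _ => ?_
          rw [integral_finsetSum]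
          exact fun j _ => (hk l j).2
        · exact fun l _ => integrable_finsetSum _ fun j _ => (hk l j).2
      simp_rw [hpt] at h3
      rw [integral_complex_ofReal] at h3
      have h4 := congrArg Complex.re h3
      rw [Complex.ofReal_re] at h4
      rw [h4]
      simp only [Complex.re_sum]
    rw [h1]
    apply hasSum_sum_of_ne_finset_zero
    intro p hp
    have : p.2 ∉ Finset.Icc (-(J : ℤ)) J := by
      intro hcon
      exact hp (Finset.mem_product.2 ⟨Finset.mem_univ _, hcon⟩)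
    rw [hPsi0 p.2 this p.1]
    simp
  have hnn : 0 ≤ (fun q : (Fin L × ℤ) × (Fin n → ℤ) =>
      ‖∫ ξ, conj (fdil B (g q.1.1) q.1.2 q.2 ξ) * f ξ‖ ^ 2) := fun q => by positivity
  have hsum : Summable (fun q : (Fin L × ℤ) × (Fin n → ℤ) =>
      ‖∫ ξ, conj (fdil B (g q.1.1) q.1.2 q.2 ξ) * f ξ‖ ^ 2) := by
    rw [summable_prod_of_nonneg hnn]
    refine ⟨fun p => ((hk p.1 p.2).1).summable, ?_⟩
    have : (fun p : Fin L × ℤ => ∑' k : Fin n → ℤ, ‖∫ ξ, conj (fdil B (g p.1) p.2 k ξ) * f ξ‖ ^ 2)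
        = fun p : Fin L × ℤ => (∫ ξ, Psi B (g p.1) f p.2 ξ).re :=
      funext fun p => ((hk p.1 p.2).1).tsum_eq
    rw [this]
    exact htot.summable
  have hfib := HasSum.prod_fiberwise hsum.hasSum (fun p => (hk p.1 p.2).1)
  have heq := hfib.unique htot
  have hfinal := hsum.hasSum
  rw [heq] at hfinal
  exact (Equiv.prodAssoc (Fin L) ℤ (Fin n → ℤ)).hasSum_iff.1 hfinal

end Pool.Agent.Helper54.Wav
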