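import Pool.Agent.Helper54.Wav.Abs
import Pool.Agent.Helper54.Wav.Freq5
import Pool.Agent.Helper67.Wav.Four

/-!
# From generators on the frequency side to orthonormal wavelets
-/

set_option autoImplicit false

open MeasureTheory Matrix Set
open scoped ComplexConjugate ContDiff ENNReal FourierTransform SchwartzMap InnerProductSpace

namespace Pool.Agent.Helper54.Wav

variable {n : ℕ}

/-- a function on `Fin n → ℝ` seen on Euclidean space -/
def up (g : (Fin n → ℝ) → ℂ) (ξ : _root_.Wav.E n) : ℂ := g ξ.ofLp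

lemma up_contDiff {g : (Fin n → ℝ) → ℂ} (hg : ContDiff ℝ ∞ g) : ContDiff ℝ ∞ (up g) :=
  hg.comp (EuclideanSpace.equiv (Fin n) ℝ).contDiff

lemma up_compact {g : (Fin n → ℝ) → ℂ} (hg : HasCompactSupport g) : HasCompactSupport (up g) :=
  hg.comp_homeomorph (EuclideanSpace.equiv (Fin n) ℝ).toHomeomorph

lemma faff_up (A : Matrix (Fin n) (Fin n) ℝ) (g : (Fin n → ℝ) → ℂ) (j : ℤ) (k : Fin n → ℤ)
    (ξ : _root_.Wav.E n) : _root_.Wav.faff A (up g) j k ξ = fdil Aᵀ g j k ξ.ofLp := by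
  unfold _root_.Wav.faff fdil
  rw [Matrix.det_transpose, ← Matrix.transpose_zpow, _root_.Wav.inner_act]
  have h1 : ⟪_root_.Wav.ivec k, _root_.Wav.act (A ^ (-j))ᵀ ξ⟫_ℝ
      = ∑ i, (k i : ℝ) * ((A ^ (-j))ᵀ *ᵥ ξ.ofLp) i := by
    simp [_root_.Wav.ivec, _root_.Wav.act, PiLp.inner_apply, mul_comm]
  rw [h1]
  unfold _root_.Wav.ee ee up _root_.Wav.act
  simp only
  have h2 : (2 * Real.pi * Complex.I * ((-∑ i, (k i : ℝ) * ((A ^ (-j))ᵀ *ᵥ ξ.ofLp) i : ℝ) : ℂ) : ℂ)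
      = 2 * Real.pi * ((-∑ i, (k i : ℝ) * ((A ^ (-j))ᵀ *ᵥ ξ.ofLp) i : ℝ) : ℂ) * Complex.I := by ring
  rw [h2]
  ring

lemma integral_up {F : Type*} [NormedAddCommGroup F] [NormedSpace ℝ F] (h : (Fin n → ℝ) → F) :
    ∫ ξ : _root_.Wav.E n, h ξ.ofLp = ∫ x, h x :=
  (PiLp.volume_preserving_ofLp (Fin n)).integral_comp
    (EuclideanSpace.equiv (Fin n) ℝ).toHomeomorph.measurableEmbedding h

lemma fdil_cont (B : Matrix (Fin n) (Fin n) ℝ) {g : (Fin n → ℝ) → ℂ} (hg : Continuous g) (j : ℤ)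
    (k : Fin n → ℤ) : Continuous (fdil B g j k) := by
  have h1 : Continuous fun ξ : Fin n → ℝ => (B ^ (-j)) *ᵥ ξ :=
    (Matrix.toLin' (B ^ (-j))).continuous_of_finiteDimensional
  unfold fdil
  refine (continuous_const.mul (hg.comp h1)).mul (continuous_ee.comp ?_)
  refine (continuous_finsetSum _ fun i _ => ?_).neg
  exact continuous_const.mul ((continuous_apply i).comp h1)

lemma fdil_compact (B : Matrix (Fin n) (Fin n) ℝ) (hB : B.det ≠ 0) {g : (Fin n → ℝ) → ℂ}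
    (hg : HasCompactSupport g) (j : ℤ) (k : Fin n → ℤ) : HasCompactSupport (fdil B g j k) := by
  have hK : IsCompact ((fun ξ : Fin n → ℝ => (B ^ j) *ᵥ ξ) '' tsupport g) :=
    hg.isCompact.image (Matrix.toLin' (B ^ j)).continuous_of_finiteDimensional
  refine HasCompactSupport.intro hK fun ξ hξ => ?_
  have h1 : g ((B ^ (-j)) *ᵥ ξ) = 0 := by
    by_contra hcon
    apply hξ
    exact ⟨(B ^ (-j)) *ᵥ ξ, subset_tsupport _ hcon, zpow_mulVec_neg' B hB j ξ⟩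
  simp [fdil, h1]

lemma norm_fdil (B : Matrix (Fin n) (Fin n) ℝ) (hB : B.det ≠ 0) (g : (Fin n → ℝ) → ℂ)
    (j : ℤ) (k : Fin n → ℤ) : ∫ ξ, ‖fdil B g j k ξ‖ ^ 2 = ∫ ξ, ‖g ξ‖ ^ 2 := by
  have h := integral_comp_mulVec' (B ^ (-j)) (det_zpow_ne B hB (-j)) (fun x => ‖g x‖ ^ 2)
  rw [← h, ← integral_smul]
  refine integral_congr_ae (Filter.Eventually.of_forall fun ξ => ?_)
  have hpos : 0 < |B.det| := abs_pos.2 hB
  have h3 : ‖|B.det| ^ (-(j : ℝ) / 2)‖ = |B.det| ^ (-(j : ℝ) / 2) := by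
    rw [Real.norm_eq_abs, abs_of_nonneg (Real.rpow_nonneg hpos.le _)]
  have h4 : (|B.det| ^ (-(j : ℝ) / 2)) ^ 2 = |B.det| ^ ((-j : ℤ) : ℝ) := by
    rw [← Real.rpow_natCast, ← Real.rpow_mul hpos.le]
    congr 1
    push_cast
    ring
  simp only [fdil, norm_mul, norm_ee, mul_one, Complex.norm_real, h3, smul_eq_mul, mul_pow, h4,
    abs_det_zpow B hB]

lemma norm_sq_toLp {F : _root_.Wav.E n → ℂ} (_ : MemLp F 2 volume)
    (f : Lp ℂ 2 (volume : Measure (_root_.Wav.E n))) (hf : f =ᵐ[volume] F) :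
    ‖f‖ ^ 2 = ∫ x, ‖F x‖ ^ 2 := by
  have h1 : (⟪f, f⟫_ℂ).re = ‖f‖ ^ 2 := by
    rw [inner_self_eq_norm_sq_to_K]
    norm_cast
  rw [← h1, L2.inner_def]
  have h2 : ∫ a, ⟪f a, f a⟫_ℂ = ∫ a, ((‖F a‖ ^ 2 : ℝ) : ℂ) := by
    refine integral_congr_ae ?_
    filter_upwards [hf] with a ha
    rw [ha, inner_self_eq_norm_sq_to_K]
    norm_cast
  rw [h2, integral_complex_ofReal, Complex.ofReal_re]

lemma up_compact' {g : _root_.Wav.E n → ℂ} (hg : HasCompactSupport g) :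
    HasCompactSupport (fun x : Fin n → ℝ => g (WithLp.toLp 2 x)) :=
  hg.comp_homeomorph (EuclideanSpace.equiv (Fin n) ℝ).symm.toHomeomorph

/-- the dense class -/
def DD (n : ℕ) : Set (Lp ℂ 2 (volume : Measure (_root_.Wav.E n))) :=
  {f | ∃ f0 : (Fin n → ℝ) → ℂ, Measurable f0 ∧ (∃ C, ∀ x, ‖f0 x‖ ≤ C) ∧
    (∃ ε > 0, ∃ R, ∀ x, (‖x‖ ≤ ε ∨ R ≤ ‖x‖) → f0 x = 0) ∧ f =ᵐ[volume] up f0}

lemma dense_DD (hn : 0 < n) : Dense (DD n) := by
  intro f
  rw [Metric.mem_closure_iff]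
  intro ε hε
  have hfm := Lp.memLp f
  obtain ⟨g0, hg0c, hg0, hg0cont, hg0m⟩ := hfm.exists_hasCompactSupport_eLpNorm_sub_le
    (by norm_num) (ε := ENNReal.ofReal (ε / 3)) (by simpa using hε)
  obtain ⟨δ, hδ, hδ2⟩ := hg0m.eLpNorm_indicator_le (by norm_num) (by norm_num)
    (ε := ε / 3) (by positivity)
  set r : ℝ := min (1 / 2) (δ / 2) with hr
  have hr0 : 0 < r := by positivity
  let S : Set (_root_.Wav.E n) := (fun ξ => ξ.ofLp) ⁻¹' Metric.closedBall (0 : Fin n → ℝ) r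
  have hS : MeasurableSet S :=
    Metric.isClosed_closedBall.measurableSet.preimage
      (EuclideanSpace.equiv (Fin n) ℝ).continuous.measurable
  have hvol : volume S ≤ ENNReal.ofReal δ := by
    have h1 : volume S = volume (Metric.closedBall (0 : Fin n → ℝ) r) :=
      (PiLp.volume_preserving_ofLp (Fin n)).measure_preimage
        Metric.isClosed_closedBall.measurableSet.nullMeasurableSet
    rw [h1, Real.volume_pi_closedBall _ hr0.le]
    apply ENNReal.ofReal_le_ofReal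
    have h2 : 2 * r ≤ 1 := by
      have := min_le_left (1 / 2 : ℝ) (δ / 2)
      linarith
    have h3 : 2 * r ≤ δ := by
      have := min_le_right (1 / 2 : ℝ) (δ / 2)
      linarith
    refine (pow_le_of_le_one (by positivity) h2 ?_).trans h3
    simpa using hn.ne'
  let f0 : (Fin n → ℝ) → ℂ := fun x => if ‖x‖ ≤ r then 0 else g0 (WithLp.toLp 2 x)
  have hup : up f0 = g0 - S.indicator g0 := by
    funext ξ
    simp only [up, f0, Pi.sub_apply]
    by_cases h : ‖ξ.ofLp‖ ≤ r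
    · have hmem : ξ ∈ S := by simpa [S] using h
      rw [if_pos h, Set.indicator_of_mem hmem, sub_self]
    · have hmem : ξ ∉ S := by simpa [S] using h
      rw [if_neg h, Set.indicator_of_notMem hmem, sub_zero]
  have hupm : MemLp (up f0) 2 volume := by
    rw [hup]
    exact hg0m.sub (hg0m.indicator hS)
  refine ⟨hupm.toLp _, ⟨f0, ?_, ?_, ?_, hupm.coeFn_toLp⟩, ?_⟩
  · refine Measurable.ite ?_ measurable_const ?_
    · exact (isClosed_le continuous_norm continuous_const).measurableSet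
    · exact hg0cont.measurable.comp (EuclideanSpace.equiv (Fin n) ℝ).symm.continuous.measurable
  · obtain ⟨C, hC⟩ := hg0c.exists_bound_of_continuous hg0cont
    refine ⟨C, fun x => ?_⟩
    simp only [f0]
    split_ifs
    · rw [norm_zero]
      exact (norm_nonneg _).trans (hC 0)
    · exact hC _
  · obtain ⟨R, hR⟩ := (up_compact' hg0c).isCompact.isBounded.subset_closedBall 0
    refine ⟨r, hr0, R + 1, fun x hx => ?_⟩
    simp only [f0]
    split_ifs with h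
    · rfl
    · rcases hx with hx | hx
      · exact absurd hx h
      · by_contra hcon
        have h1 := hR (subset_tsupport _ (show x ∈ Function.support
          (fun x => g0 (WithLp.toLp 2 x)) from hcon))
        rw [mem_closedBall_zero_iff] at h1
        linarith
  · rw [Lp.dist_def]
    have h1 : eLpNorm (⇑f - ⇑(hupm.toLp (up f0))) 2 volume = eLpNorm (⇑f - up f0) 2 volume := by
      refine eLpNorm_congr_ae ?_
      filter_upwards [hupm.coeFn_toLp] with x hx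
      simp only [Pi.sub_apply, hx]
    have h2 : ⇑f - up f0 = (⇑f - g0) + S.indicator g0 := by
      rw [hup]
      abel
    have h3 : eLpNorm (⇑f - up f0) 2 volume ≤ ENNReal.ofReal (2 * ε / 3) := by
      rw [h2]
      refine (eLpNorm_add_le (hfm.sub hg0m).aestronglyMeasurable
        (hg0m.indicator hS).aestronglyMeasurable (by norm_num)).trans ?_
      have h4 := hδ2 S hS hvol
      refine (add_le_add hg0 h4).trans ?_
      rw [← ENNReal.ofReal_add (by positivity) (by positivity)]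
      apply ENNReal.ofReal_le_ofReal
      linarith
    rw [h1]
    have h5 : (eLpNorm (⇑f - up f0) 2 volume).toReal ≤ 2 * ε / 3 :=
      ENNReal.toReal_le_of_le_ofReal (by positivity) h3
    linarith

theorem main_reduction' {L : ℕ} (hn : 0 < n) (A : Matrix (Fin n) (Fin n) ℝ) (hA : A.det ≠ 0)
    (hexp : ∀ R > 0, ∀ ε > 0, ∃ J : ℕ, ∀ j : ℤ, (J : ℤ) ≤ j → ∀ ξ : Fin n → ℝ,
      (‖ξ‖ ≤ R → ‖(Aᵀ ^ (-j)) *ᵥ ξ‖ ≤ ε) ∧ (ε ≤ ‖ξ‖ → R ≤ ‖(Aᵀ ^ j) *ᵥ ξ‖))
    (g : Fin L → (Fin n → ℝ) → ℂ) (hg : ∀ l, ContDiff ℝ ∞ (g l)) (hc : ∀ l, HasCompactSupport (g l))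
    (h0 : ∃ ε > 0, ∀ l ξ, ‖ξ‖ < ε → g l ξ = 0)
    (h1 : ∀ l, ∫ ξ, ‖g l ξ‖ ^ 2 = 1)
    (h2 : ∀ ξ μ, ξ ≠ 0 → ∑ᶠ j : ℤ, ker g ((Aᵀ ^ (-j)) *ᵥ ξ) ((Aᵀ ^ (-j)) *ᵥ μ) =
      if μ = 0 then 1 else 0) :
    ∃ ψ : Fin L → 𝓢(_root_.Wav.E n, ℂ), (∀ l ξ, 𝓕 (ψ l : _root_.Wav.E n → ℂ) ξ = g l ξ.ofLp) ∧
      _root_.Wav.IsONWavelet A (fun l => ψ l) := by
  have hB : (Aᵀ).det ≠ 0 := by rwa [Matrix.det_transpose]
  let G : Fin L → 𝓢(_root_.Wav.E n, ℂ) := fun l =>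
    (up_compact (hc l)).toSchwartzMap (up_contDiff (hg l))
  have hG : ∀ l ξ, G l ξ = up (g l) ξ := fun l ξ => rfl
  let ψ : Fin L → 𝓢(_root_.Wav.E n, ℂ) := fun l => 𝓕⁻ (G l)
  have hF : ∀ l, 𝓕 (ψ l : _root_.Wav.E n → ℂ) = up (g l) := by
    intro l
    rw [← SchwartzMap.fourier_coe]
    simp only [ψ, FourierTransform.fourier_fourierInv_eq]
    rfl
  refine ⟨ψ, fun l ξ => by rw [hF l]; rfl, ?_⟩
  rw [_root_.Wav.transfer hA (fun l => (ψ l).integrable) (fun l => (ψ l).memLp 2 volume)]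
  have hmem : ∀ l j k, MemLp (_root_.Wav.faff A (up (g l)) j k) 2 volume := by
    intro l j k
    have e : _root_.Wav.faff A (up (g l)) j k = up (fdil Aᵀ (g l) j k) :=
      funext fun ξ => faff_up A (g l) j k ξ
    rw [e]
    refine Continuous.memLp_of_hasCompactSupport ?_ (up_compact (fdil_compact _ hB (hc l) j k))
    exact (fdil_cont _ (hg l).continuous j k).comp (EuclideanSpace.equiv (Fin n) ℝ).continuous
  let v : Fin L × ℤ × (Fin n → ℤ) → Lp ℂ 2 (volume : Measure (_root_.Wav.E n)) :=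
    fun i => (hmem i.1 i.2.1 i.2.2).toLp _
  have hv : ∀ i, v i =ᵐ[volume] up (fdil Aᵀ (g i.1) i.2.1 i.2.2) := by
    intro i
    refine (hmem i.1 i.2.1 i.2.2).coeFn_toLp.trans ?_
    exact Filter.Eventually.of_forall fun ξ => faff_up A (g i.1) i.2.1 i.2.2 ξ
  have hvn : ∀ i, ‖v i‖ = 1 := by
    intro i
    have h3 := norm_sq_toLp (hmem i.1 i.2.1 i.2.2) (v i) (hmem i.1 i.2.1 i.2.2).coeFn_toLp
    have h4 : ∫ x, ‖_root_.Wav.faff A (up (g i.1)) i.2.1 i.2.2 x‖ ^ 2 = 1 := by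
      simp_rw [faff_up]
      rw [integral_up (fun x => ‖fdil Aᵀ (g i.1) i.2.1 i.2.2 x‖ ^ 2), norm_fdil _ hB, h1]
    rw [h4] at h3
    have h5 := norm_nonneg (v i)
    nlinarith [sq_nonneg (‖v i‖ - 1)]
  have hpars : ∀ f ∈ DD n, HasSum (fun i => ‖⟪v i, f⟫_ℂ‖ ^ 2) (‖f‖ ^ 2) := by
    rintro f ⟨f0, hm0, hb0, hs0, hf⟩
    have hp := parseval_freq Aᵀ hB hexp g (fun l => (hg l).continuous) hc h0 h2 f0 hm0 hb0 hs0
    have e1 : ∀ i, ⟪v i, f⟫_ℂ = ∫ ξ, conj (fdil Aᵀ (g i.1) i.2.1 i.2.2 ξ) * f0 ξ := by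
      intro i
      rw [L2.inner_def, ← integral_up (fun ξ => conj (fdil Aᵀ (g i.1) i.2.1 i.2.2 ξ) * f0 ξ)]
      refine integral_congr_ae ?_
      filter_upwards [hf, hv i] with a ha hva
      rw [ha, hva, RCLike.inner_apply, mul_comm]
      rfl
    have e2 : ‖f‖ ^ 2 = ∫ ξ, ‖f0 ξ‖ ^ 2 := by
      have hfm : MemLp (up f0) 2 volume := (memLp_congr_ae hf).1 (Lp.memLp f)
      rw [norm_sq_toLp hfm f hf, ← integral_up (fun ξ => ‖f0 ξ‖ ^ 2)]
      rfl
    simp_rw [e1]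
    rw [e2]
    exact hp
  obtain ⟨hon, hcomp⟩ := orthonormal_of_parseval v hvn (DD n) (dense_DD hn) hpars
  have hbot : (Submodule.span ℂ (Set.range v))ᗮ = ⊥ := by
    rw [Submodule.eq_bot_iff]
    intro f hf
    apply hcomp f
    intro i
    exact (Submodule.mem_orthogonal _ _).1 hf _ (Submodule.subset_span ⟨i, rfl⟩)
  refine ⟨HilbertBasis.mkOfOrthogonalEqBot hon hbot, fun l j k => ?_⟩
  rw [HilbertBasis.coe_mkOfOrthogonalEqBot]
  rw [hF l]
  exact (hmem l j k).coeFn_toLp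

end Pool.Agent.Helper54.Wav
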