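import Pool.Agent.Helper54.Wav.Template2
import Pool.Agent.Helper54.Wav.Reduce
import Pool.Agent.Helper51.Wav.W9
import Pool.Agent.Helper96.Wav.ScaleFrame
import Pool.Agent.Helper80.Wav.Diff

/-!
# Existence of band-limited orthonormal wavelets for rational expansive dilations
-/

set_option autoImplicit false

open MeasureTheory Matrix Set
open scoped ComplexConjugate ContDiff ENNReal FourierTransform SchwartzMap InnerProductSpace

namespace Pool.Agent.Helper54.Wav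

variable {n : ℕ}

lemma det_pos_of_norm (N : Seminorm ℝ (Fin n → ℝ)) (hN : ∀ x, N x = 0 → x = 0)
    {κ : ℝ} (B : Matrix (Fin n) (Fin n) ℝ) (h : ∀ x, N x ≤ κ * N (B *ᵥ x)) : B.det ≠ 0 := by
  intro hdet
  obtain ⟨v, hv, hv0⟩ := Matrix.exists_mulVec_eq_zero_iff.2 hdet
  apply hv
  apply hN
  have h1 := h v
  rw [hv0, map_zero, mul_zero] at h1
  exact le_antisymm h1 (apply_nonneg N v)

lemma N_zpow_neg (N : Seminorm ℝ (Fin n → ℝ)) {κ : ℝ} (hκ : 0 < κ)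
    (B : Matrix (Fin n) (Fin n) ℝ) (hB : B.det ≠ 0) (h : ∀ x, N x ≤ κ * N (B *ᵥ x)) (j : ℕ)
    (x : Fin n → ℝ) : N ((B ^ (-(j : ℤ))) *ᵥ x) ≤ κ ^ j * N x := by
  have hu : IsUnit B.det := isUnit_iff_ne_zero.2 hB
  induction j with
  | zero => simp
  | succ j ih =>
    have h1 := h ((B ^ (-((j + 1 : ℕ) : ℤ))) *ᵥ x)
    have h2 : B *ᵥ ((B ^ (-((j + 1 : ℕ) : ℤ))) *ᵥ x) = (B ^ (-(j : ℤ))) *ᵥ x := by
      rw [Matrix.mulVec_mulVec]
      congr 1
      have : (-(j : ℤ)) = 1 + (-((j + 1 : ℕ) : ℤ)) := by push_cast; ring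
      rw [this, Matrix.zpow_add hu, zpow_one]
    rw [h2] at h1
    calc _ ≤ κ * N ((B ^ (-(j : ℤ))) *ᵥ x) := h1
      _ ≤ κ * (κ ^ j * N x) := by gcongr
      _ = _ := by ring

lemma le_N_zpow (N : Seminorm ℝ (Fin n → ℝ)) {κ : ℝ} (hκ : 0 < κ)
    (B : Matrix (Fin n) (Fin n) ℝ) (hB : B.det ≠ 0) (h : ∀ x, N x ≤ κ * N (B *ᵥ x)) (j : ℕ)
    (x : Fin n → ℝ) : N x ≤ κ ^ j * N ((B ^ (j : ℤ)) *ᵥ x) := by
  have hu : IsUnit B.det := isUnit_iff_ne_zero.2 hB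
  have h1 := N_zpow_neg N hκ B hB h j ((B ^ (j : ℤ)) *ᵥ x)
  rwa [Matrix.mulVec_mulVec, ← Matrix.zpow_add hu, neg_add_cancel, zpow_zero, Matrix.one_mulVec]
    at h1

lemma hexp_of_norm (N : Seminorm ℝ (Fin n → ℝ)) (hN : ∀ x, N x = 0 → x = 0)
    {κ : ℝ} (hκ : 0 < κ) (hκ1 : κ < 1) (B : Matrix (Fin n) (Fin n) ℝ)
    (h : ∀ x, N x ≤ κ * N (B *ᵥ x)) :
    ∀ R > 0, ∀ ε > 0, ∃ J : ℕ, ∀ j : ℤ, (J : ℤ) ≤ j → ∀ ξ : Fin n → ℝ,
      (‖ξ‖ ≤ R → ‖(B ^ (-j)) *ᵥ ξ‖ ≤ ε) ∧ (ε ≤ ‖ξ‖ → R ≤ ‖(B ^ j) *ᵥ ξ‖) := by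
  have hB := det_pos_of_norm N hN B h
  obtain ⟨c2, hc2, hN2⟩ := seminorm_le N
  obtain ⟨c1, hc1, hN1⟩ := le_seminorm N hN
  intro R hR ε hε
  obtain ⟨J, hJ⟩ := exists_pow_lt_of_lt_one (show 0 < ε * c1 / (c2 * R) by positivity) hκ1
  refine ⟨J, fun j hj ξ => ?_⟩
  obtain ⟨k, rfl⟩ := Int.eq_ofNat_of_zero_le (le_trans (Int.natCast_nonneg J) hj)
  have hk : J ≤ k := by exact_mod_cast hj
  have hκk : κ ^ k * (c2 * R) ≤ ε * c1 := by
    have h1 : κ ^ k ≤ κ ^ J := pow_le_pow_of_le_one hκ.le hκ1.le hk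
    rw [lt_div_iff₀ (by positivity)] at hJ
    have h2 : κ ^ k * (c2 * R) ≤ κ ^ J * (c2 * R) := by gcongr
    linarith
  constructor
  · intro hξ
    have h1 := N_zpow_neg N hκ B hB h k ξ
    have h2 := hN1 ((B ^ (-(k : ℤ))) *ᵥ ξ)
    have h3 := hN2 ξ
    have h4 : κ ^ k * N ξ ≤ κ ^ k * (c2 * R) := by
      gcongr
      exact h3.trans (by gcongr)
    have h5 : c1 * ‖(B ^ (-(k : ℤ))) *ᵥ ξ‖ ≤ c1 * ε := by linarith
    exact le_of_mul_le_mul_left h5 hc1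
  · intro hξ
    have h1 := le_N_zpow N hκ B hB h k ξ
    have h2 := hN2 ((B ^ (k : ℤ)) *ᵥ ξ)
    have h3 := hN1 ξ
    have hpk : 0 < κ ^ k := by positivity
    have h4 : κ ^ k * (c2 * R) ≤ κ ^ k * (c2 * ‖(B ^ (k : ℤ)) *ᵥ ξ‖) := by
      calc κ ^ k * (c2 * R) ≤ ε * c1 := hκk
        _ ≤ ‖ξ‖ * c1 := by gcongr
        _ ≤ N ξ := by linarith
        _ ≤ κ ^ k * N ((B ^ (k : ℤ)) *ᵥ ξ) := h1
        _ ≤ _ := by gcongr
    have h5 := le_of_mul_le_mul_left h4 hpk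
    exact le_of_mul_le_mul_left h5 hc2

/-- finite telescoping -/
lemma finsum_telescope (a : ℤ → ℂ) (x y : ℂ) (J : ℕ) (h1 : ∀ j : ℤ, (J : ℤ) ≤ j → a j = x)
    (h2 : ∀ j : ℤ, j ≤ -(J : ℤ) → a j = y) : ∑ᶠ j : ℤ, (a (j + 1) - a j) = x - y := by
  rw [finsum_eq_sum_of_support_subset (s := Finset.Ico (-(J : ℤ)) J)]
  · have key : ∀ k : ℕ, ∑ j ∈ Finset.Ico (-(J : ℤ)) (-(J : ℤ) + k), (a (j + 1) - a j) =
        a (-(J : ℤ) + k) - a (-(J : ℤ)) := by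
      intro k
      induction k with
      | zero => simp
      | succ k ih =>
        have h3 : Finset.Ico (-(J : ℤ)) (-(J : ℤ) + ((k + 1 : ℕ) : ℤ)) =
            insert (-(J : ℤ) + k) (Finset.Ico (-(J : ℤ)) (-(J : ℤ) + k)) := by
          ext i
          simp only [Finset.mem_Ico, Finset.mem_insert]
          push_cast
          omega
        rw [h3, Finset.sum_insert (by simp), ih]
        push_cast
        rw [← add_assoc]
        ring
    have h4 := key (2 * J)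
    have h5 : (-(J : ℤ) + ((2 * J : ℕ) : ℤ)) = J := by push_cast; ring
    rw [h5] at h4
    rw [h4, h1 _ le_rfl, h2 _ le_rfl]
  · intro j hj
    by_contra hcon
    apply hj
    simp only [Finset.coe_Ico, Set.mem_Ico, not_and_or, not_le, not_lt] at hcon
    rcases hcon with h | h
    · change a (j + 1) - a j = 0
      rw [h2 _ (by omega), h2 _ (by omega), sub_self]
    · change a (j + 1) - a j = 0
      rw [h1 _ (by omega), h1 _ (by omega), sub_self]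

lemma volume_cube : volume (_root_.Wav.cube (Fin n)) = 1 := by
  have h : _root_.Wav.cube (Fin n) = Set.pi univ (fun _ => Ioc (0 : ℝ) (0 + 1)) := by
    ext x; simp [_root_.Wav.cube]
  rw [h, MeasureTheory.volume_pi_pi]
  simp

/-- the norm of a generator from the Gram identity -/
lemma norm_one_of_gram {g : (Fin n → ℝ) → ℂ} (hg : Continuous g) (hc : HasCompactSupport g)
    (h : ∀ ξ, ∑ᶠ m : Fin n → ℤ, g (ξ + zv m) * conj (g (ξ + zv m)) = 1) :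
    ∫ ξ, ‖g ξ‖ ^ 2 = 1 := by
  have hcs : HasCompactSupport (fun ξ => g ξ * conj (g ξ)) := hc.mul_right
  have hint : Integrable (fun ξ => g ξ * conj (g ξ)) :=
    (hg.mul (Complex.continuous_conj.comp hg)).integrable_of_hasCompactSupport hcs
  have hper := _root_.Wav.integral_per_mul hint (e := fun _ => (1 : ℂ)) continuous_const
    (by simp) (by simp)
  have h1 : ∀ ξ : Fin n → ℝ, _root_.Wav.per (fun ξ => g ξ * conj (g ξ)) ξ = 1 := by
    intro ξ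
    rw [← h ξ]
    exact tsum_eq_finsum (Pool.Agent.Helper96.Wav.fin_supp hcs ξ)
  simp only [one_mul, h1] at hper
  rw [setIntegral_const, measureReal_def, volume_cube] at hper
  have h2 : ∀ ξ, g ξ * conj (g ξ) = ((‖g ξ‖ ^ 2 : ℝ) : ℂ) := by
    intro ξ
    rw [Complex.mul_conj, Complex.normSq_eq_norm_sq]
  simp_rw [h2] at hper
  rw [integral_complex_ofReal] at hper
  simp only [ENNReal.toReal_one, one_smul] at hper
  exact_mod_cast hper.symm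

/-- a rational matrix has an integer multiple -/
lemma exists_int_mul (A : Matrix (Fin n) (Fin n) ℚ) : ∃ (q : ℕ) (D : Matrix (Fin n) (Fin n) ℤ),
    0 < q ∧ D.map (fun z : ℤ => (z : ℝ)) = (q : ℝ) • (A.map (algebraMap ℚ ℝ))ᵀ := by
  classical
  obtain ⟨b, hb⟩ := IsLocalization.exist_integer_multiples_of_finset (nonZeroDivisors ℤ)
    (Finset.univ.image fun p : Fin n × Fin n => A p.1 p.2)
  have hb0 : (b : ℤ) ≠ 0 := nonZeroDivisors.coe_ne_zero b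
  have h1 : ∀ i j, ∃ z : ℤ, (z : ℚ) = (b : ℤ) * A i j := by
    intro i j
    obtain ⟨z, hz⟩ := hb (A i j) (Finset.mem_image.2 ⟨(i, j), Finset.mem_univ _, rfl⟩)
    refine ⟨z, ?_⟩
    simpa using hz
  choose z hz using h1
  refine ⟨(b : ℤ).natAbs, Matrix.of fun i j => (b : ℤ).sign * z j i, Int.natAbs_pos.2 hb0, ?_⟩
  ext i j
  have h2 := hz j i
  have h3 : ((b : ℤ).natAbs : ℝ) = ((b : ℤ).sign : ℝ) * ((b : ℤ) : ℝ) := by
    have h5 := Int.sign_mul_self_eq_natAbs (b : ℤ)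
    have h6 : (((b : ℤ).natAbs : ℤ) : ℝ) = (((b : ℤ).sign * (b : ℤ) : ℤ) : ℝ) := by rw [h5]
    push_cast at h6
    simpa using h6
  simp only [Matrix.map_apply, Matrix.of_apply, Matrix.smul_apply, Matrix.transpose_apply,
    smul_eq_mul]
  rw [h3]
  push_cast
  have h4 : ((z j i : ℤ) : ℝ) = ((b : ℤ) : ℝ) * ((A j i : ℚ) : ℝ) := by exact_mod_cast congrArg (fun x : ℚ => (x : ℝ)) h2
  rw [h4]
  simp only [eq_ratCast]
  ring

end Pool.Agent.Helper54.Wav
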