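import Pool.Agent.Helper54.Wav.Final

/-!
# Existence of band-limited orthonormal wavelets for rational expansive dilations, II
-/

set_option autoImplicit false

open MeasureTheory Matrix Set
open scoped ComplexConjugate ContDiff ENNReal FourierTransform SchwartzMap InnerProductSpace

namespace Pool.Agent.Helper54.Wav

variable {n : ℕ}

lemma ker_near {r : ℕ} {φ : Fin r → (Fin n → ℝ) → ℂ} {N : Seminorm ℝ (Fin n → ℝ)} {c : ℝ}
    (hcomp : ∀ ξ m, N ξ ≤ c → ∑ s, φ s ξ * conj (φ s (ξ + zv m)) = if m = 0 then 1 else 0)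
    {ξ : Fin n → ℝ} (hξ : N ξ ≤ c) (μ : Fin n → ℝ) : ker φ ξ μ = if μ = 0 then 1 else 0 := by
  unfold ker
  split_ifs with h1 h2 h2
  · obtain ⟨m, hm⟩ := h1
    subst h2
    have hm0 : m = 0 := by
      apply zv_inj
      rw [← hm, zv_zero]
    have h3 := hcomp ξ m hξ
    rw [← hm, if_pos hm0] at h3
    exact h3
  · obtain ⟨m, hm⟩ := h1
    have hm0 : m ≠ 0 := by
      rintro rfl
      exact h2 (by rw [hm, zv_zero])
    have h3 := hcomp ξ m hξ
    rw [← hm, if_neg hm0] at h3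
    exact h3
  · exact absurd ⟨0, by rw [h2, zv_zero]⟩ h1
  · rfl

lemma ker_far {r : ℕ} {φ : Fin r → (Fin n → ℝ) → ℂ} {ξ : Fin n → ℝ} (h : ∀ s, φ s ξ = 0)
    (μ : Fin n → ℝ) : ker φ ξ μ = 0 := by
  unfold ker
  split_ifs
  · exact Finset.sum_eq_zero fun s _ => by rw [h s, zero_mul]
  · rfl

lemma ker_symm {r : ℕ} (φ : Fin r → (Fin n → ℝ) → ℂ) (ξ : Fin n → ℝ) (m : Fin n → ℤ) :
    ∑ s, φ s ξ * conj (φ s (ξ + zv m)) =
      conj (∑ s, φ s (ξ + zv m) * conj (φ s (ξ + zv m + zv (-m)))) := by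
  have e : ξ + zv m + zv (-m) = ξ := by rw [zv_neg]; abel
  rw [e, map_sum]
  refine Finset.sum_congr rfl fun s _ => ?_
  rw [map_mul, Complex.conj_conj, mul_comm]

theorem existence_freq (hn : 0 < n) (N : Seminorm ℝ (Fin n → ℝ)) (hN : ∀ x, N x = 0 → x = 0)
    (κ : ℝ) (hκ : 0 < κ) (hκ1 : κ < 1) (B : Matrix (Fin n) (Fin n) ℝ)
    (hB : ∀ x, N x ≤ κ * N (B *ᵥ x)) (hdet : 1 < |B.det|) (q : ℕ) (hq : 0 < q)
    (D : Matrix (Fin n) (Fin n) ℤ) (hD : D.map (fun z : ℤ => (z : ℝ)) = (q : ℝ) • B) :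
    ∃ (L : ℕ) (g : Fin L → (Fin n → ℝ) → ℂ), 0 < L ∧ (∀ l, ContDiff ℝ ∞ (g l)) ∧
      (∀ l, HasCompactSupport (g l)) ∧ (∃ ε > 0, ∀ l ξ, ‖ξ‖ < ε → g l ξ = 0) ∧
      (∀ l, ∫ ξ, ‖g l ξ‖ ^ 2 = 1) ∧
      (∀ ξ μ, ξ ≠ 0 → ∑ᶠ j : ℤ, ker g ((B ^ (-j)) *ᵥ ξ) ((B ^ (-j)) *ᵥ μ) =
        if μ = 0 then 1 else 0) := by
  classical
  have hBdet : B.det ≠ 0 := det_pos_of_norm N hN B hB
  have hBu : IsUnit B.det := isUnit_iff_ne_zero.2 hBdet
  have hq' : (q : ℝ) ≠ 0 := by positivity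
  have hexp := hexp_of_norm N hN hκ hκ1 B hB
  obtain ⟨c2, hc2, hN2⟩ := seminorm_le N
  obtain ⟨c1, hc1, hN1⟩ := le_seminorm N hN
  -- the template
  obtain ⟨d, r, φ, hd, hr, hφs, hφd, hφon, hφcomp⟩ := template hn N hN κ hκ hκ1 n
  have hφc : ∀ s, HasCompactSupport (φ s) := by
    intro s
    refine HasCompactSupport.intro (isCompact_closedBall (0 : Fin n → ℝ) (d / c1)) fun x hx => ?_
    apply hφd
    rw [mem_closedBall_zero_iff, not_le, div_lt_iff₀ hc1] at hx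
    have := hN1 x
    linarith
  -- the two scaled frames
  have hD0 : ((q : ℤ) • (1 : Matrix (Fin n) (Fin n) ℤ)).map (fun z : ℤ => (z : ℝ)) =
      (q : ℝ) • (1 : Matrix (Fin n) (Fin n) ℝ) := by
    ext i j
    rw [Matrix.map_apply, Matrix.smul_apply, Matrix.smul_apply, Matrix.one_apply,
      Matrix.one_apply, smul_eq_mul, smul_eq_mul]
    split_ifs <;> simp
  have hD0det : ((q : ℤ) • (1 : Matrix (Fin n) (Fin n) ℤ)).det = (q : ℤ) ^ n := by
    rw [Matrix.det_smul, Matrix.det_one, Fintype.card_fin, mul_one]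
  have hDdetR : ((D.det : ℤ) : ℝ) = (q : ℝ) ^ n * B.det := by
    have h1 := (Int.castRingHom ℝ).map_det D
    rw [RingHom.mapMatrix_apply] at h1
    have h2 : D.map (Int.castRingHom ℝ) = (q : ℝ) • B := hD
    rw [h2, Matrix.det_smul, Fintype.card_fin] at h1
    simpa using h1
  have hDdet : D.det ≠ 0 := by
    intro h
    rw [h] at hDdetR
    have : (q : ℝ) ^ n * B.det ≠ 0 := mul_ne_zero (pow_ne_zero _ hq') hBdet
    exact this (by simpa using hDdetR.symm)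
  have hD0det' : ((q : ℤ) • (1 : Matrix (Fin n) (Fin n) ℤ)).det ≠ 0 := by
    rw [hD0det]; positivity
  -- inverse matrices
  have hinv0 : ∀ x : Fin n → ℝ, (((q : ℤ) • (1 : Matrix (Fin n) (Fin n) ℤ)).map
      (fun z : ℤ => (z : ℝ)))⁻¹ *ᵥ x = (q : ℝ)⁻¹ • x := by
    intro x
    rw [hD0]
    have h1 : ((q : ℝ) • (1 : Matrix (Fin n) (Fin n) ℝ))⁻¹ = (q : ℝ)⁻¹ • 1 := by
      apply Matrix.inv_eq_right_inv
      rw [Matrix.smul_mul, Matrix.one_mul, smul_smul, mul_inv_cancel₀ hq', one_smul]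
    rw [h1, Matrix.smul_mulVec, Matrix.one_mulVec]
  have hinv1 : ∀ x : Fin n → ℝ, (D.map (fun z : ℤ => (z : ℝ)))⁻¹ *ᵥ x =
      (q : ℝ)⁻¹ • (B⁻¹ *ᵥ x) := by
    intro x
    rw [hD]
    have h1 : ((q : ℝ) • B)⁻¹ = (q : ℝ)⁻¹ • B⁻¹ := by
      apply Matrix.inv_eq_right_inv
      rw [Matrix.smul_mul, Matrix.mul_smul, smul_smul, Matrix.mul_nonsing_inv B hBu,
        mul_inv_cancel₀ hq', one_smul]
    rw [h1, Matrix.smul_mulVec]
  have hNinv : ∀ x : Fin n → ℝ, N (B⁻¹ *ᵥ x) ≤ κ * N x := by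
    intro x
    have h1 := hB (B⁻¹ *ᵥ x)
    rwa [Matrix.mulVec_mulVec, Matrix.mul_nonsing_inv B hBu, Matrix.one_mulVec] at h1
  obtain ⟨G0, hG0s, hG0c, hG0z, hG0on, hG0k⟩ :=
    Pool.Agent.Helper96.Wav.scale_frame φ hφs hφc hφon _ hD0det'
  have hS1 := Pool.Agent.Helper96.Wav.scale_frame φ hφs hφc hφon D hDdet
  -- the counts
  obtain ⟨L, hL, hLn⟩ : ∃ L, D.det.natAbs * r =
      ((q : ℤ) • (1 : Matrix (Fin n) (Fin n) ℤ)).det.natAbs * r + L ∧ n ≤ L := by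
    have h1 : ((q : ℤ) • (1 : Matrix (Fin n) (Fin n) ℤ)).det.natAbs = q ^ n := by
      rw [hD0det, Int.natAbs_pow, Int.natAbs_natCast]
    have h2 : q ^ n + 1 ≤ D.det.natAbs := by
      have h3 : ((q : ℝ) ^ n) < ((D.det.natAbs : ℕ) : ℝ) := by
        have h4 : ((D.det.natAbs : ℕ) : ℝ) = |((D.det : ℤ) : ℝ)| := by
          rw [← Int.cast_abs, Int.abs_eq_natAbs, Int.cast_natCast]
        rw [h4, hDdetR, abs_mul, abs_of_pos (by positivity)]
        have : 0 < (q : ℝ) ^ n := by positivity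
        nlinarith
      exact_mod_cast h3
    refine ⟨(D.det.natAbs - q ^ n) * r, ?_, ?_⟩
    · rw [h1, ← add_mul, Nat.add_sub_cancel' (by omega)]
    · have h5 : 1 ≤ D.det.natAbs - q ^ n := by omega
      calc n ≤ r := hr
        _ = 1 * r := (one_mul r).symm
        _ ≤ _ := Nat.mul_le_mul_right r h5
  rw [hL] at hS1
  obtain ⟨G1, hG1s, hG1c, hG1z, hG1on, hG1k⟩ := hS1
  -- the inclusion
  have hK1 : ∀ ξ m, N ((q : ℝ)⁻¹ • ξ) ≤ d →
      ∑ b, G1 b ξ * conj (G1 b (ξ + zv m)) = if m = 0 then 1 else 0 := by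
    intro ξ m hξ
    rw [hG1k, hinv1, hinv1, ker_near hφcomp]
    · have h1 : ((q : ℝ)⁻¹ • B⁻¹ *ᵥ zv m = 0) ↔ m = 0 := by
        constructor
        · intro h
          rw [smul_eq_zero] at h
          rcases h with h | h
          · exact absurd h (inv_ne_zero hq')
          · have h2 : B *ᵥ (B⁻¹ *ᵥ zv m) = 0 := by rw [h, Matrix.mulVec_zero]
            rw [Matrix.mulVec_mulVec, Matrix.mul_nonsing_inv B hBu, Matrix.one_mulVec] at h2
            exact zv_inj (by rw [h2, zv_zero])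
        · rintro rfl
          rw [zv_zero, Matrix.mulVec_zero, smul_zero]
      simp only [h1]
    · rw [← Matrix.mulVec_smul]
      exact (hNinv _).trans (by gcongr)
  have hsub : ∀ s ξ, G0 s ξ = ∑ᶠ m : Fin n → ℤ, ∑ b, G1 b ξ * conj (G1 b (ξ + zv m)) *
      G0 s (ξ + zv m) := by
    intro s ξ
    have h1 : ∀ m : Fin n → ℤ, ∑ b, G1 b ξ * conj (G1 b (ξ + zv m)) * G0 s (ξ + zv m) =
        if m = 0 then G0 s ξ else 0 := by
      intro m
      rw [← Finset.sum_mul]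
      by_cases hz : G0 s (ξ + zv m) = 0
      · rw [hz, mul_zero]
        split_ifs with hm
        · rw [hm, zv_zero, add_zero] at hz
          exact hz.symm
        · rfl
      · have h2 : N ((q : ℝ)⁻¹ • (ξ + zv m)) ≤ d := by
          by_contra hcon
          push Not at hcon
          apply hz
          apply hG0z
          intro t
          rw [hinv0]
          exact hφd t _ hcon.le
        rw [ker_symm, hK1 _ _ h2]
        by_cases hm : m = 0
        · subst hm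
          simp [zv_zero]
        · rw [if_neg (by simpa using hm), if_neg hm, map_zero, zero_mul]
    simp_rw [h1]
    rw [finsum_eq_single _ (0 : Fin n → ℤ) (fun m hm => if_neg hm), if_pos rfl]
  obtain ⟨g, hgs, hgc, hgon, hgk⟩ := Pool.Agent.Helper80.Wav.difference_frame (by omega) G0 G1
    hG0s hG1s hG0c hG1c hG0on hG1on hsub
  -- the kernel of g
  have hker : ∀ ξ μ, ker g ξ μ = ker φ ((q : ℝ)⁻¹ • (B⁻¹ *ᵥ ξ)) ((q : ℝ)⁻¹ • (B⁻¹ *ᵥ μ)) -
      ker φ ((q : ℝ)⁻¹ • ξ) ((q : ℝ)⁻¹ • μ) := by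
    intro ξ μ
    by_cases h : ∃ m : Fin n → ℤ, μ = zv m
    · obtain ⟨m, rfl⟩ := h
      have h1 : ker g ξ (zv m) = ∑ s, g s ξ * conj (g s (ξ + zv m)) := by
        unfold ker
        rw [if_pos ⟨m, rfl⟩]
      rw [h1, hgk, hG1k, hG0k, hinv1, hinv1, hinv0, hinv0]
    · have h1 : ker g ξ μ = 0 := by
        unfold ker
        rw [if_neg h]
      have h2 : ker φ ((q : ℝ)⁻¹ • (B⁻¹ *ᵥ ξ)) ((q : ℝ)⁻¹ • (B⁻¹ *ᵥ μ)) = 0 := by
        unfold ker
        rw [if_neg]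
        rintro ⟨m, hm⟩
        apply h
        refine ⟨D *ᵥ m, ?_⟩
        rw [← Pool.Agent.Helper96.Wav.map_mulVec_zv, ← hm, hD, Matrix.smul_mulVec,
          Matrix.mulVec_smul, smul_smul, mul_inv_cancel₀ hq', one_smul, Matrix.mulVec_mulVec,
          Matrix.mul_nonsing_inv B hBu, Matrix.one_mulVec]
      have h3 : ker φ ((q : ℝ)⁻¹ • ξ) ((q : ℝ)⁻¹ • μ) = 0 := by
        unfold ker
        rw [if_neg]
        rintro ⟨m, hm⟩
        apply h
        refine ⟨(q : ℤ) • m, ?_⟩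
        have h4 : μ = (q : ℝ) • ((q : ℝ)⁻¹ • μ) := by
          rw [smul_smul, mul_inv_cancel₀ hq', one_smul]
        rw [h4, hm]
        funext i
        simp [zv]
      rw [h1, h2, h3, sub_zero]
  refine ⟨L, g, by omega, hgs, hgc, ?_, ?_, ?_⟩
  · -- vanishing near zero
    refine ⟨(q : ℝ) * (κ * d) / c2, by positivity, fun l ξ hξ => ?_⟩
    have h1 : N ((q : ℝ)⁻¹ • ξ) ≤ κ * d := by
      rw [map_smul_eq_mul, norm_inv, Real.norm_natCast]
      rw [lt_div_iff₀ hc2] at hξ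
      have h2 := hN2 ξ
      rw [inv_mul_le_iff₀ (by positivity)]
      linarith
    have h2 : N ((q : ℝ)⁻¹ • (B⁻¹ *ᵥ ξ)) ≤ κ * d := by
      rw [← Matrix.mulVec_smul]
      refine (hNinv _).trans ?_
      have h3 : 0 ≤ N ((q : ℝ)⁻¹ • ξ) := apply_nonneg N _
      nlinarith
    have h3 := hker ξ 0
    rw [ker_near hφcomp h1, ker_near hφcomp h2, Matrix.mulVec_zero, smul_zero, if_pos rfl,
      sub_self] at h3
    have h4 : ker g ξ 0 = ∑ s, ((‖g s ξ‖ ^ 2 : ℝ) : ℂ) := by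
      unfold ker
      rw [if_pos ⟨0, zv_zero.symm⟩]
      refine Finset.sum_congr rfl fun s _ => ?_
      rw [add_zero, Complex.mul_conj, Complex.normSq_eq_norm_sq]
    rw [h4, ← Complex.ofReal_sum, Complex.ofReal_eq_zero,
      Finset.sum_eq_zero_iff_of_nonneg (fun s _ => by positivity)] at h3
    have h5 := h3 l (Finset.mem_univ l)
    simpa using h5
  · intro l
    refine norm_one_of_gram (hgs l).continuous (hgc l) fun ξ => ?_
    rw [hgon, if_pos rfl]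
  · intro ξ μ hξ
    -- telescoping
    set a : ℤ → ℂ := fun j =>
      ker φ ((q : ℝ)⁻¹ • ((B ^ (-j)) *ᵥ ξ)) ((q : ℝ)⁻¹ • ((B ^ (-j)) *ᵥ μ)) with ha
    have h1 : ∀ j : ℤ, ker g ((B ^ (-j)) *ᵥ ξ) ((B ^ (-j)) *ᵥ μ) = a (j + 1) - a j := by
      intro j
      rw [hker, ha]
      simp only
      have h2 : ∀ x : Fin n → ℝ, B⁻¹ *ᵥ ((B ^ (-j)) *ᵥ x) = (B ^ (-(j + 1))) *ᵥ x := by
        intro x
        rw [Matrix.mulVec_mulVec]
        congr 1
        rw [neg_add, add_comm, Matrix.zpow_add hBu, Matrix.zpow_neg_one]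
      rw [h2, h2]
    simp_rw [h1]
    obtain ⟨J1, hJ1⟩ := hexp (‖ξ‖ + 1) (by positivity) ((q : ℝ) * (κ * d) / c2) (by positivity)
    obtain ⟨J2, hJ2⟩ := hexp ((q : ℝ) * d / c1) (by positivity) ‖ξ‖ (norm_pos_iff.2 hξ)
    rw [finsum_telescope a (if μ = 0 then 1 else 0) 0 (max J1 J2), sub_zero]
    · intro j hj
      have h3 := (hJ1 j (le_trans (by exact_mod_cast le_max_left _ _) hj) ξ).1 (by linarith)
      have h4 : N ((q : ℝ)⁻¹ • ((B ^ (-j)) *ᵥ ξ)) ≤ κ * d := by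
        rw [map_smul_eq_mul, norm_inv, Real.norm_natCast]
        rw [le_div_iff₀ hc2] at h3
        have h2 := hN2 ((B ^ (-j)) *ᵥ ξ)
        rw [inv_mul_le_iff₀ (by positivity)]
        linarith
      simp only [ha]
      rw [ker_near hφcomp h4]
      have h5 : ((q : ℝ)⁻¹ • ((B ^ (-j)) *ᵥ μ) = 0) ↔ μ = 0 := by
        constructor
        · intro h
          rw [smul_eq_zero] at h
          rcases h with h | h
          · exact absurd h (inv_ne_zero hq')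
          · have h6 : (B ^ j) *ᵥ ((B ^ (-j)) *ᵥ μ) = 0 := by rw [h, Matrix.mulVec_zero]
            rwa [zpow_mulVec_neg' B hBdet] at h6
        · rintro rfl
          rw [Matrix.mulVec_zero, smul_zero]
      simp only [h5]
    · intro j hj
      obtain ⟨k, rfl⟩ : ∃ k : ℤ, j = -k := ⟨-j, by ring⟩
      have hk : ((max J1 J2 : ℕ) : ℤ) ≤ k := by linarith
      have h3 := (hJ2 k (le_trans (by exact_mod_cast le_max_right _ _) hk) ξ).2 le_rfl
      simp only [ha, neg_neg]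
      apply ker_far
      intro s
      apply hφd
      rw [map_smul_eq_mul, norm_inv, Real.norm_natCast]
      rw [div_le_iff₀ hc1] at h3
      have h2 := hN1 ((B ^ k) *ᵥ ξ)
      rw [le_inv_mul_iff₀ (by positivity)]
      linarith

theorem existence_rational (hn : 0 < n) (A : Matrix (Fin n) (Fin n) ℚ)
    (hA : _root_.Wav.Expansive (A.map (algebraMap ℚ ℝ))) :
    ∃ (L : ℕ) (ψ : Fin L → 𝓢(_root_.Wav.E n, ℂ)), 0 < L ∧
      (∀ l, HasCompactSupport (𝓕 (ψ l : _root_.Wav.E n → ℂ))) ∧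
      _root_.Wav.IsONWavelet (A.map (algebraMap ℚ ℝ)) (fun l => ψ l) := by
  have hA' : Expansive (A.map (algebraMap ℚ ℝ)) := fun z hz =>
    hA z (Matrix.mem_spectrum_iff_isRoot_charpoly.2 hz)
  obtain ⟨N, κ, hN, hκ, hκ1, hB⟩ := adapted_norm _ hA'
  have hdet := det_of_expansive hn _ hA'
  obtain ⟨q, D, hq, hD⟩ := exists_int_mul A
  have hdet' : 1 < |((A.map (algebraMap ℚ ℝ))ᵀ).det| := by rwa [Matrix.det_transpose]
  obtain ⟨L, g, hL, hgs, hgc, h0, h1, h2⟩ :=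
    existence_freq hn N hN κ hκ hκ1 _ hB hdet' q hq D hD
  have hdet0 : (A.map (algebraMap ℚ ℝ)).det ≠ 0 := by
    intro h
    rw [h, abs_zero] at hdet
    linarith
  obtain ⟨ψ, hψ1, hψ2⟩ := main_reduction' hn (A.map (algebraMap ℚ ℝ)) hdet0
    (hexp_of_norm N hN hκ hκ1 _ hB) g hgs hgc h0 h1 h2
  refine ⟨L, ψ, hL, fun l => ?_, hψ2⟩
  have h3 : 𝓕 (ψ l : _root_.Wav.E n → ℂ) = up (g l) := funext (hψ1 l)
  rw [h3]
  exact up_compact (hgc l)

end Pool.Agent.Helper54.Wav
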