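import Pool.Agent.Helper59.Wav.Defs

/-!
# Elementary form of the wavelet property
-/

set_option autoImplicit false

open MeasureTheory
open scoped ComplexConjugate FourierTransform SchwartzMap InnerProductSpace

noncomputable section

namespace Pool.Agent.Helper54.WavS

variable {n : ℕ}

/-- `f` is square integrable on `ℝⁿ`. -/
def SqInt (f : Wav.E n → ℂ) : Prop := MemLp f 2 volume

/-- `f` vanishes almost everywhere. -/
def AEZero (f : Wav.E n → ℂ) : Prop := f =ᵐ[volume] 0

/-- The inner product `∫ conj (f x) * g x dx`. -/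
def ip (f g : Wav.E n → ℂ) : ℂ := ∫ x, conj (f x) * g x

/-- The family `f` is an orthonormal basis of `L²(ℝⁿ)`: its members are square integrable and
orthonormal, and only the zero function is orthogonal to all of them. -/
structure IsONBasis {ι : Type} (f : ι → Wav.E n → ℂ) : Prop where
  sqInt : ∀ i, SqInt (f i)
  norm_one : ∀ i, ip (f i) (f i) = 1
  orthogonal : ∀ i i', i ≠ i' → ip (f i) (f i') = 0
  complete : ∀ g, SqInt g → (∀ i, ip (f i) g = 0) → AEZero g

/-- `ψ` is an orthonormal wavelet for `(A, ℤⁿ)`: the functions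
`|det A|^(j/2) ψ l (A^j x - k)` (`l < L`, `j ∈ ℤ`, `k ∈ ℤⁿ`) form an orthonormal basis of `L²(ℝⁿ)`. -/
def IsONWavelet {L : ℕ} (A : Matrix (Fin n) (Fin n) ℝ) (ψ : Fin L → Wav.E n → ℂ) : Prop :=
  IsONBasis fun i : Fin L × ℤ × (Fin n → ℤ) => Wav.affine A (ψ i.1) i.2.1 i.2.2

/-- `ψ` is a Schwartz function. -/
def IsSchwartz (ψ : Wav.E n → ℂ) : Prop := ∃ φ : 𝓢(Wav.E n, ℂ), ∀ x, ψ x = φ x

/-- The Fourier transform of `ψ` has compact support. -/
def BandLimited (ψ : Wav.E n → ℂ) : Prop := HasCompactSupport (𝓕 ψ)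

lemma inner_toLp {f g : Wav.E n → ℂ} (hf : MemLp f 2 volume) (hg : MemLp g 2 volume) :
    ⟪hf.toLp f, hg.toLp g⟫_ℂ = ip f g := by
  rw [L2.inner_def]
  refine integral_congr_ae ?_
  filter_upwards [hf.coeFn_toLp, hg.coeFn_toLp] with x h1 h2
  rw [h1, h2, RCLike.inner_apply, mul_comm]

theorem isONBasis_iff {ι : Type} (f : ι → Wav.E n → ℂ) :
    IsONBasis f ↔ ∃ b : HilbertBasis ι ℂ (Lp ℂ 2 (volume : Measure (Wav.E n))),
      ∀ i, (b i : Wav.E n → ℂ) =ᵐ[volume] f i := by
  classical
  constructor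
  · intro h
    have hm : ∀ i, MemLp (f i) 2 volume := fun i => h.sqInt i
    set v : ι → Lp ℂ 2 (volume : Measure (Wav.E n)) := fun i => (hm i).toLp (f i) with hv
    have hon : Orthonormal ℂ v := by
      rw [orthonormal_iff_ite]
      intro i j
      rw [hv]
      simp only
      rw [inner_toLp]
      split_ifs with hij
      · subst hij
        exact h.norm_one i
      · exact h.orthogonal i j hij
    have hbot : (Submodule.span ℂ (Set.range v))ᗮ = ⊥ := by
      rw [Submodule.eq_bot_iff]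
      intro g hg
      rw [Submodule.mem_orthogonal] at hg
      have h1 : AEZero (g : Wav.E n → ℂ) := by
        apply h.complete _ (Lp.memLp g)
        intro i
        have h2 := hg (v i) (Submodule.subset_span ⟨i, rfl⟩)
        have h3 := inner_toLp (hm i) (Lp.memLp g)
        rw [Lp.toLp_coeFn] at h3
        rw [← h3]
        exact h2
      exact (Lp.eq_zero_iff_ae_eq_zero).2 h1
    refine ⟨HilbertBasis.mkOfOrthogonalEqBot hon hbot, fun i => ?_⟩
    rw [HilbertBasis.coe_mkOfOrthogonalEqBot]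
    exact MemLp.coeFn_toLp _
  · rintro ⟨b, hb⟩
    have hm : ∀ i, MemLp (f i) 2 volume := fun i => (memLp_congr_ae (hb i)).1 (Lp.memLp (b i))
    have hbe : ∀ i, b i = (hm i).toLp (f i) := by
      intro i
      apply Lp.ext
      exact (hb i).trans (hm i).coeFn_toLp.symm
    have hon := orthonormal_iff_ite.1 b.orthonormal
    refine ⟨hm, fun i => ?_, fun i j hij => ?_, fun g hg hi => ?_⟩
    · rw [← inner_toLp (hm i) (hm i), ← hbe, hon, if_pos rfl]
    · rw [← inner_toLp (hm i) (hm j), ← hbe, ← hbe, hon, if_neg hij]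
    · have hg' : MemLp g 2 volume := hg
      have h1 : hg'.toLp g = 0 := by
        have h2 := b.hasSum_repr (hg'.toLp g)
        have h3 : ∀ i, b.repr (hg'.toLp g) i = 0 := by
          intro i
          rw [b.repr_apply_apply, hbe i, inner_toLp]
          exact hi i
        simp_rw [h3, zero_smul] at h2
        exact h2.unique hasSum_zero
      have h2 : g =ᵐ[volume] (hg'.toLp g : Wav.E n → ℂ) := hg'.coeFn_toLp.symm
      refine h2.trans ?_
      rw [h1]
      exact Lp.coeFn_zero _ _ _

theorem isONWavelet_iff {L : ℕ} (A : Matrix (Fin n) (Fin n) ℝ) (ψ : Fin L → Wav.E n → ℂ) :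
    IsONWavelet A ψ ↔ Wav.IsONWavelet A ψ := by
  unfold IsONWavelet Wav.IsONWavelet
  rw [isONBasis_iff]
  constructor
  · rintro ⟨b, hb⟩
    exact ⟨b, fun l j k => hb (l, j, k)⟩
  · rintro ⟨b, hb⟩
    exact ⟨b, fun i => hb i.1 i.2.1 i.2.2⟩

end Pool.Agent.Helper54.WavS
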