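import Pool.Agent.Helper54.Wav.Geo
import Pool.Agent.Helper54.Wav.Stmt

/-!
# Existence of band-limited orthonormal wavelets for dilations with a rational power
-/

set_option autoImplicit false

open MeasureTheory Matrix Set
open scoped ComplexConjugate ContDiff ENNReal FourierTransform SchwartzMap InnerProductSpace

namespace Pool.Agent.Helper54.Wav

variable {n : ℕ}

lemma map_inv_rat (M : Matrix (Fin n) (Fin n) ℚ) (h : M.det ≠ 0) :
    (M.map (algebraMap ℚ ℝ))⁻¹ = M⁻¹.map (algebraMap ℚ ℝ) := by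
  apply Matrix.inv_eq_right_inv
  rw [← Matrix.map_mul, Matrix.mul_nonsing_inv M (isUnit_iff_ne_zero.2 h), Matrix.map_one _
    (map_zero _) (map_one _)]

lemma map_pow_rat (M : Matrix (Fin n) (Fin n) ℚ) (l : ℕ) :
    (M.map (algebraMap ℚ ℝ)) ^ l = (M ^ l).map (algebraMap ℚ ℝ) := by
  have h := map_pow ((algebraMap ℚ ℝ).mapMatrix (m := Fin n)) M l
  rw [RingHom.mapMatrix_apply, RingHom.mapMatrix_apply] at h
  exact h.symm

/-- the list of the steps -/
lemma exists_steps (P : ℤ → Prop) (hneg : ∀ j, P j → P (-j))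
    (h : AddSubgroup.closure {j : ℤ | P j} = ⊤) :
    ∃ (m : ℕ) (s : ℕ → ℤ), 0 < m ∧ s 0 = 0 ∧ s m = 1 ∧ ∀ t < m, P (s (t + 1) - s t) := by
  have h1 : (1 : ℤ) ∈ AddSubgroup.closure {j : ℤ | P j} := by rw [h]; trivial
  rw [← AddSubgroup.mem_toAddSubmonoid, AddSubgroup.closure_toAddSubmonoid] at h1
  obtain ⟨l, hl, hs⟩ := AddSubmonoid.exists_list_of_mem_closure h1
  refine ⟨l.length, fun t => (l.take t).sum, ?_, ?_, ?_, ?_⟩
  · rw [List.length_pos_iff]
    rintro rfl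
    simp at hs
  · simp
  · simp [hs]
  · intro t ht
    have h2 : (l.take (t + 1)).sum - (l.take t).sum = l[t] := by
      rw [List.take_succ_eq_append_getElem ht, List.sum_append]
      simp
    simp only
    rw [h2]
    rcases hl _ (List.getElem_mem ht) with h3 | h3
    · exact h3
    · have h4 : P (-l[t]) := h3
      have := hneg _ h4
      rwa [neg_neg] at this

theorem existence_power (hn : 0 < n) (A : Matrix (Fin n) (Fin n) ℝ)
    (hA : _root_.Wav.Expansive A) (p : ℕ) (hp : 0 < p)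
    (M : Matrix (Fin n) (Fin n) ℚ) (hM : A ^ p = M.map (algebraMap ℚ ℝ))
    (hJ : AddSubgroup.closure {j : ℤ | ∃ v w : Fin n → ℤ, v ≠ 0 ∧ (Aᵀ ^ j) *ᵥ zv v = zv w} = ⊤) :
    ∃ (L : ℕ) (ψ : Fin L → 𝓢(_root_.Wav.E n, ℂ)), 0 < L ∧
      (∀ l, HasCompactSupport (𝓕 (ψ l : _root_.Wav.E n → ℂ))) ∧
      _root_.Wav.IsONWavelet A (fun l => ψ l) := by
  have hA' : Expansive A := fun z hz =>
    hA z (Matrix.mem_spectrum_iff_isRoot_charpoly.2 hz)
  obtain ⟨N, κ, hN, hκ, hκ1, hB⟩ := adapted_norm _ hA'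
  have hdet := det_of_expansive hn _ hA'
  have hdet0 : A.det ≠ 0 := by
    intro h
    rw [h, abs_zero] at hdet
    linarith
  have hdet' : 1 < |(Aᵀ).det| := by rwa [Matrix.det_transpose]
  have hdetT : (Aᵀ).det ≠ 0 := by rwa [Matrix.det_transpose]
  have hu : IsUnit (Aᵀ).det := isUnit_iff_ne_zero.2 hdetT
  have hinj : ∀ (j : ℤ) (x : Fin n → ℝ), (Aᵀ ^ j) *ᵥ x = 0 ↔ x = 0 := by
    intro j x
    constructor
    · intro h
      rw [← zpow_mulVec_neg Aᵀ hdetT j x, h, Matrix.mulVec_zero]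
    · rintro rfl
      exact Matrix.mulVec_zero _
  -- the determinant of the rational matrix
  have hMdet : M.det ≠ 0 := by
    intro h
    have h1 : (A ^ p).det = 0 := by
      rw [hM]
      have h2 := (algebraMap ℚ ℝ).map_det M
      rw [h, map_zero, RingHom.mapMatrix_apply] at h2
      exact h2.symm
    rw [Matrix.det_pow] at h1
    exact hdet0 (pow_eq_zero_iff hp.ne' |>.1 h1)
  have hint : ∀ l : ℕ, ∃ (q : ℕ) (D : Matrix (Fin n) (Fin n) ℤ), 0 < q ∧
      D.map (fun z : ℤ => (z : ℝ)) = (q : ℝ) • Aᵀ ^ (-((p * l : ℕ) : ℤ)) := by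
    intro l
    obtain ⟨q, D, hq, hD⟩ := exists_int_mul ((M ^ l)⁻¹)
    refine ⟨q, D, hq, ?_⟩
    rw [hD]
    congr 1
    rw [← map_inv_rat _ (by rw [Matrix.det_pow]; exact pow_ne_zero _ hMdet), ← map_pow_rat,
      ← hM, ← pow_mul, Matrix.zpow_neg hu, zpow_natCast, ← Matrix.transpose_pow,
      Matrix.transpose_nonsing_inv]
  obtain ⟨m, s, hm, hs0, hsm, hst⟩ := exists_steps
    (fun j => ∃ v w : Fin n → ℤ, v ≠ 0 ∧ (Aᵀ ^ j) *ᵥ zv v = zv w) (by
      rintro j ⟨v, w, hv, hvw⟩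
      refine ⟨w, v, ?_, ?_⟩
      · rintro rfl
        rw [zv_zero, hinj] at hvw
        exact hv (zv_inj (by rw [hvw, zv_zero]))
      · rw [← hvw, zpow_mulVec_neg Aᵀ hdetT]) hJ
  have hst' : ∀ t, ∃ v w : Fin n → ℤ, t < m → v ≠ 0 ∧
      (Aᵀ ^ (s (t + 1) - s t)) *ᵥ zv v = zv w := by
    intro t
    by_cases ht : t < m
    · obtain ⟨v, w, h1, h2⟩ := hst t ht
      exact ⟨v, w, fun _ => ⟨h1, h2⟩⟩
    · exact ⟨0, 0, fun h => absurd h ht⟩
  choose v w hvw using hst'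
  obtain ⟨L, g, hL, hgs, hgc, h0, h1, h2⟩ :=
    existence_steps hn N hN hκ hκ1 Aᵀ hB hdet' p hp hint m hm s hs0 hsm v w
      (fun t ht => (hvw t ht).1) (by
        intro t ht
        have h3 := (hvw t ht).2
        rw [← h3, Matrix.mulVec_mulVec, ← Matrix.zpow_add hu]
        congr 2
        ring)
  obtain ⟨ψ, hψ1, hψ2⟩ := main_reduction' hn A hdet0
    (hexp_of_norm N hN hκ hκ1 _ hB) g hgs hgc h0 h1 h2
  refine ⟨L, ψ, hL, fun l => ?_, hψ2⟩
  have h3 : 𝓕 (ψ l : _root_.Wav.E n → ℂ) = up (g l) := funext (hψ1 l)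
  rw [h3]
  exact up_compact (hgc l)

end Pool.Agent.Helper54.Wav
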