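import Pool.Agent.Helper54.Wav.Defs
import Pool.Agent.Helper59.Wav.Torus

/-!
# Parseval identity for wavelet systems on the frequency side
-/

set_option autoImplicit false

open MeasureTheory Matrix Set
open scoped ComplexConjugate ContDiff ENNReal

namespace Pool.Agent.Helper54.Wav

variable {n : ℕ}

lemma zv_eq (m : Fin n → ℤ) : zv m = _root_.Wav.zv m := rfl

lemma zv_add (m k : Fin n → ℤ) : zv (m + k) = zv m + zv k := by
  funext i; simp [zv]

lemma zv_neg (m : Fin n → ℤ) : zv (-m) = -zv m := by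
  funext i; simp [zv]

lemma zv_zero : zv (0 : Fin n → ℤ) = 0 := by
  funext i; simp [zv]

lemma zv_inj {m k : Fin n → ℤ} (h : zv m = zv k) : m = k := by
  funext i
  have := congrFun h i
  simpa [zv] using this

lemma chr_eq_ee (k : Fin n → ℤ) (x : Fin n → ℝ) :
    _root_.Wav.chr k x = ee (∑ i, (k i : ℝ) * x i) := by
  unfold _root_.Wav.chr ee
  congr 1
  ring

/-- change of variables -/
lemma integral_comp_mulVec {F : Type*} [NormedAddCommGroup F] [NormedSpace ℝ F]
    (M : Matrix (Fin n) (Fin n) ℝ) (hM : M.det ≠ 0)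
    (h : (Fin n → ℝ) → F) : ∫ x, h (M *ᵥ x) = |M.det|⁻¹ • ∫ x, h x := by
  have h1 := Real.map_matrix_volume_pi_eq_smul_volume_pi hM
  have hu : IsUnit M.det := isUnit_iff_ne_zero.2 hM
  let e : (Fin n → ℝ) ≃L[ℝ] (Fin n → ℝ) :=
    (M.toLinearEquiv' ((Matrix.isUnit_iff_isUnit_det M).2 hu).invertible).toContinuousLinearEquiv
  have he : MeasurableEmbedding (fun x : Fin n → ℝ => M *ᵥ x) :=
    e.toHomeomorph.measurableEmbedding
  have h2 : Measure.map (fun x : Fin n → ℝ => M *ᵥ x) volume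
      = ENNReal.ofReal |M.det⁻¹| • volume := by
    rw [← h1]
    rfl
  rw [← he.integral_map, h2, integral_smul_measure, ENNReal.toReal_ofReal (abs_nonneg _), abs_inv]

lemma integral_comp_mulVec' {F : Type*} [NormedAddCommGroup F] [NormedSpace ℝ F]
    (M : Matrix (Fin n) (Fin n) ℝ) (hM : M.det ≠ 0)
    (h : (Fin n → ℝ) → F) : |M.det| • ∫ x, h (M *ᵥ x) = ∫ x, h x := by
  rw [integral_comp_mulVec M hM, smul_smul, mul_inv_cancel₀ (abs_ne_zero.2 hM), one_smul]

end Pool.Agent.Helper54.Wav
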