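import Pool.Agent.Helper54.Wav.Freq

set_option autoImplicit false

open MeasureTheory Matrix Set
open scoped ComplexConjugate ContDiff ENNReal

namespace Pool.Agent.Helper54.Wav

variable {n : ℕ}

/-- unfolding against a bounded periodic function -/
lemma integral_cube_mul_per {f : (Fin n → ℝ) → ℂ} (hf : Integrable f) {e : (Fin n → ℝ) → ℂ}
    (he : AEStronglyMeasurable e volume) {C : ℝ} (hb : ∀ x, ‖e x‖ ≤ C)
    (hper : ∀ x (m : Fin n → ℤ), e (x + zv m) = e x) :
    ∫ x in _root_.Wav.cube (Fin n), e x * _root_.Wav.per f x = ∫ x, e x * f x := by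
  have hef : Integrable (fun x => e x * f x) :=
    hf.bdd_mul (c := C) he (Filter.Eventually.of_forall hb)
  have h := _root_.Wav.integral_unfold hef
  rw [← h.tsum_eq]
  have h2 : ∀ᵐ x ∂(volume.restrict (_root_.Wav.cube (Fin n))), e x * _root_.Wav.per f x
      = ∑' m : Fin n → ℤ, e (x + _root_.Wav.zv m) * f (x + _root_.Wav.zv m) := by
    filter_upwards [_root_.Wav.ae_summable hf] with x hx
    unfold _root_.Wav.per
    have : ∀ m : Fin n → ℤ, e (x + _root_.Wav.zv m) = e x := fun m => hper x m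
    simp_rw [this]
    rw [tsum_mul_left]
  rw [integral_congr_ae h2]
  rw [integral_tsum]
  · intro m
    exact (_root_.Wav.aesm_shift hef.aestronglyMeasurable m).restrict
  · have := _root_.Wav.lintegral_unfold (fun x => ‖e x * f x‖ₑ)
    rw [← this]
    exact hef.hasFiniteIntegral.ne

/-- `F` is bounded, measurable with bounded support. -/
structure Nice (F : (Fin n → ℝ) → ℂ) : Prop where
  meas : Measurable F
  bdd : ∃ C, ∀ x, ‖F x‖ ≤ C
  supp : ∃ R, ∀ x, R ≤ ‖x‖ → F x = 0

lemma finite_shift (x : Fin n → ℝ) (R : ℝ) :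
    {m : Fin n → ℤ | ‖x + zv m‖ ≤ R}.Finite := by
  refine (Set.Finite.pi' (t := fun i => Set.Icc (⌈-R - x i⌉) (⌊R - x i⌋))
    fun i => Set.finite_Icc _ _).subset ?_
  intro m hm i
  have h1 : ‖(x + zv m) i‖ ≤ R := (norm_le_pi_norm _ i).trans hm
  rw [Real.norm_eq_abs, abs_le] at h1
  simp only [Pi.add_apply, zv] at h1
  refine ⟨Int.ceil_le.2 (by linarith [h1.1]), Int.le_floor.2 (by linarith [h1.2])⟩

lemma exists_shift (x : Fin n → ℝ) : ∃ m : Fin n → ℤ, ‖x + zv m‖ ≤ 1 := by
  refine ⟨fun i => -⌊x i⌋, ?_⟩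
  rw [pi_norm_le_iff_of_nonneg zero_le_one]
  intro i
  have h1 := Int.floor_le (x i)
  have h2 := Int.lt_floor_add_one (x i)
  simp only [Pi.add_apply, zv, Int.cast_neg, Real.norm_eq_abs]
  rw [abs_le]
  constructor <;> linarith

lemma Nice.finite {F : (Fin n → ℝ) → ℂ} (hF : Nice F) (x : Fin n → ℝ) :
    (Function.support fun m : Fin n → ℤ => F (x + zv m)).Finite := by
  obtain ⟨R, hR⟩ := hF.supp
  refine (finite_shift x R).subset ?_
  intro m hm
  change ‖x + zv m‖ ≤ R
  by_contra hcon
  push Not at hcon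
  exact hm (hR _ hcon.le)

lemma Nice.integrable {F : (Fin n → ℝ) → ℂ} (hF : Nice F) : Integrable F := by
  obtain ⟨R, hR⟩ := hF.supp
  obtain ⟨C, hC⟩ := hF.bdd
  have h1 : IntegrableOn F (Metric.closedBall 0 R) volume := by
    refine Measure.integrableOn_of_bounded (M := C) ?_ hF.meas.aestronglyMeasurable ?_
    · exact (isCompact_closedBall (0 : Fin n → ℝ) R).measure_lt_top.ne
    · exact Filter.Eventually.of_forall hC
  refine h1.integrable_of_forall_notMem_eq_zero ?_
  intro x hx
  apply hR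
  simp only [Metric.mem_closedBall, dist_zero_right, not_le] at hx
  exact hx.le

lemma per_meas {F : (Fin n → ℝ) → ℂ} (hF : Nice F) : Measurable (_root_.Wav.per F) := by
  have h1 : ∀ x, Filter.Tendsto (fun S : Finset (Fin n → ℤ) => ∑ m ∈ S, F (x + zv m))
      Filter.atTop (nhds (_root_.Wav.per F x)) := by
    intro x
    have hs : Summable (fun m : Fin n → ℤ => F (x + zv m)) :=
      summable_of_hasFiniteSupport (hF.finite x)
    have h := hs.hasSum
    simp only [HasSum, SummationFilter.unconditional_filter] at h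
    exact h
  refine measurable_of_tendsto_metrizable' Filter.atTop
    (f := fun (S : Finset (Fin n → ℤ)) x => ∑ m ∈ S, F (x + zv m)) ?_ ?_
  · intro S
    exact Finset.measurable_sum _ fun m _ => hF.meas.comp (measurable_id.add_const _)
  · exact tendsto_pi_nhds.2 h1

lemma per_per (F : (Fin n → ℝ) → ℂ) (x : Fin n → ℝ) (m : Fin n → ℤ) :
    _root_.Wav.per F (x + zv m) = _root_.Wav.per F x := by
  unfold _root_.Wav.per
  rw [← (Equiv.addLeft m).tsum_eq (fun k : Fin n → ℤ => F (x + _root_.Wav.zv k))]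
  refine tsum_congr fun k => ?_
  simp only [Equiv.coe_addLeft, _root_.Wav.zv_add, zv_eq, add_assoc]

lemma per_bdd {F : (Fin n → ℝ) → ℂ} (hF : Nice F) : ∃ C, ∀ x, ‖_root_.Wav.per F x‖ ≤ C := by
  obtain ⟨C, hC⟩ := hF.bdd
  obtain ⟨R, hR⟩ := hF.supp
  have hfin := finite_shift (0 : Fin n → ℝ) (R + 1)
  have hC0 : 0 ≤ C := (norm_nonneg _).trans (hC 0)
  refine ⟨hfin.toFinset.card * C, fun x => ?_⟩
  obtain ⟨m, hm⟩ := exists_shift x
  rw [← per_per F x m]
  unfold _root_.Wav.per
  have h1 : ∀ k ∉ hfin.toFinset, F (x + zv m + _root_.Wav.zv k) = 0 := by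
    intro k hk
    apply hR
    rw [Set.Finite.mem_toFinset] at hk
    by_contra hcon
    push Not at hcon
    apply hk
    change ‖(0 : Fin n → ℝ) + zv k‖ ≤ R + 1
    have h2 : (0 : Fin n → ℝ) + zv k = (x + zv m + zv k) - (x + zv m) := by abel
    rw [h2]
    refine (norm_sub_le _ _).trans ?_
    have h3 : ‖x + zv m + zv k‖ ≤ R := hcon.le
    linarith
  rw [tsum_eq_sum h1]
  refine (norm_sum_le _ _).trans ?_
  refine (Finset.sum_le_sum fun k _ => hC _).trans ?_
  rw [Finset.sum_const, nsmul_eq_mul]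

lemma finite_cube : IsFiniteMeasure (volume.restrict (_root_.Wav.cube (Fin n))) := by
  refine ⟨?_⟩
  rw [Measure.restrict_apply_univ]
  refine (measure_mono (t := Metric.closedBall (0 : Fin n → ℝ) 1) ?_).trans_lt
    (isCompact_closedBall _ _).measure_lt_top
  intro x hx
  rw [mem_closedBall_zero_iff, pi_norm_le_iff_of_nonneg zero_le_one]
  intro i
  have := hx i
  simp only [zero_add, mem_Ioc] at this
  rw [Real.norm_eq_abs, abs_le]
  constructor <;> linarith [this.1, this.2]

theorem parseval_nice {F : (Fin n → ℝ) → ℂ} (hF : Nice F) :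
    HasSum (fun k : Fin n → ℤ => ‖∫ x, F x * ee (∑ i, (k i : ℝ) * x i)‖ ^ 2)
      (∫ x, conj (_root_.Wav.per F x) * F x).re := by
  obtain ⟨C, hC⟩ := per_bdd hF
  have hm := per_meas hF
  have fin : IsFiniteMeasure (volume.restrict (_root_.Wav.cube (Fin n))) := finite_cube
  have hP : MemLp (_root_.Wav.per F) 2 (volume.restrict (_root_.Wav.cube (Fin n))) :=
    MemLp.of_bound hm.aestronglyMeasurable C (Filter.Eventually.of_forall hC)
  have h := _root_.Wav.parseval_per hF.integrable hP
  have e1 : ∫ x in _root_.Wav.cube (Fin n), ‖_root_.Wav.per F x‖ ^ 2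
      = (∫ x, conj (_root_.Wav.per F x) * F x).re := by
    rw [← integral_cube_mul_per hF.integrable (e := fun x => conj (_root_.Wav.per F x))
      (C := C)]
    · have : ∀ x, conj (_root_.Wav.per F x) * _root_.Wav.per F x
          = ((‖_root_.Wav.per F x‖ ^ 2 : ℝ) : ℂ) := by
        intro x
        rw [mul_comm, Complex.mul_conj, Complex.normSq_eq_norm_sq]
      simp_rw [this]
      rw [integral_complex_ofReal, Complex.ofReal_re]
    · exact (Complex.continuous_conj.measurable.comp hm).aestronglyMeasurable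
    · intro x; simpa using hC x
    · intro x m; simp only [per_per]
  rw [e1] at h
  convert h using 1
  funext k
  congr 2
  refine integral_congr_ae (Filter.Eventually.of_forall fun x => ?_)
  simp only [chr_eq_ee, mul_comm]

end Pool.Agent.Helper54.Wav
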