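import Pool.Agent.Helper54.Wav.Freq2

set_option autoImplicit false

open MeasureTheory Matrix Set
open scoped ComplexConjugate ContDiff ENNReal

namespace Pool.Agent.Helper54.Wav

variable {n : ℕ}

lemma zpow_mulVec_neg (B : Matrix (Fin n) (Fin n) ℝ) (hB : B.det ≠ 0) (j : ℤ) (x : Fin n → ℝ) :
    (B ^ (-j)) *ᵥ ((B ^ j) *ᵥ x) = x := by
  have hu : IsUnit B.det := isUnit_iff_ne_zero.2 hB
  rw [Matrix.mulVec_mulVec, ← Matrix.zpow_add hu]
  simp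

lemma zpow_mulVec_neg' (B : Matrix (Fin n) (Fin n) ℝ) (hB : B.det ≠ 0) (j : ℤ) (x : Fin n → ℝ) :
    (B ^ j) *ᵥ ((B ^ (-j)) *ᵥ x) = x := by
  have := zpow_mulVec_neg B hB (-j) x
  simpa using this

lemma ker_zv {L : ℕ} (g : Fin L → (Fin n → ℝ) → ℂ) (ξ : Fin n → ℝ) (m : Fin n → ℤ) :
    ker g ξ (zv m) = ∑ l, g l ξ * conj (g l (ξ + zv m)) := by
  unfold ker
  rw [if_pos ⟨m, rfl⟩]

lemma ker_eq_zero {L : ℕ} (g : Fin L → (Fin n → ℝ) → ℂ) (ξ μ : Fin n → ℝ)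
    (h : ∀ l, g l ξ = 0) : ker g ξ μ = 0 := by
  unfold ker
  split_ifs
  · exact Finset.sum_eq_zero fun l _ => by rw [h l, zero_mul]
  · rfl

theorem sum_kernel {L : ℕ} (B : Matrix (Fin n) (Fin n) ℝ) (hB : B.det ≠ 0)
    (g : Fin L → (Fin n → ℝ) → ℂ)
    (hfin : ∀ η, {m : Fin n → ℤ | ∃ l, g l (η + zv m) ≠ 0}.Finite) (ξ : Fin n → ℝ) (J : Finset ℤ)
    (hJ : ∀ j ∉ J, ∀ l, g l ((B ^ (-j)) *ᵥ ξ) = 0)
    (h2 : ∀ μ, ∑ᶠ j : ℤ, ker g ((B ^ (-j)) *ᵥ ξ) ((B ^ (-j)) *ᵥ μ) = if μ = 0 then 1 else 0)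
    (f : (Fin n → ℝ) → ℂ) :
    ∑ j ∈ J, ∑' m : Fin n → ℤ, ker g ((B ^ (-j)) *ᵥ ξ) (zv m) * f (ξ + (B ^ j) *ᵥ zv m) = f ξ := by
  classical
  let S : ℤ → Finset (Fin n → ℤ) := fun j => (hfin ((B ^ (-j)) *ᵥ ξ)).toFinset
  have hS : ∀ j m, m ∉ S j → ∀ l, g l ((B ^ (-j)) *ᵥ ξ + zv m) = 0 := by
    intro j m hm l
    by_contra hcon
    apply hm
    simp only [S, Set.Finite.mem_toFinset]
    exact ⟨l, hcon⟩
  let T : Finset (Fin n → ℝ) := insert 0 (J.biUnion fun j => (S j).image fun m => (B ^ j) *ᵥ zv m)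
  have step1 : ∀ j ∈ J, ∑' m : Fin n → ℤ, ker g ((B ^ (-j)) *ᵥ ξ) (zv m) *
      f (ξ + (B ^ j) *ᵥ zv m) = ∑ μ ∈ T, ker g ((B ^ (-j)) *ᵥ ξ) ((B ^ (-j)) *ᵥ μ) * f (ξ + μ) := by
    intro j hj
    rw [tsum_eq_sum (s := S j)]
    · have hinj : Set.InjOn (fun m : Fin n → ℤ => (B ^ j) *ᵥ zv m) (S j) := by
        intro a _ b _ hab
        apply zv_inj
        have := congrArg (fun x => (B ^ (-j)) *ᵥ x) hab
        simpa only [zpow_mulVec_neg B hB] using this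
      have e1 : ∑ m ∈ S j, ker g ((B ^ (-j)) *ᵥ ξ) (zv m) * f (ξ + (B ^ j) *ᵥ zv m)
          = ∑ μ ∈ (S j).image (fun m => (B ^ j) *ᵥ zv m),
            ker g ((B ^ (-j)) *ᵥ ξ) ((B ^ (-j)) *ᵥ μ) * f (ξ + μ) := by
        rw [Finset.sum_image hinj]
        simp only [zpow_mulVec_neg B hB]
      rw [e1]
      apply Finset.sum_subset
      · intro μ hμ
        exact Finset.mem_insert_of_mem (Finset.mem_biUnion.2 ⟨j, hj, hμ⟩)
      · intro μ _ hμ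
        have : ker g ((B ^ (-j)) *ᵥ ξ) ((B ^ (-j)) *ᵥ μ) = 0 := by
          unfold ker
          split_ifs with h
          · obtain ⟨m, hm⟩ := h
            have hmS : m ∉ S j := by
              intro hmem
              apply hμ
              rw [Finset.mem_image]
              refine ⟨m, hmem, ?_⟩
              rw [← hm, zpow_mulVec_neg' B hB]
            rw [hm]
            exact Finset.sum_eq_zero fun l _ => by rw [hS j m hmS l, map_zero, mul_zero]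
          · rfl
        rw [this, zero_mul]
    · intro m hm
      rw [ker_zv]
      rw [Finset.sum_eq_zero fun l _ => by rw [hS j m hm l, map_zero, mul_zero], zero_mul]
  rw [Finset.sum_congr rfl step1, Finset.sum_comm]
  have step2 : ∀ μ, ∑ j ∈ J, ker g ((B ^ (-j)) *ᵥ ξ) ((B ^ (-j)) *ᵥ μ) = if μ = 0 then 1 else 0 := by
    intro μ
    rw [← h2 μ, finsum_eq_sum_of_support_subset]
    intro j hj
    by_contra hcon
    exact hj (ker_eq_zero _ _ _ (hJ j hcon))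
  simp_rw [← Finset.sum_mul, step2]
  simp [T]

end Pool.Agent.Helper54.Wav
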