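import Pool.Agent.Helper54.Wav.Freq3

set_option autoImplicit false

open MeasureTheory Matrix Set
open scoped ComplexConjugate ContDiff ENNReal

namespace Pool.Agent.Helper54.Wav

variable {n : ℕ}

lemma integrable_comp_mulVec {F : Type*} [NormedAddCommGroup F]
    (M : Matrix (Fin n) (Fin n) ℝ) (hM : M.det ≠ 0)
    (h : (Fin n → ℝ) → F) : Integrable (fun x => h (M *ᵥ x)) ↔ Integrable h := by
  have h1 := Real.map_matrix_volume_pi_eq_smul_volume_pi hM
  have hu : IsUnit M.det := isUnit_iff_ne_zero.2 hM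
  let e : (Fin n → ℝ) ≃L[ℝ] (Fin n → ℝ) :=
    (M.toLinearEquiv' ((Matrix.isUnit_iff_isUnit_det M).2 hu).invertible).toContinuousLinearEquiv
  have he : MeasurableEmbedding (fun x : Fin n → ℝ => M *ᵥ x) :=
    e.toHomeomorph.measurableEmbedding
  have h2 : Measure.map (fun x : Fin n → ℝ => M *ᵥ x) volume
      = ENNReal.ofReal |M.det⁻¹| • volume := by
    rw [← h1]
    rfl
  have h3 := he.integrable_map_iff (μ := volume) (g := h)
  rw [h2] at h3
  rw [show (fun x => h (M *ᵥ x)) = h ∘ (fun x : Fin n → ℝ => M *ᵥ x) from rfl, ← h3]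
  apply integrable_smul_measure
  · simp only [ne_eq, ENNReal.ofReal_eq_zero, not_le]
    exact abs_pos.2 (inv_ne_zero hM)
  · exact ENNReal.ofReal_ne_top

/-- frequency side of the wavelet system -/
noncomputable def fdil (B : Matrix (Fin n) (Fin n) ℝ) (g : (Fin n → ℝ) → ℂ) (j : ℤ)
    (k : Fin n → ℤ) (ξ : Fin n → ℝ) : ℂ :=
  ((|B.det| ^ (-(j : ℝ) / 2) : ℝ) : ℂ) * g ((B ^ (-j)) *ᵥ ξ) *
    ee (-∑ i, (k i : ℝ) * ((B ^ (-j)) *ᵥ ξ) i)

lemma det_zpow' (B : Matrix (Fin n) (Fin n) ℝ) (hB : B.det ≠ 0) (j : ℤ) :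
    (B ^ j).det = B.det ^ j := by
  have hu : IsUnit B.det := isUnit_iff_ne_zero.2 hB
  obtain ⟨m, rfl | rfl⟩ := j.eq_nat_or_neg
  · simp [Matrix.det_pow]
  · rw [Matrix.zpow_neg hu, Matrix.det_nonsing_inv, Ring.inverse_eq_inv']
    simp [Matrix.det_pow]

lemma abs_det_zpow (B : Matrix (Fin n) (Fin n) ℝ) (hB : B.det ≠ 0) (j : ℤ) :
    |(B ^ j).det| = |B.det| ^ (j : ℝ) := by
  rw [det_zpow' B hB, abs_zpow, Real.rpow_intCast]

lemma det_zpow_ne (B : Matrix (Fin n) (Fin n) ℝ) (hB : B.det ≠ 0) (j : ℤ) :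
    (B ^ j).det ≠ 0 := by
  rw [det_zpow' B hB]
  exact zpow_ne_zero _ hB

lemma conj_ee (t : ℝ) : conj (ee t) = ee (-t) := by
  unfold ee
  rw [← Complex.exp_conj]
  congr 1
  simp only [map_mul, Complex.conj_ofReal, Complex.conj_I, Complex.conj_ofNat]
  push_cast
  ring

lemma norm_ee (t : ℝ) : ‖ee t‖ = 1 := by
  unfold ee
  rw [show (2 * Real.pi * t * Complex.I : ℂ) = ((2 * Real.pi * t : ℝ) : ℂ) * Complex.I by
    push_cast; ring]
  exact Complex.norm_exp_ofReal_mul_I _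

lemma continuous_ee : Continuous ee := by
  unfold ee
  fun_prop

lemma integral_fdil (B : Matrix (Fin n) (Fin n) ℝ) (hB : B.det ≠ 0) (g f : (Fin n → ℝ) → ℂ)
    (j : ℤ) (k : Fin n → ℤ) :
    ∫ ξ, conj (fdil B g j k ξ) * f ξ =
      ∫ η, (((|B.det| ^ ((j : ℝ) / 2) : ℝ) : ℂ) * conj (g η) * f ((B ^ j) *ᵥ η)) *
        ee (∑ i, (k i : ℝ) * η i) := by
  rw [← integral_comp_mulVec' (B ^ j) (det_zpow_ne B hB j), ← integral_smul]
  refine integral_congr_ae (Filter.Eventually.of_forall fun η => ?_)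
  simp only [fdil, zpow_mulVec_neg B hB, abs_det_zpow B hB, map_mul, conj_ee, neg_neg,
    Complex.conj_ofReal]
  have hpos : 0 < |B.det| := abs_pos.2 hB
  have h1 : |B.det| ^ ((j : ℝ) / 2) = |B.det| ^ (j : ℝ) * |B.det| ^ (-(j : ℝ) / 2) := by
    rw [← Real.rpow_add hpos]
    congr 1
    ring
  rw [h1, Complex.real_smul]
  push_cast
  ring

/-- the function `Ψ_{l,j}` -/
noncomputable def Psi (B : Matrix (Fin n) (Fin n) ℝ) (g f : (Fin n → ℝ) → ℂ) (j : ℤ)
    (ξ : Fin n → ℝ) : ℂ :=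
  f ξ * ∑' m : Fin n → ℤ, conj (g ((B ^ (-j)) *ᵥ ξ)) * g ((B ^ (-j)) *ᵥ ξ + zv m) *
    conj (f (ξ + (B ^ j) *ᵥ zv m))

lemma hasSum_k (B : Matrix (Fin n) (Fin n) ℝ) (hB : B.det ≠ 0) (g f : (Fin n → ℝ) → ℂ)
    (hg : Continuous g) (hc : HasCompactSupport g) (hf : Measurable f) (hfb : ∃ C, ∀ x, ‖f x‖ ≤ C)
    (j : ℤ) :
    HasSum (fun k : Fin n → ℤ => ‖∫ ξ, conj (fdil B g j k ξ) * f ξ‖ ^ 2)
      (∫ ξ, Psi B g f j ξ).re ∧ Integrable (Psi B g f j) := by
  set F : (Fin n → ℝ) → ℂ := fun η => ((|B.det| ^ ((j : ℝ) / 2) : ℝ) : ℂ) * conj (g η) *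
    f ((B ^ j) *ᵥ η) with hF
  have hmeas : Measurable fun η : Fin n → ℝ => (B ^ j) *ᵥ η :=
    (Matrix.toLin' (B ^ j)).continuous_of_finiteDimensional.measurable
  have hnice : Nice F := by
    refine ⟨?_, ?_, ?_⟩
    · exact (measurable_const.mul (Complex.continuous_conj.measurable.comp hg.measurable)).mul
        (hf.comp hmeas)
    · obtain ⟨C, hC⟩ := hfb
      obtain ⟨C', hC'⟩ := hc.exists_bound_of_continuous hg
      refine ⟨|B.det| ^ ((j : ℝ) / 2) * C' * C, fun x => ?_⟩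
      simp only [hF, norm_mul, Complex.norm_real, RCLike.norm_conj]
      have h0 : ‖|B.det| ^ ((j : ℝ) / 2)‖ = |B.det| ^ ((j : ℝ) / 2) := by
        rw [Real.norm_eq_abs, abs_of_nonneg (by positivity)]
      rw [h0]
      have := hC' x
      have h3 := hC ((B ^ j) *ᵥ x)
      have h4 : 0 ≤ C' := (norm_nonneg _).trans this
      gcongr
    · obtain ⟨R, hR⟩ := hc.isCompact.isBounded.subset_closedBall 0
      refine ⟨R + 1, fun x hx => ?_⟩
      have : g x = 0 := by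
        by_contra hcon
        have h1 := hR (subset_tsupport _ hcon)
        rw [mem_closedBall_zero_iff] at h1
        linarith
      simp [hF, this]
  have h := parseval_nice hnice
  have e1 : ∀ ξ, Psi B g f j ξ = |(B ^ (-j)).det| • (conj (_root_.Wav.per F ((B ^ (-j)) *ᵥ ξ)) *
      F ((B ^ (-j)) *ᵥ ξ)) := by
    intro ξ
    have hpos : 0 < |B.det| := abs_pos.2 hB
    have e2 : conj (_root_.Wav.per F ((B ^ (-j)) *ᵥ ξ)) = ((|B.det| ^ ((j : ℝ) / 2) : ℝ) : ℂ) *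
        ∑' m : Fin n → ℤ, g ((B ^ (-j)) *ᵥ ξ + zv m) * conj (f (ξ + (B ^ j) *ᵥ zv m)) := by
      unfold _root_.Wav.per
      have hct : conj (∑' m : Fin n → ℤ, F ((B ^ (-j)) *ᵥ ξ + _root_.Wav.zv m)) =
          ∑' m : Fin n → ℤ, conj (F ((B ^ (-j)) *ᵥ ξ + _root_.Wav.zv m)) := Complex.conj_tsum _
      rw [hct, ← tsum_mul_left]
      refine tsum_congr fun m => ?_
      simp only [hF, map_mul, Complex.conj_conj, Complex.conj_ofReal, Matrix.mulVec_add,
        zpow_mulVec_neg' B hB, zv_eq]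
      ring
    have e3 : Psi B g f j ξ = f ξ * conj (g ((B ^ (-j)) *ᵥ ξ)) *
        ∑' m : Fin n → ℤ, g ((B ^ (-j)) *ᵥ ξ + zv m) * conj (f (ξ + (B ^ j) *ᵥ zv m)) := by
      unfold Psi
      simp_rw [mul_assoc]
      rw [tsum_mul_left]
    have e4 : (|(B ^ (-j)).det| : ℝ) * (|B.det| ^ ((j : ℝ) / 2) * |B.det| ^ ((j : ℝ) / 2)) = 1 := by
      rw [abs_det_zpow B hB, ← Real.rpow_add hpos, ← Real.rpow_add hpos]
      have : ((-j : ℤ) : ℝ) + ((j : ℝ) / 2 + (j : ℝ) / 2) = 0 := by push_cast; ring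
      rw [this, Real.rpow_zero]
    have e5 : ((|(B ^ (-j)).det| : ℝ) : ℂ) * ((|B.det| ^ ((j : ℝ) / 2) : ℝ) : ℂ) *
        ((|B.det| ^ ((j : ℝ) / 2) : ℝ) : ℂ) = 1 := by
      rw [mul_assoc]
      exact_mod_cast e4
    rw [e2, e3, Complex.real_smul]
    simp only [hF, zpow_mulVec_neg' B hB]
    linear_combination (-(f ξ * conj (g ((B ^ (-j)) *ᵥ ξ)) *
        ∑' m : Fin n → ℤ, g ((B ^ (-j)) *ᵥ ξ + zv m) * conj (f (ξ + (B ^ j) *ᵥ zv m)))) * e5
  have hint : Integrable (fun x => conj (_root_.Wav.per F x) * F x) := by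
    obtain ⟨C, hC⟩ := per_bdd hnice
    refine hnice.integrable.bdd_mul (c := C) ?_ (Filter.Eventually.of_forall fun x => ?_)
    · exact (Complex.continuous_conj.measurable.comp (per_meas hnice)).aestronglyMeasurable
    · simpa using hC x
  constructor
  · simp_rw [integral_fdil B hB]
    convert h using 2
    rw [integral_congr_ae (Filter.Eventually.of_forall e1), integral_smul,
      ← integral_comp_mulVec' (B ^ (-j)) (det_zpow_ne B hB (-j))
        (fun x => conj (_root_.Wav.per F x) * F x)]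
  · have : Psi B g f j = fun ξ => |(B ^ (-j)).det| • (conj (_root_.Wav.per F ((B ^ (-j)) *ᵥ ξ)) *
      F ((B ^ (-j)) *ᵥ ξ)) := funext e1
    rw [this]
    exact ((integrable_comp_mulVec (B ^ (-j)) (det_zpow_ne B hB (-j))
      (fun x => conj (_root_.Wav.per F x) * F x)).2 hint).smul (|(B ^ (-j)).det|)

end Pool.Agent.Helper54.Wav
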