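import Pool.Agent.Helper54.Wav.Assemble

/-!
# The choice of the walls
-/

set_option autoImplicit false

open MeasureTheory Matrix Set
open scoped ComplexConjugate ContDiff ENNReal

namespace Pool.Agent.Helper54.Wav

variable {n : ℕ}

lemma exists_rot (N : Seminorm ℝ (Fin n → ℝ)) (hN : ∀ x, N x = 0 → x = 0) {ρ ρ' : ℝ}
    (hρ : ρ < ρ') (h : Fin n → ℝ) (hh : 2 * ρ' < N h) :
    ∃ R : RotData n, R.h = h ∧ (∀ x, N x ≤ ρ → R.σ x = 1) ∧ (∀ x ∈ R.S, N x ≤ ρ') := by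
  have hNc := seminorm_continuous N
  obtain ⟨c1, hc1, hN1⟩ := le_seminorm N hN
  obtain ⟨f, hfs, hf0, hf1⟩ := exists_cutoff (s := {x | ρ' ≤ N x}) (t := {x | N x ≤ ρ})
    (isClosed_le continuous_const hNc) (isClosed_le hNc continuous_const) (by
      rw [Set.disjoint_left]
      intro x hx hx'
      have h1 : ρ' ≤ N x := hx
      have h2 : N x ≤ ρ := hx'
      linarith)
  refine ⟨{ σ := fun x => Real.sin (Real.pi / 2 * f x)
            c := fun x => Real.cos (Real.pi / 2 * f x)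
            S := {x | N x < ρ'}
            h := h
            hσ := Real.contDiff_sin.comp (contDiff_const.mul hfs)
            hc := Real.contDiff_cos.comp (contDiff_const.mul hfs)
            sq := fun x => Real.cos_sq_add_sin_sq _
            off := ?_
            bdd := ?_
            disj := ?_ }, rfl, ?_, ?_⟩
  · intro x hx
    have h0 : ρ' ≤ N x := not_lt.1 hx
    have h1 : f x = 0 := hf0 x h0
    rw [h1, mul_zero, Real.sin_zero, Real.cos_zero]
    exact ⟨rfl, rfl⟩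
  · refine Metric.isBounded_closedBall (x := (0 : Fin n → ℝ)) (r := ρ' / c1) |>.subset
      fun x hx => ?_
    rw [mem_closedBall_zero_iff, le_div_iff₀ hc1]
    have h1 : N x < ρ' := hx
    have := hN1 x
    linarith
  · intro x hx hx'
    have h1 : N x < ρ' := hx
    have h2 : N (x + h) < ρ' := hx'
    have h3 : N h ≤ N (x + h) + N x := by
      have := map_sub_le_add N (x + h) x
      rwa [add_sub_cancel_left] at this
    linarith
  · intro x hx
    have h1 : f x = 1 := hf1 x hx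
    simp only [h1, mul_one, Real.sin_pi_div_two]
  · intro x hx
    exact le_of_lt hx

lemma bound_mat (N : Seminorm ℝ (Fin n → ℝ)) (hN : ∀ x, N x = 0 → x = 0)
    (M : Matrix (Fin n) (Fin n) ℝ) : ∃ C > 0, ∀ x, N (M *ᵥ x) ≤ C * N x := by
  obtain ⟨c1, hc1, hN1⟩ := le_seminorm N hN
  obtain ⟨c3, hc3, hM⟩ := seminorm_le (N.comp (Matrix.toLin' M))
  refine ⟨c3 / c1, by positivity, fun x => ?_⟩
  have h1 : N (M *ᵥ x) ≤ c3 * ‖x‖ := hM x
  have h2 := hN1 x
  calc N (M *ᵥ x) ≤ c3 * ‖x‖ := h1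
    _ = c3 / c1 * (c1 * ‖x‖) := by field_simp
    _ ≤ c3 / c1 * N x := by gcongr

lemma exists_nat_window {u lo hi : ℝ} (hu : 0 < u) (h : lo + u ≤ hi) :
    ∃ k : ℕ, lo ≤ k * u ∧ (0 ≤ lo → k * u ≤ hi) := by
  refine ⟨⌈lo / u⌉₊, ?_, fun hlo => ?_⟩
  · have := Nat.le_ceil (lo / u)
    rwa [div_le_iff₀ hu] at this
  · have := Nat.ceil_lt_add_one (div_nonneg hlo hu.le)
    have h2 : (⌈lo / u⌉₊ : ℝ) * u < (lo / u + 1) * u := by gcongr
    have h3 : (lo / u + 1) * u = lo + u := by field_simp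
    linarith

lemma zv_nsmul (k : ℕ) (m : Fin n → ℤ) : zv ((k : ℤ) • m) = (k : ℝ) • zv m := by
  funext i
  simp [zv]

theorem existence_steps (hn : 0 < n) (N : Seminorm ℝ (Fin n → ℝ)) (hN : ∀ x, N x = 0 → x = 0)
    {κ : ℝ} (hκ : 0 < κ) (hκ1 : κ < 1) (B : Matrix (Fin n) (Fin n) ℝ)
    (hBN : ∀ x, N x ≤ κ * N (B *ᵥ x)) (hB : 1 < |B.det|) (p : ℕ) (hp : 0 < p)
    (hint : ∀ l : ℕ, ∃ (q : ℕ) (D : Matrix (Fin n) (Fin n) ℤ), 0 < q ∧
      D.map (fun z : ℤ => (z : ℝ)) = (q : ℝ) • B ^ (-((p * l : ℕ) : ℤ)))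
    (m : ℕ) (hm : 0 < m) (s : ℕ → ℤ) (hs0 : s 0 = 0) (hsm : s m = 1) (v w : ℕ → Fin n → ℤ)
    (hv : ∀ t < m, v t ≠ 0)
    (hvw : ∀ t < m, (B ^ (s (t + 1))) *ᵥ zv (v t) = (B ^ (s t)) *ᵥ zv (w t)) :
    ∃ (L : ℕ) (g : Fin L → (Fin n → ℝ) → ℂ), 0 < L ∧ (∀ l, ContDiff ℝ ∞ (g l)) ∧
      (∀ l, HasCompactSupport (g l)) ∧ (∃ ε > 0, ∀ l ξ, ‖ξ‖ < ε → g l ξ = 0) ∧
      (∀ l, ∫ ξ, ‖g l ξ‖ ^ 2 = 1) ∧
      (∀ ξ μ, ξ ≠ 0 → ∑ᶠ j : ℤ, ker g ((B ^ (-j)) *ᵥ ξ) ((B ^ (-j)) *ᵥ μ) =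
        if μ = 0 then 1 else 0) := by
  classical
  have hBdet : B.det ≠ 0 := by
    intro h
    rw [h, abs_zero] at hB
    linarith
  have hBu : IsUnit B.det := isUnit_iff_ne_zero.2 hBdet
  have hadd : ∀ (i j : ℤ) (x : Fin n → ℝ), (B ^ i) *ᵥ ((B ^ j) *ᵥ x) = (B ^ (i + j)) *ᵥ x := by
    intro i j x
    rw [Matrix.mulVec_mulVec, ← Matrix.zpow_add hBu]
  have hinj : ∀ (j : ℤ) (x : Fin n → ℝ), (B ^ j) *ᵥ x = 0 ↔ x = 0 := by
    intro j x
    constructor
    · intro h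
      rw [← zpow_mulVec_neg B hBdet j x, h, Matrix.mulVec_zero]
    · rintro rfl
      exact Matrix.mulVec_zero _
  have hBinv : B⁻¹ = B ^ (-1 : ℤ) := (Matrix.zpow_neg_one B).symm
  have hNinv : ∀ x, N (B⁻¹ *ᵥ x) ≤ κ * N x := by
    intro x
    have h1 := hBN (B⁻¹ *ᵥ x)
    rwa [Matrix.mulVec_mulVec, Matrix.mul_nonsing_inv B hBu, Matrix.one_mulVec] at h1
  -- the template
  obtain ⟨d, r, φ, hd, hr, hφs, hφd, hφon, hφcomp⟩ := template hn N hN κ hκ hκ1 n
  obtain ⟨c1, hc1, hN1⟩ := le_seminorm N hN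
  have hφc : ∀ s, HasCompactSupport (φ s) := by
    intro s
    refine HasCompactSupport.intro (isCompact_closedBall (0 : Fin n → ℝ) (d / c1)) fun x hx => ?_
    apply hφd
    rw [mem_closedBall_zero_iff, not_le, div_lt_iff₀ hc1] at hx
    have := hN1 x
    linarith
  -- the constant C
  obtain ⟨C, hC1, hC2, hC3⟩ : ∃ C : ℝ, 1 ≤ C ∧
      (∀ t ≤ m, ∀ x, N ((B ^ (-(s t))) *ᵥ x) ≤ C * N x) ∧
      (∀ t ≤ m, ∀ x, N ((B ^ (-(s t))) *ᵥ (B *ᵥ x)) ≤ C * N x) := by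
    choose c3 hc3 h3 using fun t => bound_mat N hN (B ^ (-(s t)))
    choose c4 hc4 h4 using fun t => bound_mat N hN ((B ^ (-(s t))) * B)
    have hc3' : ∀ t, 0 ≤ c3 t := fun t => (hc3 t).le
    have hc4' : ∀ t, 0 ≤ c4 t := fun t => (hc4 t).le
    refine ⟨1 + ∑ t ∈ Finset.range (m + 1), (c3 t + c4 t), ?_, ?_, ?_⟩
    · have : 0 ≤ ∑ t ∈ Finset.range (m + 1), (c3 t + c4 t) :=
        Finset.sum_nonneg fun t _ => add_nonneg (hc3' t) (hc4' t)
      linarith
    · intro t ht x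
      have h1 : c3 t + c4 t ≤ ∑ t ∈ Finset.range (m + 1), (c3 t + c4 t) :=
        Finset.single_le_sum (f := fun t => c3 t + c4 t)
          (fun t _ => add_nonneg (hc3' t) (hc4' t)) (Finset.mem_range.2 (by omega))
      have h2 := hc4' t
      refine (h3 t x).trans ?_
      gcongr
      linarith
    · intro t ht x
      have h1 : c3 t + c4 t ≤ ∑ t ∈ Finset.range (m + 1), (c3 t + c4 t) :=
        Finset.single_le_sum (f := fun t => c3 t + c4 t)
          (fun t _ => add_nonneg (hc3' t) (hc4' t)) (Finset.mem_range.2 (by omega))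
      have h2 := hc3' t
      have h5 := h4 t x
      rw [← Matrix.mulVec_mulVec] at h5
      refine h5.trans ?_
      gcongr
      linarith
  -- the constants ε, δ
  set ε : ℝ := κ ^ 2 / C with hε
  have hC0 : 0 < C := by linarith
  have hε0 : 0 < ε := by positivity
  have hm0 : (0 : ℝ) < m := by exact_mod_cast hm
  set δ : ℝ := ε * (κ⁻¹ - 1) / (2 * m) with hδ
  have hκinv : 0 < κ⁻¹ - 1 := by
    have := (one_lt_inv₀ hκ).2 hκ1
    linarith
  have hδ0 : 0 < δ := by positivity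
  have hδm : 2 * m * δ = ε * κ⁻¹ - ε := by
    rw [hδ]
    field_simp
  have hεκ : ε * κ⁻¹ = κ / C := by
    rw [hε]
    field_simp
  -- the vectors w
  have hw : ∀ t < m, w t ≠ 0 := by
    intro t ht h
    apply hv t ht
    have h1 := hvw t ht
    rw [h, zv_zero, Matrix.mulVec_zero, hinj] at h1
    exact zv_inj (by rw [h1, zv_zero])
  obtain ⟨Wm, hWm0, hWm⟩ : ∃ Wm : ℝ, 0 < Wm ∧ ∀ t < m, N (zv (w t)) ≤ Wm := by
    refine ⟨1 + ∑ t ∈ Finset.range m, N (zv (w t)), ?_, fun t ht => ?_⟩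
    · have : 0 ≤ ∑ t ∈ Finset.range m, N (zv (w t)) :=
        Finset.sum_nonneg fun t _ => apply_nonneg N _
      linarith
    · have h1 : N (zv (w t)) ≤ ∑ t ∈ Finset.range m, N (zv (w t)) :=
        Finset.single_le_sum (f := fun t => N (zv (w t))) (fun t _ => apply_nonneg N _)
          (Finset.mem_range.2 ht)
      linarith
  -- the constant η
  obtain ⟨η, hη0, hη1, hη2, hη3⟩ : ∃ η : ℝ, 0 < η ∧ η ≤ δ / 4 ∧ η ≤ ε / (4 * C ^ 2) ∧
      η * Wm ≤ δ / 2 * d := by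
    refine ⟨min (δ / 4) (min (ε / (4 * C ^ 2)) (δ / 2 * d / Wm)), ?_, min_le_left _ _, ?_, ?_⟩
    · positivity
    · exact (min_le_right _ _).trans (min_le_left _ _)
    · have h1 : min (δ / 4) (min (ε / (4 * C ^ 2)) (δ / 2 * d / Wm)) ≤ δ / 2 * d / Wm :=
        (min_le_right _ _).trans (min_le_right _ _)
      calc _ ≤ δ / 2 * d / Wm * Wm := by gcongr
        _ = _ := by field_simp
  have hηε : η * (4 * C ^ 2) ≤ ε := by
    rwa [le_div_iff₀ (by positivity)] at hη2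
  -- the integer k
  obtain ⟨J, hJ⟩ := exists_pow_lt_of_lt_one hη0 hκ1
  obtain ⟨l, hl⟩ : ∃ l : ℕ, 0 < p * l ∧ ∀ t < m, (J : ℤ) ≤ ((p * l : ℕ) : ℤ) - s t := by
    refine ⟨J + ∑ t ∈ Finset.range m, (s t).natAbs + 1, ?_, fun t ht => ?_⟩
    · positivity
    · have h1 : (s t).natAbs ≤ ∑ t ∈ Finset.range m, (s t).natAbs :=
        Finset.single_le_sum (f := fun t => (s t).natAbs) (fun t _ => Nat.zero_le _)
          (Finset.mem_range.2 ht)
      have h2 : J + ∑ t ∈ Finset.range m, (s t).natAbs + 1 ≤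
          p * (J + ∑ t ∈ Finset.range m, (s t).natAbs + 1) := Nat.le_mul_of_pos_left _ hp
      omega
  obtain ⟨q, D, hq, hD⟩ := hint l
  set k : ℕ := p * l with hk
  obtain ⟨hk0, hks⟩ := hl
  have hq0 : (0 : ℝ) < q := by exact_mod_cast hq
  have hq1 : (1 : ℝ) ≤ q := by exact_mod_cast hq
  have hE : ∀ t < m, ∀ x, N ((B ^ (-((k : ℤ) - s t))) *ᵥ x) ≤ η * N x := by
    intro t ht x
    have h1 := hks t ht
    obtain ⟨i, hi⟩ : ∃ i : ℕ, (i : ℤ) = (k : ℤ) - s t :=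
      ⟨((k : ℤ) - s t).toNat, Int.toNat_of_nonneg (le_trans (Int.natCast_nonneg J) h1)⟩
    rw [← hi]
    have h2 : J ≤ i := by
      rw [← hi] at h1
      exact_mod_cast h1
    refine (N_zpow_neg N hκ B hBdet hBN i x).trans ?_
    have h3 : κ ^ i ≤ κ ^ J := pow_le_pow_of_le_one hκ.le hκ1.le h2
    have h4 : 0 ≤ N x := apply_nonneg N x
    gcongr
    linarith
  -- the radii
  set Q : ℝ := q * d with hQ
  have hQ0 : 0 < Q := by positivity
  set Γ : ℕ → ℝ := fun t => ε + 2 * t * δ with hΓ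
  set Γ' : ℕ → ℝ := fun t => ε + (2 * t + 1) * δ with hΓ'
  have hΓm : Γ m = ε * κ⁻¹ := by
    simp only [hΓ]
    linarith
  have hΓ0 : Γ 0 = ε := by
    simp [hΓ]
  have hΓε : ∀ t, ε ≤ Γ t := by
    intro t
    simp only [hΓ]
    have : 0 ≤ 2 * (t : ℝ) * δ := by positivity
    linarith
  have hΓΓ' : ∀ t, Γ' t = Γ t + δ := by
    intro t
    simp only [hΓ, hΓ']
    ring
  have hΓ'Γ : ∀ t, Γ (t + 1) = Γ' t + δ := by
    intro t
    simp only [hΓ, hΓ']
    push_cast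
    ring
  have hΓle : ∀ t ≤ m, Γ t ≤ κ / C := by
    intro t ht
    rw [← hεκ, ← hΓm]
    simp only [hΓ]
    have : (t : ℝ) ≤ m := by exact_mod_cast ht
    nlinarith
  have hΓ'le : ∀ t < m, Γ' t ≤ κ / C := by
    intro t ht
    have h1 := hΓle (t + 1) ht
    rw [hΓ'Γ] at h1
    linarith
  -- the integers n_t
  have hnt : ∀ t, ∃ a : ℕ, t < m → (Γ' t + δ / 4) * Q ≤ a * N ((B ^ (-((k : ℤ) - s t))) *ᵥ zv (w t)) ∧
      a * N ((B ^ (-((k : ℤ) - s t))) *ᵥ zv (w t)) ≤ (Γ (t + 1) - δ / 4) * Q := by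
    intro t
    by_cases ht : t < m
    · have hu : 0 < N ((B ^ (-((k : ℤ) - s t))) *ᵥ zv (w t)) := by
        refine lt_of_le_of_ne (apply_nonneg N _) fun hcon => hw t ht ?_
        have h1 := hN _ hcon.symm
        rw [hinj] at h1
        exact zv_inj (by rw [h1, zv_zero])
      have h1 : N ((B ^ (-((k : ℤ) - s t))) *ᵥ zv (w t)) ≤ δ / 2 * Q := by
        refine (hE t ht _).trans ?_
        have h2 : η * N (zv (w t)) ≤ η * Wm := by
          gcongr
          exact hWm t ht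
        have h3 : δ / 2 * d ≤ δ / 2 * Q := by
          rw [hQ]
          have : d ≤ q * d := by nlinarith
          gcongr
        linarith
      obtain ⟨a, h2, h3⟩ := exists_nat_window hu (lo := (Γ' t + δ / 4) * Q)
        (hi := (Γ (t + 1) - δ / 4) * Q) (by
          rw [hΓ'Γ]
          nlinarith)
      refine ⟨a, fun _ => ⟨h2, h3 ?_⟩⟩
      have h4 := hΓε t
      have h5 := hΓΓ' t
      have : 0 ≤ Γ' t + δ / 4 := by linarith
      positivity
    · exact ⟨0, fun h => absurd h ht⟩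
  choose a ha using hnt
  -- the integer vectors
  set av : ℕ → Fin n → ℤ := fun t => (a t : ℤ) • w t with hav
  set bv : ℕ → Fin n → ℤ := fun t => if t = 0 then (a (m - 1) : ℤ) • v (m - 1) else
    (a (t - 1) : ℤ) • v (t - 1) with hbv
  set h : ℕ → Fin n → ℝ := fun t => (B ^ (s t)) *ᵥ zv (bv t) with hh
  have hha : ∀ t < m, h (t + 1) = (B ^ (s t)) *ᵥ zv (av t) := by
    intro t ht
    simp only [hh, hbv, hav, Nat.add_eq_zero_iff, one_ne_zero, and_false, if_false,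
      Nat.add_sub_cancel]
    rw [zv_nsmul, zv_nsmul, Matrix.mulVec_smul, Matrix.mulVec_smul, hvw t ht]
  have hhm : h m = B *ᵥ h 0 := by
    have h1 : bv m = bv 0 := by
      simp only [hbv, if_true, if_neg hm.ne']
    simp only [hh]
    rw [h1, hsm, hs0, zpow_zero, Matrix.one_mulVec, zpow_one]
  -- numerical facts
  have hav' : ∀ t < m, (Γ' t + δ / 4) * Q ≤ N ((B ^ (-((k : ℤ) - s t))) *ᵥ zv (av t)) ∧
      N ((B ^ (-((k : ℤ) - s t))) *ᵥ zv (av t)) ≤ (Γ (t + 1) - δ / 4) * Q := by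
    intro t ht
    simp only [hav]
    rw [zv_nsmul, Matrix.mulVec_smul, map_smul_eq_mul, Real.norm_natCast]
    exact ha t ht
  have hH1 : ∀ t < m, (B ^ (-(k : ℤ))) *ᵥ h (t + 1) = (B ^ (-((k : ℤ) - s t))) *ᵥ zv (av t) := by
    intro t ht
    rw [hha t ht, hadd]
    congr 2
    ring
  have hH0 : ∀ t, (B ^ (-(k : ℤ))) *ᵥ h t = (B ^ (-((k : ℤ) - s t))) *ᵥ zv (bv t) := by
    intro t
    simp only [hh]
    rw [hadd]
    congr 2
    ring
  have hHm : (B ^ (-(k : ℤ))) *ᵥ h m = B *ᵥ ((B ^ (-(k : ℤ))) *ᵥ h 0) := by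
    have h1 : ∀ x : Fin n → ℝ, B *ᵥ x = (B ^ (1 : ℤ)) *ᵥ x := by
      intro x
      rw [zpow_one]
    have h2 : h m = (B ^ (1 : ℤ)) *ᵥ h 0 := by rw [hhm, h1]
    have h3 : ∀ x : Fin n → ℝ, (B ^ (-(k : ℤ))) *ᵥ ((B ^ (1 : ℤ)) *ᵥ x) =
        (B ^ (1 : ℤ)) *ᵥ ((B ^ (-(k : ℤ))) *ᵥ x) := by
      intro x
      rw [hadd, hadd, add_comm]
    rw [h2, h3, ← h1]
  have hHlow : ∀ t < m, ε / C * Q ≤ N ((B ^ (-(k : ℤ))) *ᵥ h t) := by
    intro t ht
    have hεC : ε / C ≤ ε := by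
      rw [div_le_iff₀ hC0]
      nlinarith
    rcases Nat.eq_zero_or_pos t with h0 | h0
    · subst h0
      have h1 := (hav' (m - 1) (by omega)).1
      rw [← hH1 (m - 1) (by omega), Nat.sub_add_cancel hm, hHm] at h1
      have h2 := hC3 0 hm.le ((B ^ (-(k : ℤ))) *ᵥ h 0)
      rw [hs0, neg_zero, zpow_zero, Matrix.one_mulVec] at h2
      have h3 : ε * Q ≤ (Γ' (m - 1) + δ / 4) * Q := by
        have h4 := hΓε (m - 1)
        have h5 := hΓΓ' (m - 1)
        gcongr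
        linarith
      rw [div_mul_eq_mul_div, div_le_iff₀ hC0]
      linarith
    · obtain ⟨t', rfl⟩ : ∃ t', t = t' + 1 := ⟨t - 1, by omega⟩
      rw [hH1 t' (by omega)]
      have h1 := (hav' t' (by omega)).1
      have h3 : ε / C * Q ≤ (Γ' t' + δ / 4) * Q := by
        have h4 := hΓε t'
        have h5 := hΓΓ' t'
        gcongr
        linarith
      linarith
  have hHup : ∀ t < m, N ((B ^ (-(k : ℤ))) *ᵥ h t) ≤ Γ t * Q := by
    intro t ht
    rcases Nat.eq_zero_or_pos t with h0 | h0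
    · subst h0
      have h1 := (hav' (m - 1) (by omega)).2
      rw [← hH1 (m - 1) (by omega), Nat.sub_add_cancel hm, hHm, hΓm] at h1
      have h2 := hBN ((B ^ (-(k : ℤ))) *ᵥ h 0)
      rw [hΓ0]
      have h3 : κ * N (B *ᵥ ((B ^ (-(k : ℤ))) *ᵥ h 0)) ≤ κ * ((ε * κ⁻¹) * Q) := by
        gcongr
        nlinarith
      have h4 : κ * ((ε * κ⁻¹) * Q) = ε * Q := by field_simp
      linarith
    · obtain ⟨t', rfl⟩ : ∃ t', t = t' + 1 := ⟨t - 1, by omega⟩
      rw [hH1 t' (by omega)]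
      have h1 := (hav' t' (by omega)).2
      nlinarith
  have hNa : ∀ t < m, 2 * Q ≤ N (zv (av t)) := by
    intro t ht
    have h1 := (hav' t ht).1
    have h2 := hE t ht (zv (av t))
    have h4 := hΓε t
    have h5 := hΓΓ' t
    have h6 : ε * Q ≤ (Γ' t + δ / 4) * Q := by
      gcongr
      linarith
    have h7 : η * (2 * Q) ≤ ε * Q := by
      have hCC1 : 1 ≤ C ^ 2 := one_le_pow₀ hC1
      have : η * 2 ≤ ε := by nlinarith
      nlinarith
    have h8 : η * (2 * Q) ≤ η * N (zv (av t)) := by linarith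
    exact le_of_mul_le_mul_left h8 hη0
  have hNb' : ∀ t < m, 4 * C * Q ≤ N (zv (bv t)) := by
    intro t ht
    have h1 := hHlow t ht
    rw [hH0] at h1
    have h2 := hE t ht (zv (bv t))
    have h7 : η * (4 * C * Q) ≤ ε / C * Q := by
      have : η * (4 * C) ≤ ε / C := by
        rw [le_div_iff₀ hC0]
        nlinarith
      nlinarith
    have h8 : η * (4 * C * Q) ≤ η * N (zv (bv t)) := by linarith
    exact le_of_mul_le_mul_left h8 hη0
  have hNb : ∀ t < m, 2 * Q ≤ N (zv (bv t)) := by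
    intro t ht
    have h1 := hNb' t ht
    have : 2 * Q ≤ 4 * C * Q := by nlinarith
    linarith
  have hNh : ∀ t < m, 4 * Q ≤ N (h t) := by
    intro t ht
    have h1 := hC2 t ht.le (h t)
    have h2 : (B ^ (-(s t))) *ᵥ h t = zv (bv t) := by
      simp only [hh]
      exact zpow_mulVec_neg B hBdet _ _
    rw [h2] at h1
    have h3 := hNb' t ht
    have h4 : C * (4 * Q) ≤ C * N (h t) := by linarith
    exact le_of_mul_le_mul_left h4 hC0
  have hNab : ∀ t < m, 2 * Q ≤ N (zv (bv t) - zv (av t)) := by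
    intro t ht
    have h1 := (hav' t ht).1
    have h2 := hHup t ht
    rw [hH0] at h2
    have h3 := hE t ht (zv (bv t) - zv (av t))
    rw [Matrix.mulVec_sub] at h3
    have h4 : N ((B ^ (-((k : ℤ) - s t))) *ᵥ zv (av t)) ≤
        N ((B ^ (-((k : ℤ) - s t))) *ᵥ zv (bv t)) +
          N ((B ^ (-((k : ℤ) - s t))) *ᵥ zv (bv t) - (B ^ (-((k : ℤ) - s t))) *ᵥ zv (av t)) := by
      have := map_sub_le_add N ((B ^ (-((k : ℤ) - s t))) *ᵥ zv (bv t))
        ((B ^ (-((k : ℤ) - s t))) *ᵥ zv (bv t) - (B ^ (-((k : ℤ) - s t))) *ᵥ zv (av t))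
      rwa [sub_sub_cancel] at this
    have h5 := hΓΓ' t
    have h6 : δ * Q ≤ η * N (zv (bv t) - zv (av t)) := by
      have h7 : (Γ' t + δ / 4) * Q - Γ t * Q = (δ + δ / 4) * Q := by
        rw [h5]; ring
      nlinarith
    have h8 : η * (2 * Q) ≤ η * N (zv (bv t) - zv (av t)) := by
      have : η * (2 * Q) ≤ δ * Q := by nlinarith
      linarith
    exact le_of_mul_le_mul_left h8 hη0
  -- the walls
  have hwall : ∀ t, ∃ R : RotData n, t < m → R.h = h t ∧ (∀ x, N x ≤ Γ t * Q → R.σ x = 1) ∧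
      (∀ x ∈ R.S, N x ≤ Γ' t * Q) := by
    intro t
    by_cases ht : t < m
    · obtain ⟨R, h1, h2, h3⟩ := exists_rot N hN (ρ := Γ t * Q) (ρ' := Γ' t * Q)
        (by rw [hΓΓ']; nlinarith) (h t) (by
          have h4 := hΓ'le t ht
          have h5 := hNh t ht
          have h6 : κ / C ≤ 1 := by
            rw [div_le_iff₀ hC0]
            linarith
          nlinarith)
      exact ⟨R, fun _ => ⟨h1, h2, h3⟩⟩
    · obtain ⟨R, h1, h2, h3⟩ := exists_rot N hN (ρ := -2) (ρ' := -1) (by norm_num) (0 : Fin n → ℝ)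
        (by rw [map_zero]; norm_num)
      exact ⟨R, fun h => absurd h ht⟩
  choose W0 hW0 using hwall
  have hBinvdet : (B⁻¹).det ≠ 0 := by
    rw [hBinv]; exact det_zpow_ne B hBdet _
  set W : ℕ → RotData n := fun t => if t < m then W0 t else (W0 0).pull B⁻¹ hBinvdet with hW
  have hWt : ∀ t < m, W t = W0 t := by
    intro t ht
    simp only [hW, if_pos ht]
  have hWm' : W m = (W0 0).pull B⁻¹ hBinvdet := by
    simp only [hW, if_neg (lt_irrefl m)]
  have hWh : ∀ t ≤ m, (W t).h = h t := by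
    intro t ht
    rcases ht.lt_or_eq with h1 | h1
    · rw [hWt t h1]
      exact (hW0 t h1).1
    · subst h1
      rw [hWm']
      change (B⁻¹)⁻¹ *ᵥ (W0 0).h = _
      rw [Matrix.nonsing_inv_nonsing_inv B hBu, (hW0 0 hm).1, hhm]
  have hA : ∀ t ≤ m, ∀ x, N x ≤ Γ t * Q → (W t).σ x = 1 := by
    intro t ht x hx
    rcases ht.lt_or_eq with h1 | h1
    · rw [hWt t h1]
      exact (hW0 t h1).2.1 x hx
    · subst h1
      rw [hWm']
      change (W0 0).σ (B⁻¹ *ᵥ x) = 1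
      apply (hW0 0 hm).2.1
      rw [hΓm] at hx
      rw [hΓ0]
      have h2 := hNinv x
      have h3 : κ * N x ≤ κ * ((ε * κ⁻¹) * Q) := by gcongr
      have h4 : κ * ((ε * κ⁻¹) * Q) = ε * Q := by field_simp
      linarith
  have hBt : ∀ t < m, ∀ x ∈ (W t).S, N x ≤ Γ' t * Q := by
    intro t ht x hx
    rw [hWt t ht] at hx
    exact (hW0 t ht).2.2 x hx
  have hCC : ∀ t < m, ∀ x ∈ (W (t + 1)).S, N ((B ^ (-(s t))) *ᵥ x) ≤ q * (κ * d) := by
    intro t ht x hx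
    have hqd : (q : ℝ) * (κ * d) = C * (κ / C * Q) := by
      rw [hQ]; field_simp
    rw [hqd]
    rcases (Nat.succ_le_of_lt ht).lt_or_eq with h1 | h1
    · have h2 := hBt (t + 1) h1 x hx
      have h3 := hΓ'le (t + 1) h1
      refine (hC2 t ht.le x).trans ?_
      gcongr
      exact h2.trans (by gcongr)
    · have h1' : t + 1 = m := h1
      rw [h1', hWm'] at hx
      have hx' : B⁻¹ *ᵥ x ∈ (W0 0).S := hx
      have h2 := (hW0 0 hm).2.2 _ hx'
      have h3 := hΓ'le 0 hm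
      have h4 := hC3 t ht.le (B⁻¹ *ᵥ x)
      have e5 : B *ᵥ (B⁻¹ *ᵥ x) = x := by
        rw [Matrix.mulVec_mulVec, Matrix.mul_nonsing_inv B hBu, Matrix.one_mulVec]
      rw [e5] at h4
      refine h4.trans ?_
      gcongr
      exact h2.trans (by gcongr)
  have hκQ : (q : ℝ) * (κ * d) < Q := by
    rw [hQ]
    have : κ * d < d := by nlinarith
    nlinarith
  have hG2 : ∀ t < m, ∀ x ∈ (W (t + 1)).S, Q ≤ N ((B ^ (-(s t))) *ᵥ x - zv (av t)) := by
    intro t ht x hx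
    have h1 := hCC t ht x hx
    have h2 := hNa t ht
    have h3 : N (zv (av t)) ≤ N ((B ^ (-(s t))) *ᵥ x) +
        N ((B ^ (-(s t))) *ᵥ x - zv (av t)) := by
      have := map_sub_le_add N ((B ^ (-(s t))) *ᵥ x) ((B ^ (-(s t))) *ᵥ x - zv (av t))
      rwa [sub_sub_cancel] at this
    linarith
  have hoff : ∀ t, ∀ x, (W t).σ x = 1 → x ∈ (W t).S := by
    intro t x h
    by_contra hcon
    have := ((W t).off x hcon).1
    rw [h] at this
    exact one_ne_zero this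
  have hdist : ∀ t < m, ∀ x, N ((B ^ ((k : ℤ) - s t)) *ᵥ x - zv (av t)) < Q →
      N (x - (B ^ (-((k : ℤ) - s t))) *ᵥ zv (av t)) ≤ δ / 4 * Q := by
    intro t ht x hx
    have h1 := hE t ht ((B ^ ((k : ℤ) - s t)) *ᵥ x - zv (av t))
    rw [Matrix.mulVec_sub, zpow_mulVec_neg B hBdet] at h1
    refine h1.trans ?_
    have h2 : 0 ≤ N ((B ^ ((k : ℤ) - s t)) *ᵥ x - zv (av t)) := apply_nonneg N _
    calc _ ≤ η * Q := by gcongr
      _ ≤ δ / 4 * Q := by gcongr
  have hG3 : ∀ t < m, ∀ x, N ((B ^ ((k : ℤ) - s t)) *ᵥ x - zv (av t)) < Q →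
      (W (t + 1)).σ x = 1 := by
    intro t ht x hx
    have h1 := hdist t ht x hx
    have h2 := (hav' t ht).2
    apply hA (t + 1) ht
    have h3 : N x ≤ N (x - (B ^ (-((k : ℤ) - s t))) *ᵥ zv (av t)) +
        N ((B ^ (-((k : ℤ) - s t))) *ᵥ zv (av t)) := by
      have := map_add_le_add N (x - (B ^ (-((k : ℤ) - s t))) *ᵥ zv (av t))
        ((B ^ (-((k : ℤ) - s t))) *ᵥ zv (av t))
      rwa [sub_add_cancel] at this
    nlinarith
  have hG4 : ∀ t < m, ∀ x ∈ (W t).S, (W (t + 1)).σ x = 1 := by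
    intro t ht x hx
    apply hA (t + 1) ht
    have h1 := hBt t ht x hx
    rw [hΓ'Γ]
    nlinarith
  refine assemble hn hr N hN φ hκ hκ1 hd hφs hφc hφd hφon hφcomp B hBN hB hq hk0 D hD m hm s W
    av bv ?_ ?_ hCC hG2 ?_ ?_ ?_ ?_ ?_
  · intro t ht
    rw [hWh (t + 1) ht, hha t ht]
  · intro t ht
    rw [hWh t ht.le]
  · intro t ht x hx
    exact ⟨hG3 t ht x hx, hG2 t ht x (hoff _ _ (hG3 t ht x hx))⟩
  · intro t ht x hx
    refine ⟨hG4 t ht x hx, hG2 t ht x (hoff _ _ (hG4 t ht x hx)), ?_⟩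
    by_contra hcon
    rw [not_le] at hcon
    have h1 := hdist t ht x hcon
    have h2 := (hav' t ht).1
    have h3 := hBt t ht x hx
    have h4 : N ((B ^ (-((k : ℤ) - s t))) *ᵥ zv (av t)) ≤ N x +
        N (x - (B ^ (-((k : ℤ) - s t))) *ᵥ zv (av t)) := by
      have := map_sub_le_add N x (x - (B ^ (-((k : ℤ) - s t))) *ᵥ zv (av t))
      rwa [sub_sub_cancel] at this
    have h5 : N ((B ^ (-((k : ℤ) - s t))) *ᵥ zv (av t)) = (Γ' t + δ / 4) * Q := by nlinarith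
    -- the strict inequality
    have h6 := hE t ht ((B ^ ((k : ℤ) - s t)) *ᵥ x - zv (av t))
    rw [Matrix.mulVec_sub, zpow_mulVec_neg B hBdet] at h6
    have h7 : η * N ((B ^ ((k : ℤ) - s t)) *ᵥ x - zv (av t)) < η * Q := by gcongr
    have h8 : η * Q ≤ δ / 4 * Q := by gcongr
    nlinarith
  · intro t ht x hx
    have e1 : (B ^ (-(s t))) *ᵥ (x + (W t).h) = (B ^ (-(s t))) *ᵥ x + zv (bv t) := by
      rw [hWh t ht.le, Matrix.mulVec_add]
      simp only [hh]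
      rw [zpow_mulVec_neg B hBdet]
    have h1 := hCC t ht x (hoff _ _ (hG4 t ht x hx))
    have h2 := hNb t ht
    have h3 := hNab t ht
    have h4 : x + (W t).h ∉ (W (t + 1)).S := by
      intro hcon
      have h5 := hCC t ht _ hcon
      rw [e1] at h5
      have h6 : N (zv (bv t)) ≤ N ((B ^ (-(s t))) *ᵥ x + zv (bv t)) +
          N ((B ^ (-(s t))) *ᵥ x) := by
        have := map_sub_le_add N ((B ^ (-(s t))) *ᵥ x + zv (bv t)) ((B ^ (-(s t))) *ᵥ x)
        rwa [add_sub_cancel_left] at this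
      linarith
    refine ⟨h4, ?_, ?_⟩
    · rw [e1]
      have h6 : N (zv (bv t) - zv (av t)) ≤ N ((B ^ (-(s t))) *ᵥ x + zv (bv t) - zv (av t)) +
          N ((B ^ (-(s t))) *ᵥ x) := by
        have := map_sub_le_add N ((B ^ (-(s t))) *ᵥ x + zv (bv t) - zv (av t))
          ((B ^ (-(s t))) *ᵥ x)
        have e : (B ^ (-(s t))) *ᵥ x + zv (bv t) - zv (av t) - (B ^ (-(s t))) *ᵥ x =
            zv (bv t) - zv (av t) := by abel
        rwa [e] at this
      linarith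
    · by_contra hcon
      rw [not_le] at hcon
      exact h4 (hoff _ _ (hG3 t ht _ hcon))
  · refine ⟨ε * Q, by positivity, fun t ht x hx => hA t ht.le x (hx.trans ?_)⟩
    have := hΓε t
    gcongr
  · intro ξ μ
    rw [hWm', RotData.pull_theta, hWt 0 hm]

end Pool.Agent.Helper54.Wav
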