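import Pool.Agent.Helper54.Wav.Exp

/-!
# Periodized operators
-/

set_option autoImplicit false

open MeasureTheory Matrix Set Module
open scoped ComplexConjugate ContDiff ENNReal InnerProductSpace

namespace Pool.Agent.Helper54.Wav

variable {n : ℕ}

/-- centered representatives -/
def rep (h : ℕ) (t : Fin n → Fin (2 * h + 1)) : Fin n → ℤ := fun i => ((t i : ℕ) : ℤ) - h

lemma rep_inj (h : ℕ) : Function.Injective (rep (n := n) h) := by
  intro t t' htt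
  funext i
  have := congrFun htt i
  simp only [rep] at this
  apply Fin.ext
  omega

/-- the orthonormal basis `e_t(ξ)` -/
noncomputable def et (h : ℕ) (t : Fin n → Fin (2 * h + 1)) (ξ : Fin n → ℝ) : VV n (2 * h + 1) :=
  ev (2 * h + 1) (ξ + zv (rep h t))

lemma et_contDiff (h : ℕ) (t : Fin n → Fin (2 * h + 1)) : ContDiff ℝ ∞ (et h t) :=
  (ev_contDiff _).comp (contDiff_id.add contDiff_const)

lemma et_orthonormal (h : ℕ) (ξ : Fin n → ℝ) :
    Orthonormal ℂ (fun t : Fin n → Fin (2 * h + 1) => et h t ξ) := by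
  classical
  rw [orthonormal_iff_ite]
  intro t t'
  have h1 : et h t' ξ = ev (2 * h + 1) ((ξ + zv (rep h t)) + zv (rep h t' - rep h t)) := by
    unfold et
    congr 1
    rw [sub_eq_add_neg, zv_add, zv_neg]
    abel
  rw [h1, et, inner_ev _ (by omega)]
  by_cases htt : t = t'
  · subst htt
    simp
  · rw [if_neg htt, if_neg]
    intro hcon
    apply htt
    funext i
    have h2 := hcon i
    simp only [rep, Pi.sub_apply] at h2
    have h3 := (t i).isLt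
    have h4 := (t' i).isLt
    obtain ⟨c, hc⟩ := h2
    apply Fin.ext
    have h5 : c = 0 := by
      push_cast at hc
      by_contra hne
      rcases lt_or_gt_of_ne hne with hlt | hgt
      · have : c ≤ -1 := by omega
        nlinarith
      · have : 1 ≤ c := by omega
        nlinarith
    subst h5
    push_cast at hc
    omega

/-- the closed unit cube -/
def QQ (n : ℕ) : Set (Fin n → ℝ) := {ξ | ∀ i, 0 ≤ ξ i ∧ ξ i ≤ 1}

lemma exists_QQ (ξ : Fin n → ℝ) : ∃ m : Fin n → ℤ, ξ + zv m ∈ QQ n := by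
  refine ⟨fun i => -⌊ξ i⌋, fun i => ?_⟩
  have h1 := Int.floor_le (ξ i)
  have h2 := Int.lt_floor_add_one (ξ i)
  simp only [Pi.add_apply, zv, Int.cast_neg]
  constructor <;> linarith

lemma exists_rep {h : ℕ} {ξ : Fin n → ℝ} (hξ : ξ ∈ QQ n) {m : Fin n → ℤ}
    (hm : ‖ξ + zv m‖ < h) : ∃ t : Fin n → Fin (2 * h + 1), rep h t = m := by
  have h1 : ∀ i, -(h : ℤ) ≤ m i ∧ m i ≤ h := by
    intro i
    have h2 : ‖(ξ + zv m) i‖ < h := (norm_le_pi_norm _ i).trans_lt hm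
    rw [Real.norm_eq_abs, abs_lt] at h2
    simp only [Pi.add_apply, zv] at h2
    have h3 := hξ i
    have h4 : (-(h : ℤ) - 1 : ℝ) < m i := by push_cast; linarith
    have h5 : (m i : ℝ) < h := by linarith
    constructor
    · have : (-(h : ℤ) - 1 : ℤ) < m i := by exact_mod_cast h4
      omega
    · have : m i < (h : ℤ) := by exact_mod_cast h5
      omega
  refine ⟨fun i => ⟨(m i + h).toNat, ?_⟩, ?_⟩
  · have := h1 i
    omega
  · funext i
    have := h1 i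
    simp only [rep]
    omega

/-- the periodized operator `v ↦ Σ_m γ(ξ+m) ⟨e(ξ+m), v⟩ e(ξ+m)` -/
noncomputable def opv (h : ℕ) (γ : (Fin n → ℝ) → ℝ) (ξ : Fin n → ℝ) (v : VV n (2 * h + 1)) :
    VV n (2 * h + 1) :=
  ∑ᶠ m : Fin n → ℤ, ((γ (ξ + zv m) : ℂ) * ⟪ev (2 * h + 1) (ξ + zv m), v⟫_ℂ) •
    ev (2 * h + 1) (ξ + zv m)

lemma opv_eq {h : ℕ} {γ : (Fin n → ℝ) → ℝ} (hγ : ∀ x, (h : ℝ) ≤ ‖x‖ → γ x = 0)
    {ξ : Fin n → ℝ} (hξ : ξ ∈ QQ n) (v : VV n (2 * h + 1)) :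
    opv h γ ξ v = ∑ t, ((γ (ξ + zv (rep h t)) : ℂ) * ⟪et h t ξ, v⟫_ℂ) • et h t ξ := by
  classical
  unfold opv
  rw [finsum_eq_sum_of_support_subset (s := Finset.univ.image (rep h))]
  · rw [Finset.sum_image (fun a _ b _ hab => rep_inj h hab)]
    rfl
  · intro m hm
    have h1 : γ (ξ + zv m) ≠ 0 := by
      intro hcon
      apply hm
      simp [hcon]
    have h2 : ‖ξ + zv m‖ < h := by
      by_contra hcon
      push Not at hcon
      exact h1 (hγ _ hcon)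
    obtain ⟨t, ht⟩ := exists_rep hξ h2
    rw [Finset.coe_image]
    exact ⟨t, by simp, ht⟩

lemma opv_per {h : ℕ} (γ : (Fin n → ℝ) → ℝ) (ξ : Fin n → ℝ) (k : Fin n → ℤ)
    (v : VV n (2 * h + 1)) : opv h γ (ξ + zv k) v = opv h γ ξ v := by
  unfold opv
  rw [← finsum_comp_equiv (Equiv.addLeft k) (f := fun m : Fin n → ℤ =>
    ((γ (ξ + zv m) : ℂ) * ⟪ev (2 * h + 1) (ξ + zv m), v⟫_ℂ) • ev (2 * h + 1) (ξ + zv m))]
  refine finsum_congr fun m => ?_
  have : ξ + zv k + zv m = ξ + zv ((Equiv.addLeft k) m) := by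
    simp [zv_add, add_assoc]
  rw [this]

lemma opv_smooth {h : ℕ} {γ : (Fin n → ℝ) → ℝ} (hγs : ContDiff ℝ ∞ γ)
    (hγ : ∀ x, (h : ℝ) ≤ ‖x‖ → γ x = 0) {v : (Fin n → ℝ) → VV n (2 * h + 1)}
    (hv : ContDiff ℝ ∞ v) : ContDiff ℝ ∞ (fun ξ => opv h γ ξ (v ξ)) := by
  classical
  rw [contDiff_iff_contDiffAt]
  intro ξ₀
  have hfin := finite_shift ξ₀ (h + 1 : ℝ)
  have h2 : (fun ξ => opv h γ ξ (v ξ)) =ᶠ[nhds ξ₀] fun ξ =>
      ∑ m ∈ hfin.toFinset, ((γ (ξ + zv m) : ℂ) * ⟪ev (2 * h + 1) (ξ + zv m), v ξ⟫_ℂ) •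
        ev (2 * h + 1) (ξ + zv m) := by
    filter_upwards [Metric.ball_mem_nhds ξ₀ one_pos] with ξ hξ
    unfold opv
    apply finsum_eq_sum_of_support_subset
    intro m hm
    rw [Set.Finite.coe_toFinset]
    change ‖ξ₀ + zv m‖ ≤ h + 1
    have h1 : γ (ξ + zv m) ≠ 0 := by
      intro hcon
      apply hm
      simp [hcon]
    have h2 : ‖ξ + zv m‖ < h := by
      by_contra hcon
      push Not at hcon
      exact h1 (hγ _ hcon)
    have h3 : ‖ξ - ξ₀‖ < 1 := by rwa [← dist_eq_norm]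
    have h4 : ‖ξ₀ + zv m‖ ≤ ‖ξ + zv m‖ + ‖ξ - ξ₀‖ := by
      have : ξ₀ + zv m = (ξ + zv m) - (ξ - ξ₀) := by abel
      rw [this]
      exact norm_sub_le _ _
    linarith
  refine ContDiffAt.congr_of_eventuallyEq ?_ h2
  refine ContDiffAt.sum fun m _ => ?_
  have h3 : ContDiff ℝ ∞ (fun ξ : Fin n → ℝ => ξ + zv m) := contDiff_id.add contDiff_const
  have h4 : ContDiff ℝ ∞ (fun ξ : Fin n → ℝ => (γ (ξ + zv m) : ℂ)) :=
    Complex.ofRealCLM.contDiff.comp (hγs.comp h3)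
  have h5 : ContDiff ℝ ∞ (fun ξ : Fin n → ℝ => ev (2 * h + 1) (ξ + zv m)) :=
    (ev_contDiff _).comp h3
  have h6 : ContDiff ℝ ∞ (fun ξ : Fin n → ℝ => ⟪ev (2 * h + 1) (ξ + zv m), v ξ⟫_ℂ) :=
    h5.inner ℂ hv
  exact ((h4.mul h6).smul h5).contDiffAt

end Pool.Agent.Helper54.Wav
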