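import Pool.Agent.Helper54.Wav.RotKer

/-!
# One piece of the construction
-/

set_option autoImplicit false

open MeasureTheory Matrix Set
open scoped ComplexConjugate ContDiff ENNReal

namespace Pool.Agent.Helper54.Wav

variable {n : ℕ}

lemma smul_one_map (q : ℕ) : ((q : ℤ) • (1 : Matrix (Fin n) (Fin n) ℤ)).map (fun z : ℤ => (z : ℝ)) =
    (q : ℝ) • (1 : Matrix (Fin n) (Fin n) ℝ) := by
  ext i j
  rw [Matrix.map_apply, Matrix.smul_apply, Matrix.smul_apply, Matrix.one_apply,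
    Matrix.one_apply, smul_eq_mul, smul_eq_mul]
  split_ifs <;> simp

lemma smul_one_inv {q : ℕ} (hq : (q : ℝ) ≠ 0) (x : Fin n → ℝ) :
    (((q : ℤ) • (1 : Matrix (Fin n) (Fin n) ℤ)).map (fun z : ℤ => (z : ℝ)))⁻¹ *ᵥ x =
      (q : ℝ)⁻¹ • x := by
  rw [smul_one_map]
  have h1 : ((q : ℝ) • (1 : Matrix (Fin n) (Fin n) ℝ))⁻¹ = (q : ℝ)⁻¹ • 1 := by
    apply Matrix.inv_eq_right_inv
    rw [Matrix.smul_mul, Matrix.one_mul, smul_smul, mul_inv_cancel₀ hq, one_smul]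
  rw [h1, Matrix.smul_mulVec, Matrix.one_mulVec]

lemma smul_inv_mulVec {q : ℕ} (hq : (q : ℝ) ≠ 0) {M : Matrix (Fin n) (Fin n) ℝ} (hM : IsUnit M.det)
    (x : Fin n → ℝ) : ((q : ℝ) • M)⁻¹ *ᵥ x = (q : ℝ)⁻¹ • (M⁻¹ *ᵥ x) := by
  have h1 : ((q : ℝ) • M)⁻¹ = (q : ℝ)⁻¹ • M⁻¹ := by
    apply Matrix.inv_eq_right_inv
    rw [Matrix.smul_mul, Matrix.mul_smul, smul_smul, Matrix.mul_nonsing_inv M hM,
      mul_inv_cancel₀ hq, one_smul]
  rw [h1, Matrix.smul_mulVec]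

lemma norm_div_le (N : Seminorm ℝ (Fin n → ℝ)) {q : ℕ} (hq : 0 < q) (x : Fin n → ℝ) (c : ℝ) :
    N ((q : ℝ)⁻¹ • x) ≤ c ↔ N x ≤ q * c := by
  have hq' : (0 : ℝ) < q := by exact_mod_cast hq
  rw [map_smul_eq_mul, norm_inv, Real.norm_natCast, inv_mul_le_iff₀ hq']

lemma le_norm_div (N : Seminorm ℝ (Fin n → ℝ)) {q : ℕ} (hq : 0 < q) (x : Fin n → ℝ) (c : ℝ) :
    c ≤ N ((q : ℝ)⁻¹ • x) ↔ q * c ≤ N x := by
  have hq' : (0 : ℝ) < q := by exact_mod_cast hq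
  rw [map_smul_eq_mul, norm_inv, Real.norm_natCast, le_inv_mul_iff₀ hq']

/-- a piece of the construction -/
theorem piece (hn : 0 < n) {r : ℕ} (hr : n ≤ r) (N : Seminorm ℝ (Fin n → ℝ))
    (φ : Fin r → (Fin n → ℝ) → ℂ) {κ d : ℝ} (hκ1 : κ < 1) (hd : 0 < d)
    (hφs : ∀ s, ContDiff ℝ ∞ (φ s)) (hφc : ∀ s, HasCompactSupport (φ s))
    (hφd : ∀ s x, d ≤ N x → φ s x = 0)
    (hφon : ∀ s t ξ, ∑ᶠ m : Fin n → ℤ, φ s (ξ + zv m) * conj (φ t (ξ + zv m)) =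
        if s = t then 1 else 0)
    (hφcomp : ∀ ξ m, N ξ ≤ κ * d → ∑ s, φ s ξ * conj (φ s (ξ + zv m)) = if m = 0 then 1 else 0)
    (B : Matrix (Fin n) (Fin n) ℝ) (hB : 1 < |B.det|) {q k : ℕ} (hq : 0 < q) (hk : 0 < k)
    (D : Matrix (Fin n) (Fin n) ℤ)
    (hD : D.map (fun z : ℤ => (z : ℝ)) = (q : ℝ) • B ^ (-(k : ℤ)))
    (a b : Fin n → ℤ) (R₁ R₀ : RotData n) (ha : R₁.h = zv a) (hb : R₀.h = zv b)
    (g1 : ∀ ξ ∈ R₁.S, N ξ ≤ q * (κ * d)) (g2 : ∀ ξ ∈ R₁.S, q * d ≤ N (ξ - zv a))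
    (g3 : ∀ ξ, N ((B ^ (k : ℤ)) *ᵥ ξ - zv a) < q * d → R₁.σ ξ = 1 ∧ q * d ≤ N (ξ - zv a))
    (g4 : ∀ ξ ∈ R₀.S, R₁.σ ξ = 1 ∧ q * d ≤ N (ξ - zv a) ∧
      q * d ≤ N ((B ^ (k : ℤ)) *ᵥ ξ - zv a))
    (g5 : ∀ ξ ∈ R₀.S, (ξ + zv b) ∉ R₁.S ∧ q * d ≤ N (ξ + zv b - zv a) ∧
      q * d ≤ N ((B ^ (k : ℤ)) *ᵥ (ξ + zv b) - zv a))
    (g6 : ∃ ε > 0, ∀ ξ : Fin n → ℝ, ‖ξ‖ < ε → R₀.σ ξ = 1) :
    ∃ (L : ℕ) (g : Fin L → (Fin n → ℝ) → ℂ), 0 < L ∧ (∀ l, ContDiff ℝ ∞ (g l)) ∧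
      (∀ l, HasCompactSupport (g l)) ∧ (∃ ε > 0, ∀ l ξ, ‖ξ‖ < ε → g l ξ = 0) ∧
      (∀ l, ∫ ξ, ‖g l ξ‖ ^ 2 = 1) ∧
      (∀ ξ μ, ker g ξ μ = ker φ ((q : ℝ)⁻¹ • (ξ - zv a)) ((q : ℝ)⁻¹ • μ) -
        ker φ ((q : ℝ)⁻¹ • ((B ^ (k : ℤ)) *ᵥ ξ - zv a)) ((q : ℝ)⁻¹ • ((B ^ (k : ℤ)) *ᵥ μ)) +
        R₁.theta ξ μ - R₀.theta ξ μ) := by
  classical
  have hBdet : B.det ≠ 0 := by
    intro h
    rw [h, abs_zero] at hB
    linarith
  have hBu : IsUnit B.det := isUnit_iff_ne_zero.2 hBdet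
  have hq0 : (0 : ℝ) < q := by exact_mod_cast hq
  have hq' : (q : ℝ) ≠ 0 := hq0.ne'
  have hn0 : ∀ x : Fin n → ℝ, q * d ≤ N x → ∀ s, φ s ((q : ℝ)⁻¹ • x) = 0 := by
    intro x hx s
    exact hφd s _ ((le_norm_div N hq x d).2 hx)
  -- the translated template
  set φa : Fin r → (Fin n → ℝ) → ℂ := fun s x => φ s (x - (q : ℝ)⁻¹ • zv a) with hφa
  have hφa' : ∀ s (x : Fin n → ℝ), φa s ((q : ℝ)⁻¹ • x) = φ s ((q : ℝ)⁻¹ • (x - zv a)) := by
    intro s x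
    simp only [hφa, smul_sub]
  have hkera : ∀ x y : Fin n → ℝ, ker φa ((q : ℝ)⁻¹ • x) y = ker φ ((q : ℝ)⁻¹ • (x - zv a)) y := by
    intro x y
    unfold ker
    split_ifs
    · refine Finset.sum_congr rfl fun s _ => ?_
      have e : (q : ℝ)⁻¹ • x + y - (q : ℝ)⁻¹ • zv a = (q : ℝ)⁻¹ • (x - zv a) + y := by
        rw [smul_sub]; abel
      rw [hφa', hφa]
      simp only [e]
    · rfl
  have hφas : ∀ s, ContDiff ℝ ∞ (φa s) := fun s =>
    (hφs s).comp (contDiff_id.sub contDiff_const)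
  have hφac : ∀ s, HasCompactSupport (φa s) := fun s =>
    (hφc s).comp_homeomorph (Homeomorph.subRight ((q : ℝ)⁻¹ • zv a))
  have hφaon : ∀ s t ξ, ∑ᶠ m : Fin n → ℤ, φa s (ξ + zv m) * conj (φa t (ξ + zv m)) =
        if s = t then 1 else 0 := by
    intro s t ξ
    rw [← hφon s t (ξ - (q : ℝ)⁻¹ • zv a)]
    refine finsum_congr fun m => ?_
    have e : ξ + zv m - (q : ℝ)⁻¹ • zv a = ξ - (q : ℝ)⁻¹ • zv a + zv m := by abel
    simp only [hφa, e]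
  -- the determinants
  have hD0det : ((q : ℤ) • (1 : Matrix (Fin n) (Fin n) ℤ)).det = (q : ℤ) ^ n := by
    rw [Matrix.det_smul, Matrix.det_one, Fintype.card_fin, mul_one]
  have hD0det' : ((q : ℤ) • (1 : Matrix (Fin n) (Fin n) ℤ)).det ≠ 0 := by
    rw [hD0det]; positivity
  have hBk : (B ^ (-(k : ℤ))).det ≠ 0 := det_zpow_ne B hBdet _
  have hBkinv : (B ^ (-(k : ℤ)))⁻¹ = B ^ (k : ℤ) := by
    rw [← Matrix.zpow_neg hBu, neg_neg]
  have hBkdet : |(B ^ (-(k : ℤ))).det| < 1 := by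
    have h1 : (B ^ (-(k : ℤ))).det * (B ^ (k : ℤ)).det = 1 := by
      rw [← Matrix.det_mul, ← Matrix.zpow_add hBu, neg_add_cancel, zpow_zero, Matrix.det_one]
    have h2 : 1 < |(B ^ (k : ℤ)).det| := by
      rw [zpow_natCast, Matrix.det_pow, abs_pow]
      exact one_lt_pow₀ hB hk.ne'
    have h3 : |(B ^ (-(k : ℤ))).det| * |(B ^ (k : ℤ)).det| = 1 := by
      rw [← abs_mul, h1, abs_one]
    have h4 : 0 < |(B ^ (-(k : ℤ))).det| := abs_pos.2 hBk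
    nlinarith
  have hDdetR : ((D.det : ℤ) : ℝ) = (q : ℝ) ^ n * (B ^ (-(k : ℤ))).det := by
    have h1 := (Int.castRingHom ℝ).map_det D
    rw [RingHom.mapMatrix_apply] at h1
    have h2 : D.map (Int.castRingHom ℝ) = (q : ℝ) • B ^ (-(k : ℤ)) := hD
    rw [h2, Matrix.det_smul, Fintype.card_fin] at h1
    simpa using h1
  have hDdet : D.det ≠ 0 := by
    intro h
    rw [h] at hDdetR
    have : (q : ℝ) ^ n * (B ^ (-(k : ℤ))).det ≠ 0 := mul_ne_zero (pow_ne_zero _ hq') hBk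
    exact this (by simpa using hDdetR.symm)
  obtain ⟨L, hL, hLr⟩ : ∃ L, ((q : ℤ) • (1 : Matrix (Fin n) (Fin n) ℤ)).det.natAbs * r =
      D.det.natAbs * r + L ∧ n ≤ L := by
    have h1 : ((q : ℤ) • (1 : Matrix (Fin n) (Fin n) ℤ)).det.natAbs = q ^ n := by
      rw [hD0det, Int.natAbs_pow, Int.natAbs_natCast]
    have h2 : D.det.natAbs + 1 ≤ q ^ n := by
      have h3 : ((D.det.natAbs : ℕ) : ℝ) < ((q : ℝ) ^ n) := by
        have h4 : ((D.det.natAbs : ℕ) : ℝ) = |((D.det : ℤ) : ℝ)| := by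
          rw [← Int.cast_abs, Int.abs_eq_natAbs, Int.cast_natCast]
        rw [h4, hDdetR, abs_mul, abs_of_pos (by positivity)]
        have : 0 < (q : ℝ) ^ n := by positivity
        nlinarith
      exact_mod_cast h3
    refine ⟨(q ^ n - D.det.natAbs) * r, ?_, ?_⟩
    · rw [h1, ← add_mul, Nat.add_sub_cancel' (by omega)]
    · have h5 : 1 ≤ q ^ n - D.det.natAbs := by omega
      calc n ≤ r := hr
        _ = 1 * r := (one_mul r).symm
        _ ≤ _ := Nat.mul_le_mul_right r h5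
  -- the two scaled frames
  have hS1 := Pool.Agent.Helper96.Wav.scale_frame φa hφas hφac hφaon _ hD0det'
  obtain ⟨G0, hG0s, hG0c, hG0z, hG0on, hG0k⟩ :=
    Pool.Agent.Helper96.Wav.scale_frame φa hφas hφac hφaon D hDdet
  rw [hL] at hS1
  obtain ⟨G1', hG1s', hG1c', hG1z', hG1on', hG1k'⟩ := hS1
  have hinv1 : ∀ x : Fin n → ℝ, (D.map (fun z : ℤ => (z : ℝ)))⁻¹ *ᵥ x =
      (q : ℝ)⁻¹ • ((B ^ (k : ℤ)) *ᵥ x) := by
    intro x
    rw [hD, smul_inv_mulVec hq' (isUnit_iff_ne_zero.2 hBk), hBkinv]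
  -- kernels of the scaled frames
  have hP1 : ∀ ξ μ, ker G1' ξ μ = ker φ ((q : ℝ)⁻¹ • (ξ - zv a)) ((q : ℝ)⁻¹ • μ) := by
    intro ξ μ
    by_cases h : ∃ m : Fin n → ℤ, μ = zv m
    · obtain ⟨m, rfl⟩ := h
      rw [ker_zv, hG1k', smul_one_inv hq', smul_one_inv hq', hkera]
    · rw [ker_not _ _ _ h, ker_not]
      rintro ⟨m, hm⟩
      apply h
      refine ⟨(q : ℤ) • m, ?_⟩
      have h4 : μ = (q : ℝ) • ((q : ℝ)⁻¹ • μ) := by
        rw [smul_smul, mul_inv_cancel₀ hq', one_smul]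
      rw [h4, hm]
      funext i
      simp [zv]
  have hP0 : ∀ ξ μ, ker G0 ξ μ = ker φ ((q : ℝ)⁻¹ • ((B ^ (k : ℤ)) *ᵥ ξ - zv a))
      ((q : ℝ)⁻¹ • ((B ^ (k : ℤ)) *ᵥ μ)) := by
    intro ξ μ
    by_cases h : ∃ m : Fin n → ℤ, μ = zv m
    · obtain ⟨m, rfl⟩ := h
      rw [ker_zv, hG0k, hinv1, hinv1, hkera]
    · rw [ker_not _ _ _ h, ker_not]
      rintro ⟨m, hm⟩
      apply h
      refine ⟨D *ᵥ m, ?_⟩
      rw [← Pool.Agent.Helper96.Wav.map_mulVec_zv, ← hm, hD, Matrix.smul_mulVec,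
        Matrix.mulVec_smul, smul_smul, mul_inv_cancel₀ hq', one_smul,
        zpow_mulVec_neg B hBdet]
  have hP1z : ∀ ξ μ, q * d ≤ N (ξ - zv a) → ker G1' ξ μ = 0 := by
    intro ξ μ h
    rw [hP1]
    exact ker_far (hn0 _ h) _
  have hP0z : ∀ ξ μ, q * d ≤ N ((B ^ (k : ℤ)) *ᵥ ξ - zv a) → ker G0 ξ μ = 0 := by
    intro ξ μ h
    rw [hP0]
    exact ker_far (hn0 _ h) _
  -- first rotation
  set G1 : Fin (D.det.natAbs * r + L) → (Fin n → ℝ) → ℂ := fun s => R₁.rot (G1' s) with hG1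
  have hG1ker : ∀ ξ μ, ker G1 ξ μ = ker G1' ξ μ + R₁.theta ξ μ := by
    intro ξ μ
    have h := R₁.rot_ker (g := G1') ha 0 1 ?_ ?_ ξ μ
    · rw [h]; ring
    · intro ξ hξ m
      rw [← ker_zv, hP1z _ _ (g2 ξ hξ)]
      simp
    · intro ξ hξ m
      rw [← ker_zv, hP1, ha, add_sub_cancel_right, ker_near hφcomp]
      · have h1 : ((q : ℝ)⁻¹ • zv m = 0) ↔ m = 0 := by
          rw [smul_eq_zero]
          constructor
          · rintro (h | h)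
            · exact absurd h (inv_ne_zero hq')
            · exact zv_inj (by rw [h, zv_zero])
          · rintro rfl
            exact Or.inr zv_zero
        simp only [h1]
      · exact (norm_div_le N hq ξ _).2 (g1 ξ hξ)
  have hG1s : ∀ s, ContDiff ℝ ∞ (G1 s) := fun s => R₁.rot_contDiff (hG1s' s)
  have hG1c : ∀ s, HasCompactSupport (G1 s) := fun s => R₁.rot_compact (hG1c' s)
  have hG1on : ∀ s t ξ, ∑ᶠ m : Fin n → ℤ, G1 s (ξ + zv m) * conj (G1 t (ξ + zv m)) =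
        if s = t then 1 else 0 := by
    intro s t ξ
    rw [← hG1on' s t ξ]
    exact R₁.gram_rot ha (hG1c' s) ξ
  -- off the support of the cutoffs
  have hoff1 : ∀ ξ, R₁.σ ξ = 1 → ξ ∈ R₁.S := by
    intro ξ h
    by_contra hcon
    have := (R₁.off ξ hcon).1
    rw [h] at this
    exact one_ne_zero this
  have hc1 : ∀ ξ, R₁.σ ξ = 1 → R₁.c ξ = 0 := by
    intro ξ h
    have := R₁.sq ξ
    rw [h] at this
    nlinarith
  have hth1 : ∀ ξ μ, R₁.σ ξ = 1 → R₁.theta ξ μ = if μ = 0 then 1 else 0 := by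
    intro ξ μ h
    rw [R₁.theta_of_mem (hoff1 ξ h), h, hc1 ξ h]
    simp
  -- the inclusion
  have hsub : ∀ s ξ, G0 s ξ = ∑ᶠ m : Fin n → ℤ, ∑ b, G1 b ξ * conj (G1 b (ξ + zv m)) *
      G0 s (ξ + zv m) := by
    intro s ξ
    have h1 : ∀ m : Fin n → ℤ, ∑ b, G1 b ξ * conj (G1 b (ξ + zv m)) * G0 s (ξ + zv m) =
        if m = 0 then G0 s ξ else 0 := by
      intro m
      rw [← Finset.sum_mul]
      by_cases hz : G0 s (ξ + zv m) = 0
      · rw [hz, mul_zero]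
        split_ifs with hm
        · rw [hm, zv_zero, add_zero] at hz
          exact hz.symm
        · rfl
      · have h2 : N ((B ^ (k : ℤ)) *ᵥ (ξ + zv m) - zv a) < q * d := by
          by_contra hcon
          rw [not_lt] at hcon
          apply hz
          apply hG0z
          intro t
          rw [hinv1, hφa']
          exact hn0 _ hcon t
        obtain ⟨h3, h4⟩ := g3 _ h2
        rw [ker_symm, ← ker_zv, hG1ker, hP1z _ _ h4, hth1 _ _ h3, zero_add]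
        by_cases hm : m = 0
        · subst hm
          simp [zv_zero]
        · have h5 : ¬ (zv (-m) = (0 : Fin n → ℝ)) := by
            intro h
            apply hm
            have : -m = 0 := zv_inj (by rw [h, zv_zero])
            simpa using this
          rw [if_neg h5, if_neg hm, map_zero, zero_mul]
    simp_rw [h1]
    rw [finsum_eq_single _ (0 : Fin n → ℤ) (fun m hm => if_neg hm), if_pos rfl]
  obtain ⟨g', hgs', hgc', hgon', hgk'⟩ := Pool.Agent.Helper80.Wav.difference_frame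
    (by omega) G0 G1 hG0s hG1s hG0c hG1c hG0on hG1on hsub
  have hg'ker : ∀ ξ μ, ker g' ξ μ = ker G1' ξ μ + R₁.theta ξ μ - ker G0 ξ μ := by
    intro ξ μ
    rw [← hG1ker]
    by_cases h : ∃ m : Fin n → ℤ, μ = zv m
    · obtain ⟨m, rfl⟩ := h
      rw [ker_zv, ker_zv, ker_zv, hgk']
    · rw [ker_not _ _ _ h, ker_not _ _ _ h, ker_not _ _ _ h, sub_zero]
  -- second rotation
  set g : Fin L → (Fin n → ℝ) → ℂ := fun s => R₀.rot (g' s) with hg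
  have hgker : ∀ ξ μ, ker g ξ μ = ker g' ξ μ - R₀.theta ξ μ := by
    intro ξ μ
    have h := R₀.rot_ker (g := g') hb 1 0 ?_ ?_ ξ μ
    · rw [h]; ring
    · intro ξ hξ m
      obtain ⟨h1, h2, h3⟩ := g4 ξ hξ
      rw [← ker_zv, hg'ker, hP1z _ _ h2, hP0z _ _ h3, hth1 _ _ h1, zero_add, sub_zero]
      have h1 : (zv m = (0 : Fin n → ℝ)) ↔ m = 0 :=
        ⟨fun h => zv_inj (by rw [h, zv_zero]), fun h => by rw [h, zv_zero]⟩
      simp only [h1]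
    · intro ξ hξ m
      obtain ⟨h1, h2, h3⟩ := g5 ξ hξ
      rw [← ker_zv, hg'ker, hb, hP1z _ _ h2, hP0z _ _ h3, R₁.theta_of_not_mem h1]
      · simp
      · rw [ha]
        intro hcon
        have h4 := g1 _ hcon
        have : q * (κ * d) < q * d := by
          have : κ * d < d := by nlinarith
          nlinarith
        linarith
  have hgs : ∀ s, ContDiff ℝ ∞ (g s) := fun s => R₀.rot_contDiff (hgs' s)
  have hgc : ∀ s, HasCompactSupport (g s) := fun s => R₀.rot_compact (hgc' s)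
  have hgon : ∀ s t ξ, ∑ᶠ m : Fin n → ℤ, g s (ξ + zv m) * conj (g t (ξ + zv m)) =
        if s = t then 1 else 0 := by
    intro s t ξ
    rw [← hgon' s t ξ]
    exact R₀.gram_rot hb (hgc' s) ξ
  refine ⟨L, g, by omega, hgs, hgc, ?_, ?_, ?_⟩
  · -- vanishing near zero
    obtain ⟨ε, hε, h0⟩ := g6
    refine ⟨ε, hε, fun l ξ hξ => ?_⟩
    have h1 := h0 ξ hξ
    have h2 : ξ ∈ R₀.S := by
      by_contra hcon
      have := (R₀.off ξ hcon).1
      rw [h1] at this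
      exact one_ne_zero this
    obtain ⟨h3, h4, h5⟩ := g4 ξ h2
    have h6 : ker g ξ 0 = 0 := by
      rw [hgker, hg'ker, hP1z _ _ h4, hP0z _ _ h5, hth1 _ _ h3, R₀.theta_of_mem h2, h1]
      have h7 : R₀.c ξ = 0 := by
        have := R₀.sq ξ
        rw [h1] at this
        nlinarith
      rw [h7]
      simp
    have h4 : ker g ξ 0 = ∑ s, ((‖g s ξ‖ ^ 2 : ℝ) : ℂ) := by
      unfold ker
      rw [if_pos ⟨0, zv_zero.symm⟩]
      refine Finset.sum_congr rfl fun s _ => ?_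
      rw [add_zero, Complex.mul_conj, Complex.normSq_eq_norm_sq]
    rw [h4, ← Complex.ofReal_sum, Complex.ofReal_eq_zero,
      Finset.sum_eq_zero_iff_of_nonneg (fun s _ => by positivity)] at h6
    have h5 := h6 l (Finset.mem_univ l)
    simpa using h5
  · intro l
    refine norm_one_of_gram (hgs l).continuous (hgc l) fun ξ => ?_
    rw [hgon, if_pos rfl]
  · intro ξ μ
    rw [hgker, hg'ker, hP1, hP0]
    ring

end Pool.Agent.Helper54.Wav
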