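import Pool.Agent.Helper54.Wav.Final2

/-!
# Rotations of pairs of frequencies

For a vector `h` and smooth functions `σ, c` with `c² + σ² = 1`, `σ = 0`, `c = 1` off a set `S`
which is disjoint from `S + h`, the operator `rot` rotates every pair `(ξ, ξ + h)`, `ξ ∈ S`.
-/

set_option autoImplicit false

open MeasureTheory Matrix Set
open scoped ComplexConjugate ContDiff ENNReal

namespace Pool.Agent.Helper54.Wav

variable {n : ℕ}

/-- the data of a rotation -/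
structure RotData (n : ℕ) where
  /-- the sine of the angle -/
  σ : (Fin n → ℝ) → ℝ
  /-- the cosine of the angle -/
  c : (Fin n → ℝ) → ℝ
  /-- the set where the angle is not zero -/
  S : Set (Fin n → ℝ)
  /-- the shift -/
  h : Fin n → ℝ
  hσ : ContDiff ℝ ∞ σ
  hc : ContDiff ℝ ∞ c
  sq : ∀ ξ, c ξ ^ 2 + σ ξ ^ 2 = 1
  off : ∀ ξ, ξ ∉ S → σ ξ = 0 ∧ c ξ = 1
  bdd : Bornology.IsBounded S
  disj : ∀ ξ ∈ S, ξ + h ∉ S

namespace RotData

variable (R : RotData n)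

/-- the rotation -/
noncomputable def rot (g : (Fin n → ℝ) → ℂ) (ξ : Fin n → ℝ) : ℂ :=
  ((R.c ξ + R.c (ξ - R.h) - 1 : ℝ) : ℂ) * g ξ - (R.σ ξ : ℂ) * g (ξ + R.h) +
    (R.σ (ξ - R.h) : ℂ) * g (ξ - R.h)

/-- the swap kernel -/
noncomputable def theta (ξ μ : Fin n → ℝ) : ℂ :=
  (if μ = 0 then ((R.σ ξ ^ 2 - R.σ (ξ - R.h) ^ 2 : ℝ) : ℂ) else 0) -
    (if μ = R.h then ((R.σ ξ * R.c ξ : ℝ) : ℂ) else 0) -
    (if μ = -R.h then ((R.σ (ξ - R.h) * R.c (ξ - R.h) : ℝ) : ℂ) else 0)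

lemma disj' {ξ : Fin n → ℝ} (h : ξ ∈ R.S) : ξ - R.h ∉ R.S := by
  intro h'
  have := R.disj _ h'
  rw [sub_add_cancel] at this
  exact this h

lemma rot_of_mem (g : (Fin n → ℝ) → ℂ) {ξ : Fin n → ℝ} (h : ξ ∈ R.S) :
    R.rot g ξ = (R.c ξ : ℂ) * g ξ - (R.σ ξ : ℂ) * g (ξ + R.h) := by
  obtain ⟨h1, h2⟩ := R.off _ (R.disj' h)
  simp only [rot, h1, h2]
  push_cast
  ring

lemma rot_of_mem' (g : (Fin n → ℝ) → ℂ) {ξ : Fin n → ℝ} (h : ξ ∈ R.S) :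
    R.rot g (ξ + R.h) = (R.c ξ : ℂ) * g (ξ + R.h) + (R.σ ξ : ℂ) * g ξ := by
  obtain ⟨h1, h2⟩ := R.off _ (R.disj ξ h)
  simp only [rot, h1, h2, add_sub_cancel_right]
  push_cast
  ring

lemma rot_of_not_mem (g : (Fin n → ℝ) → ℂ) {ξ : Fin n → ℝ} (h : ξ ∉ R.S) (h' : ξ - R.h ∉ R.S) :
    R.rot g ξ = g ξ := by
  obtain ⟨h1, h2⟩ := R.off _ h
  obtain ⟨h3, h4⟩ := R.off _ h'
  simp only [rot, h1, h2, h3, h4]
  push_cast
  ring

lemma theta_of_mem {ξ : Fin n → ℝ} (h : ξ ∈ R.S) (μ : Fin n → ℝ) :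
    R.theta ξ μ = (if μ = 0 then ((R.σ ξ ^ 2 : ℝ) : ℂ) else 0) -
      (if μ = R.h then ((R.σ ξ * R.c ξ : ℝ) : ℂ) else 0) := by
  obtain ⟨h1, h2⟩ := R.off _ (R.disj' h)
  simp [theta, h1, h2]

lemma theta_of_mem' {ξ : Fin n → ℝ} (h : ξ ∈ R.S) (μ : Fin n → ℝ) :
    R.theta (ξ + R.h) μ = -(if μ = 0 then ((R.σ ξ ^ 2 : ℝ) : ℂ) else 0) -
      (if μ = -R.h then ((R.σ ξ * R.c ξ : ℝ) : ℂ) else 0) := by
  obtain ⟨h1, h2⟩ := R.off _ (R.disj ξ h)
  simp only [theta, h1, h2, add_sub_cancel_right]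
  split_ifs <;> push_cast <;> ring

lemma theta_of_not_mem {ξ : Fin n → ℝ} (h : ξ ∉ R.S) (h' : ξ - R.h ∉ R.S) (μ : Fin n → ℝ) :
    R.theta ξ μ = 0 := by
  obtain ⟨h1, h2⟩ := R.off _ h
  obtain ⟨h3, h4⟩ := R.off _ h'
  simp [theta, h1, h2, h3, h4]

lemma rot_contDiff {g : (Fin n → ℝ) → ℂ} (hg : ContDiff ℝ ∞ g) : ContDiff ℝ ∞ (R.rot g) := by
  have e1 : ContDiff ℝ ∞ (fun ξ : Fin n → ℝ => ξ - R.h) := contDiff_id.sub contDiff_const
  have e2 : ContDiff ℝ ∞ (fun ξ : Fin n → ℝ => ξ + R.h) := contDiff_id.add contDiff_const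
  have ofR : ∀ {f : (Fin n → ℝ) → ℝ}, ContDiff ℝ ∞ f → ContDiff ℝ ∞ (fun ξ => (f ξ : ℂ)) :=
    fun hf => Complex.ofRealCLM.contDiff.comp hf
  unfold rot
  refine ((ofR ((R.hc.add (R.hc.comp e1)).sub contDiff_const)).mul hg |>.sub
    ((ofR R.hσ).mul (hg.comp e2))).add ((ofR (R.hσ.comp e1)).mul (hg.comp e1))

lemma rot_compact {g : (Fin n → ℝ) → ℂ} (hg : HasCompactSupport g) :
    HasCompactSupport (R.rot g) := by
  have h1 : HasCompactSupport (fun ξ => g (ξ + R.h)) :=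
    hg.comp_homeomorph (Homeomorph.addRight R.h)
  have h2 : HasCompactSupport (fun ξ => g (ξ - R.h)) :=
    hg.comp_homeomorph (Homeomorph.subRight R.h)
  unfold rot
  exact ((hg.mul_left).sub h1.mul_left).add h2.mul_left

/-- the telescoping function in the Gram identity -/
noncomputable def tel (g g' : (Fin n → ℝ) → ℂ) (ξ : Fin n → ℝ) : ℂ :=
  ((R.σ ξ ^ 2 : ℝ) : ℂ) * (g ξ * conj (g' ξ) - g (ξ + R.h) * conj (g' (ξ + R.h))) +
    ((R.c ξ * R.σ ξ : ℝ) : ℂ) * (g ξ * conj (g' (ξ + R.h)) + g (ξ + R.h) * conj (g' ξ))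

lemma rot_mul (g g' : (Fin n → ℝ) → ℂ) (ξ : Fin n → ℝ) :
    R.rot g ξ * conj (R.rot g' ξ) = g ξ * conj (g' ξ) - R.tel g g' ξ + R.tel g g' (ξ - R.h) := by
  by_cases h1 : ξ ∈ R.S
  · obtain ⟨h3, h4⟩ := R.off _ (R.disj' h1)
    rw [R.rot_of_mem g h1, R.rot_of_mem g' h1]
    have hs : ((R.c ξ : ℝ) : ℂ) ^ 2 = 1 - ((R.σ ξ : ℝ) : ℂ) ^ 2 := by
      rw [eq_sub_iff_add_eq]
      exact_mod_cast R.sq ξ
    simp only [tel, h3, h4, map_sub, map_mul, Complex.conj_ofReal]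
    push_cast
    linear_combination (g ξ * conj (g' ξ)) * hs
  · by_cases h2 : ξ - R.h ∈ R.S
    · obtain ⟨η, rfl⟩ : ∃ η, ξ = η + R.h := ⟨ξ - R.h, by rw [sub_add_cancel]⟩
      rw [add_sub_cancel_right] at h2
      obtain ⟨h3, h4⟩ := R.off _ h1
      rw [R.rot_of_mem' g h2, R.rot_of_mem' g' h2]
      have hs : ((R.c η : ℝ) : ℂ) ^ 2 = 1 - ((R.σ η : ℝ) : ℂ) ^ 2 := by
        rw [eq_sub_iff_add_eq]
        exact_mod_cast R.sq η
      simp only [tel, h3, h4, map_add, map_mul, Complex.conj_ofReal, add_sub_cancel_right]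
      push_cast
      linear_combination (g (η + R.h) * conj (g' (η + R.h))) * hs
    · obtain ⟨h3, h4⟩ := R.off _ h1
      obtain ⟨h5, h6⟩ := R.off _ h2
      rw [R.rot_of_not_mem g h1 h2, R.rot_of_not_mem g' h1 h2]
      simp [tel, h3, h5]

lemma tel_compact (g g' : (Fin n → ℝ) → ℂ) : HasCompactSupport (R.tel g g') := by
  refine HasCompactSupport.intro R.bdd.isCompact_closure fun ξ hξ => ?_
  obtain ⟨h1, h2⟩ := R.off ξ fun h => hξ (subset_closure h)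
  simp [tel, h1]

lemma gram_rot {a : Fin n → ℤ} (ha : R.h = zv a) {g g' : (Fin n → ℝ) → ℂ}
    (hg : HasCompactSupport g) (ξ : Fin n → ℝ) :
    ∑ᶠ m : Fin n → ℤ, R.rot g (ξ + zv m) * conj (R.rot g' (ξ + zv m)) =
      ∑ᶠ m : Fin n → ℤ, g (ξ + zv m) * conj (g' (ξ + zv m)) := by
  have f1 : (Function.support fun m : Fin n → ℤ => R.tel g g' (ξ + zv m)).Finite :=
    Pool.Agent.Helper96.Wav.fin_supp (R.tel_compact g g') ξ
  have f2 : (Function.support fun m : Fin n → ℤ => R.tel g g' (ξ + zv m - R.h)).Finite := by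
    have h2 : HasCompactSupport (fun ξ => R.tel g g' (ξ - R.h)) :=
      (R.tel_compact g g').comp_homeomorph (Homeomorph.subRight R.h)
    exact Pool.Agent.Helper96.Wav.fin_supp h2 ξ
  have f0 : (Function.support fun m : Fin n → ℤ => g (ξ + zv m) * conj (g' (ξ + zv m))).Finite := by
    have h2 : HasCompactSupport (fun ξ => g ξ * conj (g' ξ)) := hg.mul_right
    exact Pool.Agent.Helper96.Wav.fin_supp h2 ξ
  simp_rw [R.rot_mul]
  rw [finsum_add_distrib ((f0.union f1).subset (Function.support_sub _ _)) f2,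
    finsum_sub_distrib f0 f1]
  have e : ∑ᶠ m : Fin n → ℤ, R.tel g g' (ξ + zv m - R.h) =
      ∑ᶠ m : Fin n → ℤ, R.tel g g' (ξ + zv m) := by
    rw [← finsum_comp_equiv (Equiv.subRight a) (f := fun m : Fin n → ℤ => R.tel g g' (ξ + zv m))]
    refine finsum_congr fun m => ?_
    congr 1
    simp only [Equiv.subRight_apply, sub_eq_add_neg, zv_add, zv_neg, ha]
    abel
  rw [e]
  ring

end RotData

end Pool.Agent.Helper54.Wav
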