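import Pool.Agent.Helper54.Wav.Rot

/-!
# The kernel of a rotated family
-/

set_option autoImplicit false

open MeasureTheory Matrix Set
open scoped ComplexConjugate ContDiff ENNReal

namespace Pool.Agent.Helper54.Wav

variable {n : ℕ}

lemma ker_not {L : ℕ} (g : Fin L → (Fin n → ℝ) → ℂ) (ξ μ : Fin n → ℝ)
    (h : ¬ ∃ m : Fin n → ℤ, μ = zv m) : ker g ξ μ = 0 := by
  unfold ker
  rw [if_neg h]

namespace RotData

variable (R : RotData n)

lemma theta_symm (ξ μ : Fin n → ℝ) : R.theta ξ μ = conj (R.theta (ξ + μ) (-μ)) := by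
  unfold theta
  by_cases h0 : μ = 0
  · subst h0
    have e : (-0 : Fin n → ℝ) = 0 := neg_zero
    simp only [e, add_zero, if_true, map_sub, Complex.conj_ofReal]
    have e1 : (0 : Fin n → ℝ) = -R.h ↔ (0 : Fin n → ℝ) = R.h := by
      rw [eq_comm, neg_eq_zero, eq_comm]
    by_cases h1 : (0 : Fin n → ℝ) = R.h
    · simp only [← h1, if_true, sub_zero, Complex.conj_ofReal, neg_zero]
    · simp [e1, h1]
  · have h0' : ¬ (-μ = 0) := by simpa using h0
    rw [if_neg h0, if_neg h0']
    have e1 : (-μ = R.h) ↔ μ = -R.h := by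
      constructor <;> intro h
      · rw [← h, neg_neg]
      · rw [h, neg_neg]
    have e2 : (-μ = -R.h) ↔ μ = R.h := neg_inj
    simp only [e1, e2, map_sub]
    by_cases h1 : μ = R.h
    · by_cases h2 : μ = -R.h
      · rw [if_pos h1, if_pos h2, if_pos h2, if_pos h1]
        have e3 : ξ + μ = ξ - R.h := by rw [h2]; abel
        have e4 : ξ + μ - R.h = ξ := by rw [h1]; abel
        rw [e4, e3]
        simp only [Complex.conj_ofReal, map_zero]
        ring
      · rw [if_pos h1, if_neg h2, if_neg h2, if_pos h1]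
        have e4 : ξ + μ - R.h = ξ := by rw [h1]; abel
        rw [e4]
        simp
    · by_cases h2 : μ = -R.h
      · rw [if_neg h1, if_pos h2, if_pos h2, if_neg h1]
        have e3 : ξ + μ = ξ - R.h := by rw [h2]; abel
        rw [e3]
        simp
      · rw [if_neg h1, if_neg h2, if_neg h2, if_neg h1]
        simp

lemma theta_not {a : Fin n → ℤ} (ha : R.h = zv a) (ξ μ : Fin n → ℝ)
    (h : ¬ ∃ m : Fin n → ℤ, μ = zv m) : R.theta ξ μ = 0 := by
  have h0 : ¬ μ = 0 := fun h' => h ⟨0, by rw [h', zv_zero]⟩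
  have h1 : ¬ μ = R.h := fun h' => h ⟨a, by rw [h', ha]⟩
  have h2 : ¬ μ = -R.h := fun h' => h ⟨-a, by rw [h', ha, zv_neg]⟩
  simp [theta, h0, h1, h2]

variable {L : ℕ} (g : Fin L → (Fin n → ℝ) → ℂ)

/-- the two point sum -/
noncomputable def KK {L : ℕ} (g : Fin L → (Fin n → ℝ) → ℂ) (x y : Fin n → ℝ) : ℂ :=
  ∑ s, g s x * conj (g s y)

lemma KK_symm {L : ℕ} (g : Fin L → (Fin n → ℝ) → ℂ) (x y : Fin n → ℝ) :
    KK g x y = conj (KK g y x) := by
  unfold KK
  rw [map_sum]
  refine Finset.sum_congr rfl fun s _ => ?_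
  rw [map_mul, Complex.conj_conj, mul_comm]

lemma KK_rot_right (x y : Fin n → ℝ) (f : Fin L → (Fin n → ℝ) → ℂ) :
    ∑ s, f s x * conj (R.rot (g s) y) =
      ((R.c y + R.c (y - R.h) - 1 : ℝ) : ℂ) * ∑ s, f s x * conj (g s y) -
        (R.σ y : ℂ) * ∑ s, f s x * conj (g s (y + R.h)) +
        (R.σ (y - R.h) : ℂ) * ∑ s, f s x * conj (g s (y - R.h)) := by
  simp only [Finset.mul_sum]
  rw [← Finset.sum_sub_distrib, ← Finset.sum_add_distrib]
  refine Finset.sum_congr rfl fun s _ => ?_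
  simp only [rot, map_sub, map_add, map_mul, Complex.conj_ofReal]
  ring

lemma KK_rot_left {x : Fin n → ℝ} (hx : x ∈ R.S) (y : Fin n → ℝ)
    (f : Fin L → (Fin n → ℝ) → ℂ) :
    ∑ s, R.rot (g s) x * conj (f s y) =
      (R.c x : ℂ) * ∑ s, g s x * conj (f s y) - (R.σ x : ℂ) * ∑ s, g s (x + R.h) * conj (f s y) := by
  simp only [Finset.mul_sum]
  rw [← Finset.sum_sub_distrib]
  refine Finset.sum_congr rfl fun s _ => ?_
  rw [R.rot_of_mem _ hx]
  ring

lemma KK_rot_left' {x : Fin n → ℝ} (hx : x ∈ R.S) (y : Fin n → ℝ)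
    (f : Fin L → (Fin n → ℝ) → ℂ) :
    ∑ s, R.rot (g s) (x + R.h) * conj (f s y) =
      (R.c x : ℂ) * ∑ s, g s (x + R.h) * conj (f s y) + (R.σ x : ℂ) * ∑ s, g s x * conj (f s y) := by
  simp only [Finset.mul_sum]
  rw [← Finset.sum_add_distrib]
  refine Finset.sum_congr rfl fun s _ => ?_
  rw [R.rot_of_mem' _ hx]
  ring

section

variable {g} {a : Fin n → ℤ} (ha : R.h = zv a) (ε₁ ε₂ : ℂ)
  (h1 : ∀ ξ ∈ R.S, ∀ m : Fin n → ℤ, ∑ s, g s ξ * conj (g s (ξ + zv m)) = if m = 0 then ε₁ else 0)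
  (h2 : ∀ ξ ∈ R.S, ∀ m : Fin n → ℤ,
    ∑ s, g s (ξ + R.h) * conj (g s (ξ + R.h + zv m)) = if m = 0 then ε₂ else 0)

include ha h1 h2

lemma rot_kerA {ξ : Fin n → ℝ} (hξ : ξ ∈ R.S) (m : Fin n → ℤ) :
    ∑ s, R.rot (g s) ξ * conj (R.rot (g s) (ξ + zv m)) =
      ∑ s, g s ξ * conj (g s (ξ + zv m)) + (ε₂ - ε₁) * R.theta ξ (zv m) := by
  have ha0 : a ≠ 0 := by
    rintro rfl
    apply R.disj ξ hξ
    rwa [ha, zv_zero, add_zero]
  have hs : ((R.c ξ : ℝ) : ℂ) ^ 2 = 1 - ((R.σ ξ : ℝ) : ℂ) ^ 2 := by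
    rw [eq_sub_iff_add_eq]
    exact_mod_cast R.sq ξ
  have z0 : (zv m = (0 : Fin n → ℝ)) ↔ m = 0 := by
    constructor
    · intro h
      exact zv_inj (by rw [h, zv_zero])
    · rintro rfl
      exact zv_zero
  have z1 : (zv m = R.h) ↔ m = a := by
    rw [ha]
    exact ⟨fun h => zv_inj h, fun h => by rw [h]⟩
  rw [R.KK_rot_left g hξ (ξ + zv m) (fun s => R.rot (g s)), KK_rot_right R g ξ (ξ + zv m) g,
    KK_rot_right R g (ξ + R.h) (ξ + zv m) g, R.theta_of_mem hξ]
  have e1 : ξ + zv m + R.h = ξ + zv (m + a) := by rw [zv_add, ha]; abel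
  have e2 : ξ + zv m - R.h = ξ + zv (m - a) := by
    rw [sub_eq_add_neg m, zv_add, zv_neg, ha]; abel
  have e3 : ξ + zv m = ξ + R.h + zv (m - a) := by
    rw [sub_eq_add_neg m, zv_add, zv_neg, ha]; abel
  have e4 : ξ + zv m + R.h = ξ + R.h + zv m := by abel
  have e5 : ξ + zv m - R.h = ξ + R.h + zv (m - a - a) := by
    rw [sub_eq_add_neg (m - a), sub_eq_add_neg m, zv_add, zv_add, zv_neg, ha]; abel
  have k1 : ∑ s, g s ξ * conj (g s (ξ + zv m)) = if m = 0 then ε₁ else 0 := h1 ξ hξ m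
  have k2 : ∑ s, g s ξ * conj (g s (ξ + zv m + R.h)) = if m + a = 0 then ε₁ else 0 := by
    rw [e1]; exact h1 ξ hξ _
  have k3 : ∑ s, g s ξ * conj (g s (ξ + zv m - R.h)) = if m - a = 0 then ε₁ else 0 := by
    rw [e2]; exact h1 ξ hξ _
  have k4 : ∑ s, g s (ξ + R.h) * conj (g s (ξ + zv m)) = if m - a = 0 then ε₂ else 0 := by
    rw [e3]; exact h2 ξ hξ _
  have k5 : ∑ s, g s (ξ + R.h) * conj (g s (ξ + zv m + R.h)) = if m = 0 then ε₂ else 0 := by
    rw [e4]; exact h2 ξ hξ _
  have k6 : ∑ s, g s (ξ + R.h) * conj (g s (ξ + zv m - R.h)) =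
      if m - a - a = 0 then ε₂ else 0 := by
    rw [e5]; exact h2 ξ hξ _
  rw [k1, k2, k3, k4, k5, k6]
  simp only [z0, z1]
  obtain ⟨o1, o2⟩ := R.off _ (R.disj' hξ)
  obtain ⟨o3, o4⟩ := R.off _ (R.disj ξ hξ)
  by_cases m0 : m = 0
  · subst m0
    have q1 : ¬ (0 + a = 0) := by simpa using ha0
    have q2 : ¬ (0 - a = 0) := by simpa using ha0
    have q3 : ¬ (0 - a - a = 0) := by
      intro h
      apply ha0
      have : a + a = 0 := by
        have h' := congrArg Neg.neg h
        simpa using h'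
      funext i
      have := congrFun this i
      simp only [Pi.add_apply, Pi.zero_apply] at this ⊢
      omega
    have q4 : ¬ ((0 : Fin n → ℤ) = a) := fun h => ha0 h.symm
    rw [if_neg q1, if_neg q2, if_neg q2, if_neg q3, if_pos rfl, if_pos rfl, if_pos rfl, if_neg q4,
      zv_zero, add_zero, o1, o2]
    push_cast
    linear_combination ε₁ * hs
  · rw [if_neg m0, if_neg m0, if_neg m0]
    by_cases m1 : m = a
    · subst m1
      have q1 : ¬ (m + m = 0) := by
        intro h
        apply ha0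
        funext i
        have := congrFun h i
        simp only [Pi.add_apply, Pi.zero_apply] at this ⊢
        omega
      have q3 : ¬ (m - m - m = 0) := by
        simpa using ha0
      rw [if_neg q1, if_pos (sub_self m), if_pos (sub_self m), if_neg q3, if_pos rfl]
      have e6 : ξ + zv m - R.h = ξ := by rw [ha]; abel
      have e7 : ξ + zv m = ξ + R.h := by rw [ha]
      rw [e6, e7, o3, o4]
      push_cast
      ring
    · have q2 : ¬ (m - a = 0) := fun h => m1 (sub_eq_zero.1 h)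
      rw [if_neg q2, if_neg q2, if_neg m1]
      by_cases m2 : m + a = 0
      · have q3 : ¬ (m - a - a = 0) := by
          intro h
          apply ha0
          funext i
          have h3 := congrFun h i
          have h4 := congrFun m2 i
          simp only [Pi.add_apply, Pi.sub_apply, Pi.zero_apply] at h3 h4 ⊢
          omega
        rw [if_pos m2, if_neg q3]
        have e6 : ξ + zv m = ξ - R.h := by
          rw [eq_neg_of_add_eq_zero_left m2, zv_neg, ha]; abel
        rw [e6, o1]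
        push_cast
        ring
      · rw [if_neg m2]
        by_cases m3 : m - a - a = 0
        · rw [if_pos m3]
          have e6 : ξ + zv m - R.h = ξ + R.h := by
            have : m = a + a := by
              have h := sub_eq_zero.1 m3
              exact sub_eq_iff_eq_add.1 h
            rw [this, zv_add, ha]; abel
          rw [e6, o3]
          push_cast
          ring
        · rw [if_neg m3]
          ring

lemma rot_kerB {ξ : Fin n → ℝ} (hξ : ξ ∈ R.S) (m : Fin n → ℤ) :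
    ∑ s, R.rot (g s) (ξ + R.h) * conj (R.rot (g s) (ξ + R.h + zv m)) =
      ∑ s, g s (ξ + R.h) * conj (g s (ξ + R.h + zv m)) +
        (ε₂ - ε₁) * R.theta (ξ + R.h) (zv m) := by
  have ha0 : a ≠ 0 := by
    rintro rfl
    apply R.disj ξ hξ
    rwa [ha, zv_zero, add_zero]
  have hs : ((R.c ξ : ℝ) : ℂ) ^ 2 = 1 - ((R.σ ξ : ℝ) : ℂ) ^ 2 := by
    rw [eq_sub_iff_add_eq]
    exact_mod_cast R.sq ξ
  have z0 : (zv m = (0 : Fin n → ℝ)) ↔ m = 0 := by
    constructor
    · intro h
      exact zv_inj (by rw [h, zv_zero])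
    · rintro rfl
      exact zv_zero
  have z1 : (zv m = -R.h) ↔ m + a = 0 := by
    rw [ha, ← zv_neg]
    constructor
    · intro h
      rw [zv_inj h, neg_add_cancel]
    · intro h
      rw [eq_neg_of_add_eq_zero_left h]
  rw [R.KK_rot_left' g hξ (ξ + R.h + zv m) (fun s => R.rot (g s)),
    KK_rot_right R g ξ (ξ + R.h + zv m) g,
    KK_rot_right R g (ξ + R.h) (ξ + R.h + zv m) g, R.theta_of_mem' hξ]
  have e1 : ξ + R.h + zv m = ξ + zv (m + a) := by rw [zv_add, ha]; abel
  have e2 : ξ + R.h + zv m + R.h = ξ + zv (m + a + a) := by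
    rw [zv_add, zv_add, ha]; abel
  have e3 : ξ + R.h + zv m - R.h = ξ + zv m := by abel
  have e4 : ξ + R.h + zv m + R.h = ξ + R.h + zv (m + a) := by rw [zv_add, ha]; abel
  have e5 : ξ + R.h + zv m - R.h = ξ + R.h + zv (m - a) := by
    rw [sub_eq_add_neg m, zv_add, zv_neg, ha]; abel
  have k1 : ∑ s, g s (ξ + R.h) * conj (g s (ξ + R.h + zv m)) = if m = 0 then ε₂ else 0 :=
    h2 ξ hξ m
  have k2 : ∑ s, g s (ξ + R.h) * conj (g s (ξ + R.h + zv m + R.h)) =
      if m + a = 0 then ε₂ else 0 := by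
    rw [e4]; exact h2 ξ hξ _
  have k3 : ∑ s, g s (ξ + R.h) * conj (g s (ξ + R.h + zv m - R.h)) =
      if m - a = 0 then ε₂ else 0 := by
    rw [e5]; exact h2 ξ hξ _
  have k4 : ∑ s, g s ξ * conj (g s (ξ + R.h + zv m)) = if m + a = 0 then ε₁ else 0 := by
    rw [e1]; exact h1 ξ hξ _
  have k5 : ∑ s, g s ξ * conj (g s (ξ + R.h + zv m + R.h)) =
      if m + a + a = 0 then ε₁ else 0 := by
    rw [e2]; exact h1 ξ hξ _
  have k6 : ∑ s, g s ξ * conj (g s (ξ + R.h + zv m - R.h)) =
      if m = 0 then ε₁ else 0 := by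
    rw [e3]; exact h1 ξ hξ _
  rw [k1, k2, k3, k4, k5, k6]
  simp only [z0, z1]
  obtain ⟨o1, o2⟩ := R.off _ (R.disj' hξ)
  obtain ⟨o3, o4⟩ := R.off _ (R.disj ξ hξ)
  by_cases m0 : m = 0
  · subst m0
    have q1 : ¬ (0 + a = 0) := by simpa using ha0
    have q2 : ¬ (0 - a = 0) := by simpa using ha0
    have q3 : ¬ (0 + a + a = 0) := by
      intro h
      apply ha0
      funext i
      have := congrFun h i
      simp only [Pi.add_apply, Pi.zero_apply] at this ⊢
      omega
    rw [if_neg q1, if_neg q1, if_neg q1, if_neg q2, if_neg q3, if_pos rfl, if_pos rfl, if_pos rfl,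
      zv_zero, add_zero, add_sub_cancel_right, o3, o4]
    push_cast
    linear_combination ε₂ * hs
  · rw [if_neg m0, if_neg m0, if_neg m0]
    by_cases m1 : m + a = 0
    · have q2 : ¬ (m - a = 0) := by
        intro h
        apply ha0
        funext i
        have h3 := congrFun h i
        have h4 := congrFun m1 i
        simp only [Pi.add_apply, Pi.sub_apply, Pi.zero_apply] at h3 h4 ⊢
        omega
      have q3 : ¬ (m + a + a = 0) := by
        rw [m1, zero_add]; exact ha0
      rw [if_pos m1, if_pos m1, if_pos m1, if_neg q2, if_neg q3]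
      have e6 : ξ + R.h + zv m - R.h = ξ - R.h := by
        rw [eq_neg_of_add_eq_zero_left m1, zv_neg, ha]; abel
      have e7 : ξ + R.h + zv m = ξ := by
        rw [eq_neg_of_add_eq_zero_left m1, zv_neg, ha]; abel
      rw [e6, e7, o2]
      push_cast
      ring
    · rw [if_neg m1, if_neg m1, if_neg m1]
      by_cases m2 : m - a = 0
      · have q3 : ¬ (m + a + a = 0) := by
          intro h
          apply ha0
          funext i
          have h3 := congrFun h i
          have h4 := congrFun m2 i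
          simp only [Pi.add_apply, Pi.sub_apply, Pi.zero_apply] at h3 h4 ⊢
          omega
        rw [if_pos m2, if_neg q3]
        have e6 : ξ + R.h + zv m - R.h = ξ + R.h := by
          rw [sub_eq_zero.1 m2, ha]; abel
        rw [e6, o3]
        push_cast
        ring
      · rw [if_neg m2]
        by_cases m3 : m + a + a = 0
        · rw [if_pos m3]
          have e6 : ξ + R.h + zv m = ξ - R.h := by
            have h5 : m = -(a + a) := by
              rw [eq_neg_iff_add_eq_zero, ← add_assoc]; exact m3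
            rw [h5, zv_neg, zv_add, ha]; abel
          rw [e6, o1]
          push_cast
          ring
        · rw [if_neg m3]
          ring

/-- the kernel of the rotated family -/
theorem rot_ker (ξ μ : Fin n → ℝ) :
    ker (fun s => R.rot (g s)) ξ μ = ker g ξ μ + (ε₂ - ε₁) * R.theta ξ μ := by
  by_cases hm : ∃ m : Fin n → ℤ, μ = zv m
  swap
  · rw [ker_not _ _ _ hm, ker_not _ _ _ hm, R.theta_not ha _ _ hm]
    ring
  obtain ⟨m, rfl⟩ := hm
  rw [ker_zv, ker_zv]
  by_cases c1 : ξ ∈ R.S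
  · exact R.rot_kerA ha ε₁ ε₂ h1 h2 c1 m
  by_cases c2 : ξ - R.h ∈ R.S
  · have h := R.rot_kerB ha ε₁ ε₂ h1 h2 c2 m
    rwa [sub_add_cancel] at h
  -- the base point is not moved
  have hl : ∀ s, R.rot (g s) ξ = g s ξ := fun s => R.rot_of_not_mem _ c1 c2
  have e0 : ξ + zv m + zv (-m) = ξ := by rw [zv_neg]; abel
  by_cases c3 : ξ + zv m ∈ R.S
  · have h := R.rot_kerA ha ε₁ ε₂ h1 h2 c3 (-m)
    rw [e0] at h
    have h' := congrArg (fun z => conj z) h
    simp only [map_add, map_mul, map_sum, Complex.conj_conj] at h'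
    have h3 : R.theta (ξ + zv m) (zv (-m)) = 0 := by
      rw [zv_neg, R.theta_symm]
      have e1 : ξ + zv m + -zv m = ξ := by abel
      rw [e1, R.theta_of_not_mem c1 c2]
      simp
    have h4 : R.theta ξ (zv m) = 0 := R.theta_of_not_mem c1 c2 _
    rw [h3, map_zero, mul_zero, add_zero] at h'
    rw [h4, mul_zero, add_zero]
    calc _ = ∑ x, conj (R.rot (g x) (ξ + zv m)) * R.rot (g x) ξ :=
          Finset.sum_congr rfl fun s _ => mul_comm _ _
      _ = _ := h'
      _ = _ := Finset.sum_congr rfl fun s _ => mul_comm _ _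
  by_cases c4 : ξ + zv m - R.h ∈ R.S
  · have h := R.rot_kerB ha ε₁ ε₂ h1 h2 c4 (-m)
    rw [sub_add_cancel, e0] at h
    have h' := congrArg (fun z => conj z) h
    simp only [map_add, map_mul, map_sum, Complex.conj_conj] at h'
    have h3 : R.theta (ξ + zv m) (zv (-m)) = 0 := by
      rw [zv_neg, R.theta_symm]
      have e1 : ξ + zv m + -zv m = ξ := by abel
      rw [e1, R.theta_of_not_mem c1 c2]
      simp
    have h4 : R.theta ξ (zv m) = 0 := R.theta_of_not_mem c1 c2 _
    rw [h3, map_zero, mul_zero, add_zero] at h'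
    rw [h4, mul_zero, add_zero]
    calc _ = ∑ x, conj (R.rot (g x) (ξ + zv m)) * R.rot (g x) ξ :=
          Finset.sum_congr rfl fun s _ => mul_comm _ _
      _ = _ := h'
      _ = _ := Finset.sum_congr rfl fun s _ => mul_comm _ _
  rw [R.theta_of_not_mem c1 c2, mul_zero, add_zero]
  refine Finset.sum_congr rfl fun s _ => ?_
  rw [hl s, R.rot_of_not_mem _ c3 c4]

end

end RotData

end Pool.Agent.Helper54.Wav
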