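import Pool.Agent.Helper59.Wav.Nec

/-!
# Statements on dilations with a rational power
-/

set_option autoImplicit false

open MeasureTheory
open scoped FourierTransform SchwartzMap

noncomputable section

namespace Pool.Agent.Helper54.WavS

variable {n : ℕ}

/-- Some power `A ^ p`, `p ≥ 1`, of `A` has rational entries. -/
def HasRationalPower (A : Matrix (Fin n) (Fin n) ℝ) : Prop :=
  ∃ (p : ℕ) (M : Matrix (Fin n) (Fin n) ℚ), 0 < p ∧ A ^ p = M.map (algebraMap ℚ ℝ)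

/-- There is an orthonormal wavelet for `(A, ℤⁿ)` with finitely many generators, all of them
Schwartz functions with compactly supported Fourier transforms. -/
def HasSchwartzWavelet (A : Matrix (Fin n) (Fin n) ℝ) : Prop :=
  ∃ (L : ℕ) (ψ : Fin L → Wav.E n → ℂ), 0 < L ∧ (∀ l, IsSchwartz (ψ l)) ∧
    (∀ l, BandLimited (ψ l)) ∧ IsONWavelet A ψ

lemma schwartz_decay (φ : 𝓢(Wav.E n, ℂ)) (N : ℝ) :
    ∃ C R : ℝ, ∀ x : Wav.E n, R ≤ ‖x‖ → ‖φ x‖ ≤ C * ‖x‖ ^ (-N) := by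
  obtain ⟨k, hk⟩ := exists_nat_ge N
  obtain ⟨C, hC⟩ := φ.decay k 0
  refine ⟨C, 1, fun x hx => ?_⟩
  have h1 := hC.2 x
  rw [norm_iteratedFDeriv_zero] at h1
  have hx0 : 0 < ‖x‖ := lt_of_lt_of_le one_pos hx
  have h2 : ‖φ x‖ ≤ C * ‖x‖ ^ (-(k : ℝ)) := by
    rw [Real.rpow_neg hx0.le, Real.rpow_natCast, ← div_eq_mul_inv, le_div_iff₀ (by positivity)]
    linarith
  refine h2.trans ?_
  have h3 : ‖x‖ ^ (-(k : ℝ)) ≤ ‖x‖ ^ (-N) := Real.rpow_le_rpow_of_exponent_le hx (by linarith)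
  exact mul_le_mul_of_nonneg_left h3 hC.1.le

lemma wellLoc_of_schwartz {ψ : Wav.E n → ℂ} (h : IsSchwartz ψ) (N : ℝ) : WavN.WellLoc N ψ := by
  obtain ⟨φ, hφ⟩ := h
  obtain rfl : ψ = φ := funext hφ
  refine ⟨φ.memLp 2 volume, ?_, ?_⟩
  · obtain ⟨C, R, h1⟩ := schwartz_decay φ N
    exact ⟨C, R, Filter.Eventually.of_forall h1⟩
  · obtain ⟨C, R, h1⟩ := schwartz_decay (𝓕 φ) N
    refine ⟨C, R, fun ξ hξ => ?_⟩
    rw [← SchwartzMap.fourier_coe]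
    exact h1 ξ hξ

lemma HasSchwartzWavelet.hasWavelet {A : Matrix (Fin n) (Fin n) ℝ} (h : HasSchwartzWavelet A)
    (N : ℝ) : WavN.HasWavelet N A := by
  obtain ⟨L, ψ, _, h1, _, h2⟩ := h
  exact ⟨L, ψ, fun l => wellLoc_of_schwartz (h1 l) N, h2⟩

end Pool.Agent.Helper54.WavS
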