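import Pool.Agent.Helper54.Wav.Core

/-!
# The template theorem
-/

set_option autoImplicit false

open MeasureTheory Matrix Set Module
open scoped ComplexConjugate ContDiff ENNReal InnerProductSpace Manifold

namespace Pool.Agent.Helper54.Wav

variable {n : ℕ}

lemma exists_cutoff {s t : Set (Fin n → ℝ)} (hs : IsClosed s) (ht : IsClosed t)
    (hd : Disjoint s t) : ∃ f : (Fin n → ℝ) → ℝ, ContDiff ℝ ∞ f ∧ (∀ x ∈ s, f x = 0) ∧
      (∀ x ∈ t, f x = 1) := by
  obtain ⟨f, h1, h2, _⟩ := exists_contMDiffMap_zero_one_of_isClosed (n := (⊤ : ℕ∞)) (𝓘(ℝ, Fin n → ℝ))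
    hs ht hd
  exact ⟨f, contMDiff_iff_contDiff.1 f.contMDiff, fun x hx => h1 hx, fun x hx => h2 hx⟩

lemma seminorm_le (N : Seminorm ℝ (Fin n → ℝ)) : ∃ c > 0, ∀ x, N x ≤ c * ‖x‖ := by
  classical
  refine ⟨∑ i, N (Pi.single i 1) + 1, ?_, fun x => ?_⟩
  · have : 0 ≤ ∑ i, N (Pi.single i (1 : ℝ)) := Finset.sum_nonneg fun i _ => apply_nonneg N _
    positivity
  · have h1 : x = ∑ i, x i • (Pi.single i (1 : ℝ) : Fin n → ℝ) := by
      funext j
      simp [Finset.sum_apply, Pi.single_apply]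
    have h2 : N x ≤ ∑ i, N (x i • (Pi.single i (1 : ℝ) : Fin n → ℝ)) := by
      conv_lhs => rw [h1]
      exact Finset.le_sum_of_subadditive N (map_zero N).le (map_add_le_add N) _ _
    refine h2.trans ?_
    have h3 : ∀ i, N (x i • (Pi.single i (1 : ℝ) : Fin n → ℝ)) ≤ ‖x‖ * N (Pi.single i 1) := by
      intro i
      rw [map_smul_eq_mul]
      exact mul_le_mul_of_nonneg_right (norm_le_pi_norm x i) (apply_nonneg N _)
    refine (Finset.sum_le_sum fun i _ => h3 i).trans ?_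
    rw [← Finset.mul_sum]
    nlinarith [norm_nonneg x]

lemma seminorm_continuous (N : Seminorm ℝ (Fin n → ℝ)) : Continuous N := by
  obtain ⟨c, hc, h⟩ := seminorm_le N
  refine Metric.continuous_iff.2 fun x ε hε => ⟨ε / c, by positivity, fun y hy => ?_⟩
  rw [Real.dist_eq]
  have h1 : |N y - N x| ≤ N (y - x) := abs_sub_map_le_sub N y x
  rw [dist_eq_norm, lt_div_iff₀ hc] at hy
  have := h (y - x)
  nlinarith

lemma le_seminorm (N : Seminorm ℝ (Fin n → ℝ)) (hN : ∀ x, N x = 0 → x = 0) :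
    ∃ c > 0, ∀ x, c * ‖x‖ ≤ N x := by
  by_cases hs : (Metric.sphere (0 : Fin n → ℝ) 1).Nonempty
  · obtain ⟨x0, hx0, hmin⟩ := (isCompact_sphere (0 : Fin n → ℝ) 1).exists_isMinOn hs
      (seminorm_continuous N).continuousOn
    have hx0n : ‖x0‖ = 1 := by simpa using hx0
    have hpos : 0 < N x0 := by
      refine lt_of_le_of_ne (apply_nonneg N _) fun hcon => ?_
      have := hN x0 hcon.symm
      rw [this, norm_zero] at hx0n
      exact zero_ne_one hx0n
    refine ⟨N x0, hpos, fun x => ?_⟩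
    by_cases hx : x = 0
    · simp [hx]
    · have hxn : 0 < ‖x‖ := norm_pos_iff.2 hx
      have h1 : N x0 ≤ N (‖x‖⁻¹ • x) := by
        apply hmin
        simp [norm_smul, hxn.ne']
      rw [map_smul_eq_mul, norm_inv, norm_norm] at h1
      calc N x0 * ‖x‖ ≤ (‖x‖⁻¹ * N x) * ‖x‖ := by gcongr
        _ = N x := by field_simp
  · refine ⟨1, one_pos, fun x => ?_⟩
    by_cases hx : x = 0
    · simp [hx]
    · exfalso
      apply hs
      have hxn : 0 < ‖x‖ := norm_pos_iff.2 hx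
      exact ⟨‖x‖⁻¹ • x, by simp [norm_smul, hxn.ne']⟩

lemma norm_QQ {ξ : Fin n → ℝ} (hξ : ξ ∈ QQ n) : ‖ξ‖ ≤ 1 := by
  rw [pi_norm_le_iff_of_nonneg zero_le_one]
  intro i
  rw [Real.norm_eq_abs, abs_le]
  constructor <;> linarith [(hξ i).1, (hξ i).2]

lemma norm_QQ_sub {ξ ξ' : Fin n → ℝ} (hξ : ξ ∈ QQ n) (hξ' : ξ' ∈ QQ n) : ‖ξ - ξ'‖ ≤ 1 := by
  rw [pi_norm_le_iff_of_nonneg zero_le_one]
  intro i
  rw [Real.norm_eq_abs, Pi.sub_apply, abs_le]
  constructor <;> linarith [(hξ i).1, (hξ i).2, (hξ' i).1, (hξ' i).2]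

/-- the counting step -/
lemma count (hn : 0 < n) (N : Seminorm ℝ (Fin n → ℝ)) {c2 : ℝ} (hc2 : 0 < c2)
    (hN2 : ∀ x, N x ≤ c2 * ‖x‖) (hN0 : ∀ x, N x = 0 → x = 0) (b c : ℝ) (hb : 0 ≤ b) (K h : ℕ)
    (hbc : b + 2 * c2 + (K + 2) * c2 ≤ c)
    (hh : ∀ x, (h : ℝ) ≤ ‖x‖ → c + c2 < N x) (F1 F2 : Finset (Fin n → Fin (2 * h + 1)))
    (hF1 : ∀ t, t ∈ F1 ↔ ∃ ξ ∈ QQ n, N (ξ + zv (rep h t)) < b)
    (hF2 : ∀ t, t ∈ F2 ↔ ∀ ξ ∈ QQ n, N (ξ + zv (rep h t)) ≤ c) :
    F1.card + K ≤ F2.card := by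
  classical
  let i0 : Fin n := ⟨0, hn⟩
  set e : Fin n → ℝ := Pi.single i0 1 with he
  have hep : 0 < N e := by
    refine lt_of_le_of_ne (apply_nonneg N _) fun hcon => ?_
    have := congrFun (hN0 e hcon.symm) i0
    simp [he] at this
  have hen : ‖e‖ ≤ 1 := by
    rw [pi_norm_le_iff_of_nonneg zero_le_one]
    intro i
    by_cases hi : i = i0
    · subst hi
      simp [he]
    · simp [he, hi]
  have hec : N e ≤ c2 := by
    have := hN2 e
    nlinarith
  -- the integers `s`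
  set s0 : ℕ := ⌈(b + c2) / N e⌉₊ with hs0
  have hs1 : (b + c2) ≤ s0 * N e := by
    have := Nat.le_ceil ((b + c2) / N e)
    rw [div_le_iff₀ hep] at this
    exact this
  have hs2 : (s0 : ℝ) * N e ≤ b + c2 + N e := by
    have := Nat.ceil_lt_add_one (a := (b + c2) / N e) (by positivity)
    have h2 : (s0 : ℝ) < (b + c2) / N e + 1 := this
    have h3 : (s0 : ℝ) * N e < ((b + c2) / N e + 1) * N e := by gcongr
    rw [add_mul, div_mul_cancel₀ _ hep.ne', one_mul] at h3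
    exact h3.le
  have hval : ∀ k : ℕ, k < K → ∀ ξ ∈ QQ n, b ≤ N (ξ + ((s0 + k : ℕ) : ℝ) • e) ∧
      N (ξ + ((s0 + k : ℕ) : ℝ) • e) ≤ c := by
    intro k hk ξ hξ
    have h1 : N (((s0 + k : ℕ) : ℝ) • e) = ((s0 + k : ℕ) : ℝ) * N e := by
      rw [map_smul_eq_mul, Real.norm_eq_abs, abs_of_nonneg (by positivity)]
    have h2 : N ξ ≤ c2 := by
      refine (hN2 ξ).trans ?_
      nlinarith [norm_QQ hξ]
    have h3 : N (((s0 + k : ℕ) : ℝ) • e) ≤ N (ξ + ((s0 + k : ℕ) : ℝ) • e) + N ξ := by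
      have h4 : ((s0 + k : ℕ) : ℝ) • e = (ξ + ((s0 + k : ℕ) : ℝ) • e) - ξ := by abel
      calc N (((s0 + k : ℕ) : ℝ) • e) = N ((ξ + ((s0 + k : ℕ) : ℝ) • e) - ξ) := by rw [← h4]
        _ ≤ _ := map_sub_le_add N _ _
    have h5 : N (ξ + ((s0 + k : ℕ) : ℝ) • e) ≤ N ξ + N (((s0 + k : ℕ) : ℝ) • e) :=
      map_add_le_add N _ _
    have h6 : (k : ℝ) + 1 ≤ K := by exact_mod_cast hk
    push_cast at h1 h3 h5 ⊢
    constructor
    · nlinarith [mul_nonneg (Nat.cast_nonneg (α := ℝ) k) hep.le]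
    · have h7 : ((k : ℝ) + 1) * N e ≤ K * c2 := by
        gcongr
      nlinarith
  -- the indices
  have hex : ∀ k : ℕ, k < K → ∃ t : Fin n → Fin (2 * h + 1),
      zv (rep h t) = ((s0 + k : ℕ) : ℝ) • e := by
    intro k hk
    have h0 : (0 : Fin n → ℝ) ∈ QQ n := fun i => ⟨le_refl _, zero_le_one⟩
    let m : Fin n → ℤ := fun i => if i = i0 then ((s0 + k : ℕ) : ℤ) else 0
    have hm : zv m = ((s0 + k : ℕ) : ℝ) • e := by
      funext i
      by_cases hi : i = i0
      · subst hi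
        simp [zv, m, he]
      · simp [zv, m, he, hi]
    have h1 : ‖(0 : Fin n → ℝ) + zv m‖ < h := by
      by_contra hcon
      push Not at hcon
      have h2 := hh _ hcon
      rw [hm] at h2
      have h3 := (hval k hk 0 h0).2
      linarith
    obtain ⟨t, ht⟩ := exists_rep h0 h1
    exact ⟨t, by rw [ht, hm]⟩
  choose! τ hτ using hex
  have hinj : Set.InjOn τ (Finset.range K : Set ℕ) := by
    intro k hk k' hk' hkk
    have h1 := hτ k (by simpa using hk)
    have h2 := hτ k' (by simpa using hk')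
    rw [hkk, h2] at h1
    have h3 := congrFun h1 i0
    simp only [he, Pi.smul_apply, Pi.single_eq_same, smul_eq_mul, mul_one] at h3
    have h4 : s0 + k' = s0 + k := by exact_mod_cast h3
    omega
  have hdisj : Disjoint F1 ((Finset.range K).image τ) := by
    rw [Finset.disjoint_left]
    intro t ht1 ht2
    rw [Finset.mem_image] at ht2
    obtain ⟨k, hk, rfl⟩ := ht2
    rw [hF1] at ht1
    obtain ⟨ξ, hξ, hlt⟩ := ht1
    rw [hτ k (by simpa using hk)] at hlt
    have := (hval k (by simpa using hk) ξ hξ).1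
    linarith
  have hsub : F1 ∪ (Finset.range K).image τ ⊆ F2 := by
    intro t ht
    rw [Finset.mem_union] at ht
    rw [hF2]
    rcases ht with ht | ht
    · rw [hF1] at ht
      obtain ⟨ξ, hξ, hlt⟩ := ht
      intro ξ' hξ'
      have h1 : N (ξ' + zv (rep h t)) ≤ N (ξ + zv (rep h t)) + N (ξ' - ξ) := by
        have : ξ' + zv (rep h t) = (ξ + zv (rep h t)) + (ξ' - ξ) := by abel
        rw [this]
        exact map_add_le_add N _ _
      have h2 : N (ξ' - ξ) ≤ c2 := by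
        refine (hN2 _).trans ?_
        nlinarith [norm_QQ_sub hξ' hξ]
      have h3 : 0 ≤ (K : ℝ) * c2 := by positivity
      nlinarith
    · rw [Finset.mem_image] at ht
      obtain ⟨k, hk, rfl⟩ := ht
      intro ξ hξ
      rw [hτ k (by simpa using hk)]
      exact (hval k (by simpa using hk) ξ hξ).2
  calc F1.card + K = F1.card + ((Finset.range K).image τ).card := by
        rw [Finset.card_image_of_injOn hinj, Finset.card_range]
    _ = (F1 ∪ (Finset.range K).image τ).card := (Finset.card_union_of_disjoint hdisj).symm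
    _ ≤ F2.card := Finset.card_le_card hsub

end Pool.Agent.Helper54.Wav
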