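import Pool.Agent.Helper54.Wav.Template

/-!
# The template theorem, final form
-/

set_option autoImplicit false

open MeasureTheory Matrix Set Module
open scoped ComplexConjugate ContDiff ENNReal InnerProductSpace Manifold

namespace Pool.Agent.Helper54.Wav

variable {n : ℕ}

theorem template (hn : 0 < n) (N : Seminorm ℝ (Fin n → ℝ)) (hN : ∀ x, N x = 0 → x = 0)
    (κ : ℝ) (hκ : 0 < κ) (hκ1 : κ < 1) (r0 : ℕ) :
    ∃ (d : ℝ) (r : ℕ) (φ : Fin r → (Fin n → ℝ) → ℂ), 0 < d ∧ r0 ≤ r ∧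
      (∀ s, ContDiff ℝ ∞ (φ s)) ∧ (∀ s x, d ≤ N x → φ s x = 0) ∧
      (∀ s t ξ, ∑ᶠ m : Fin n → ℤ, φ s (ξ + zv m) * conj (φ t (ξ + zv m)) =
        if s = t then 1 else 0) ∧
      (∀ ξ m, N ξ ≤ κ * d → ∑ s, φ s ξ * conj (φ s (ξ + zv m)) = if m = 0 then 1 else 0) := by
  classical
  obtain ⟨c2, hc2, hN2⟩ := seminorm_le N
  obtain ⟨c1, hc1, hN1⟩ := le_seminorm N hN
  set K : ℕ := 2 * n + r0 with hK
  -- the radius
  set g : ℝ := (2 * c2 + (K + 2) * c2) with hg
  have hg0 : 0 < g := by positivity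
  set d : ℝ := 3 * g / (1 - κ) with hd
  have hκ' : 0 < 1 - κ := by linarith
  have hd0 : 0 < d := by positivity
  have hgap : (1 - κ) * d = 3 * g := by
    rw [hd]
    field_simp
  set b : ℝ := κ * d + g with hb
  set c : ℝ := κ * d + 2 * g with hc
  have hbc : b + 2 * c2 + (K + 2) * c2 ≤ c := by
    rw [hb, hc, hg]
    linarith
  have hcd : c < d := by
    rw [hc]
    nlinarith
  -- the integer h
  obtain ⟨h, hh⟩ := exists_nat_gt ((d + c2) / c1)
  rw [div_lt_iff₀ hc1] at hh
  have hbig : ∀ x : Fin n → ℝ, (h : ℝ) ≤ ‖x‖ → d + c2 < N x := by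
    intro x hx
    have h1 := hN1 x
    nlinarith
  have hNc := seminorm_continuous N
  -- cutoffs
  obtain ⟨γ, hγs, hγ0, hγ1⟩ := exists_cutoff (s := {x | b ≤ N x}) (t := {x | N x ≤ κ * d})
    (isClosed_le continuous_const hNc) (isClosed_le hNc continuous_const) (by
      rw [Set.disjoint_left]
      intro x hx hx'
      have h1 : b ≤ N x := hx
      have h2 : N x ≤ κ * d := hx'
      linarith)
  obtain ⟨α, hαs, hα0, hα1⟩ := exists_cutoff (s := {x | d ≤ N x}) (t := {x | N x ≤ c})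
    (isClosed_le continuous_const hNc) (isClosed_le hNc continuous_const) (by
      rw [Set.disjoint_left]
      intro x hx hx'
      have h1 : d ≤ N x := hx
      have h2 : N x ≤ c := hx'
      linarith)
  obtain ⟨α1, hα1s, hα10, hα11⟩ := exists_cutoff (s := {x : Fin n → ℝ | (h : ℝ) ≤ ‖x‖})
    (t := {x | N x ≤ d})
    (isClosed_le continuous_const continuous_norm) (isClosed_le hNc continuous_const) (by
      rw [Set.disjoint_left]
      intro x hx hx'
      have h1 : (h : ℝ) ≤ ‖x‖ := hx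
      have h2 : N x ≤ d := hx'
      have := hbig x h1
      linarith)
  have hγh : ∀ x, (h : ℝ) ≤ ‖x‖ → γ x = 0 := fun x hx => hγ0 x (by
    have := hbig x hx
    change b ≤ N x
    linarith)
  have hαh : ∀ x, (h : ℝ) ≤ ‖x‖ → α x = 0 := fun x hx => hα0 x (by
    have := hbig x hx
    change d ≤ N x
    linarith)
  have hαγ : ∀ x, α x = 0 → γ x = 0 := by
    intro x hx
    apply hγ0
    change b ≤ N x
    by_contra hcon
    push Not at hcon
    have h1 : α x = 1 := hα1 x (by change N x ≤ c; linarith)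
    rw [hx] at h1
    exact zero_ne_one h1
  -- the index sets
  let F1 : Finset (Fin n → Fin (2 * h + 1)) :=
    Finset.univ.filter fun t => ∃ ξ ∈ QQ n, N (ξ + zv (rep h t)) < b
  let F2 : Finset (Fin n → Fin (2 * h + 1)) :=
    Finset.univ.filter fun t => ∀ ξ ∈ QQ n, N (ξ + zv (rep h t)) ≤ c
  have hcount := count hn N hc2 hN2 hN b c (by positivity) K h hbc (fun x hx => by
    have := hbig x hx
    linarith) F1 F2 (fun t => by simp [F1]) (fun t => by simp [F2])
  set r : ℕ := F1.card + n + r0 with hr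
  have hF2card : F2.card ≤ Fintype.card (Fin n → Fin (2 * h + 1)) := Finset.card_le_univ _
  obtain ⟨p, hp⟩ : ∃ p, Fintype.card (Fin n → Fin (2 * h + 1)) = p + r :=
    ⟨Fintype.card (Fin n → Fin (2 * h + 1)) - r, by omega⟩
  obtain ⟨Φ, hΦs, hΦp, hΦon, hΦa, hΦb⟩ := template_core h p r α γ hαs hγs hαh hγh hαγ F1 F2
    (fun ξ hξ t ht => by
      simp only [F1, Finset.mem_filter, Finset.mem_univ, true_and]
      refine ⟨ξ, hξ, ?_⟩
      by_contra hcon
      push Not at hcon
      rw [hγ0 _ hcon] at ht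
      exact zero_ne_one ht)
    (fun ξ hξ t ht => by
      simp only [F2, Finset.mem_filter, Finset.mem_univ, true_and] at ht
      rw [hα1 _ (ht ξ hξ)]
      exact one_ne_zero)
    hp (by omega) (by omega) (by omega)
  let φ : Fin r → (Fin n → ℝ) → ℂ := fun j η => (α1 η : ℂ) * ⟪ev (2 * h + 1) η, Φ j η⟫_ℂ
  have hφh : ∀ j x, (h : ℝ) ≤ ‖x‖ → φ j x = 0 := by
    intro j x hx
    simp [φ, hα10 x hx]
  have hφd : ∀ j x, d ≤ N x → φ j x = 0 := by
    intro j x hx
    by_cases hxh : (h : ℝ) ≤ ‖x‖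
    · exact hφh j x hxh
    · push Not at hxh
      obtain ⟨m, hm⟩ := exists_QQ x
      have e1 : x = (x + zv m) + zv (-m) := by rw [zv_neg]; abel
      rw [e1] at hxh
      obtain ⟨t, ht⟩ := exists_rep hm hxh
      have e2 : x = (x + zv m) + zv (rep h t) := by rw [ht]; exact e1
      have h1 := hΦb (x + zv m) hm t (by rw [← e2]; exact hα0 x hx) j
      unfold et at h1
      rw [← e2, hΦp j x m] at h1
      simp only [φ, h1, mul_zero]
  have hφeq : ∀ ξ ∈ QQ n, ∀ t j, φ j (ξ + zv (rep h t)) = ⟪et h t ξ, Φ j ξ⟫_ℂ := by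
    intro ξ hξ t j
    by_cases hx : d ≤ N (ξ + zv (rep h t))
    · rw [hφd j _ hx, hΦb ξ hξ t (hα0 _ hx) j]
    · push Not at hx
      simp only [φ]
      rw [hα11 _ hx.le, hΦp j ξ]
      simp [et]
  refine ⟨d, r, φ, hd0, by omega, ?_, hφd, ?_, ?_⟩
  · intro s
    exact (Complex.ofRealCLM.contDiff.comp hα1s).mul ((ev_contDiff _).inner ℂ (hΦs s))
  · intro s t ξ
    obtain ⟨k, hk⟩ := exists_QQ ξ
    have e1 : ∑ᶠ m : Fin n → ℤ, φ s (ξ + zv m) * conj (φ t (ξ + zv m)) =
        ∑ᶠ m : Fin n → ℤ, φ s (ξ + zv k + zv m) * conj (φ t (ξ + zv k + zv m)) := by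
      rw [← finsum_comp_equiv (Equiv.addLeft k) (f := fun m : Fin n → ℤ =>
        φ s (ξ + zv m) * conj (φ t (ξ + zv m)))]
      refine finsum_congr fun m => ?_
      simp [zv_add, add_assoc]
    rw [e1]
    generalize ξ + zv k = ξ at hk
    rw [finsum_eq_sum_of_support_subset (s := Finset.univ.image (rep h))]
    · rw [Finset.sum_image (fun a _ b _ hab => rep_inj h hab)]
      simp_rw [hφeq ξ hk, inner_conj_symm]
      have h2 := orthonormal_iff_ite.1 (hΦon ξ) t s
      have h3 : ⟪Φ t ξ, Φ s ξ⟫_ℂ = ∑ τ, ⟪et h τ ξ, Φ s ξ⟫_ℂ * ⟪Φ t ξ, et h τ ξ⟫_ℂ := by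
        conv_lhs => rw [et_expand h ξ (Φ s ξ)]
        rw [inner_sum]
        refine Finset.sum_congr rfl fun τ _ => ?_
        rw [inner_smul_right]
      rw [← h3, h2]
      simp only [eq_comm]
    · intro m hm
      have h2 : ‖ξ + zv m‖ < h := by
        by_contra hcon
        push Not at hcon
        apply hm
        simp only [hφh s _ hcon, zero_mul]
      obtain ⟨τ, hτ⟩ := exists_rep hk h2
      rw [Finset.coe_image]
      exact ⟨τ, by simp, hτ⟩
  · intro ξ m hξ
    obtain ⟨k, hk⟩ := exists_QQ ξ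
    have hξh : ‖ξ‖ < h := by
      by_contra hcon
      push Not at hcon
      have := hbig ξ hcon
      nlinarith
    have e1 : ξ = (ξ + zv k) + zv (-k) := by rw [zv_neg]; abel
    obtain ⟨t0, ht0⟩ := exists_rep hk (by rw [← e1]; exact hξh)
    have e2 : ξ = (ξ + zv k) + zv (rep h t0) := by rw [ht0]; exact e1
    have hL : ∀ s, φ s ξ = ⟪et h t0 (ξ + zv k), Φ s (ξ + zv k)⟫_ℂ := by
      intro s
      rw [← hφeq _ hk t0 s, ← e2]
    by_cases hm : ‖ξ + zv m‖ < h
    · have e3 : ξ + zv m = (ξ + zv k) + zv (m - k) := by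
        rw [sub_eq_add_neg, zv_add, zv_neg]; abel
      obtain ⟨t1, ht1⟩ := exists_rep hk (by rw [← e3]; exact hm)
      have e4 : ξ + zv m = (ξ + zv k) + zv (rep h t1) := by rw [ht1]; exact e3
      have hR : ∀ s, φ s (ξ + zv m) = ⟪et h t1 (ξ + zv k), Φ s (ξ + zv k)⟫_ℂ := by
        intro s
        rw [← hφeq _ hk t1 s, ← e4]
      have hmem := hΦa (ξ + zv k) hk t0 (by rw [← e2]; exact hγ1 ξ hξ)
        (by rw [← e2]; exact hα1 ξ (by change N ξ ≤ c; linarith))
      have h5 : et h t0 (ξ + zv k) = ∑ s, ⟪Φ s (ξ + zv k), et h t0 (ξ + zv k)⟫_ℂ • Φ s (ξ + zv k) := by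
        rw [Submodule.mem_span_range_iff_exists_fun] at hmem
        obtain ⟨a, ha⟩ := hmem
        have h6 : ∀ s, ⟪Φ s (ξ + zv k), et h t0 (ξ + zv k)⟫_ℂ = a s := by
          intro s
          rw [← ha, inner_sum]
          simp_rw [inner_smul_right, orthonormal_iff_ite.1 (hΦon (ξ + zv k))]
          simp
        simp_rw [h6]
        exact ha.symm
      have h7 : ⟪et h t0 (ξ + zv k), et h t1 (ξ + zv k)⟫_ℂ =
          ∑ s, φ s ξ * conj (φ s (ξ + zv m)) := by
        conv_lhs => rw [h5]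
        rw [sum_inner]
        refine Finset.sum_congr rfl fun s _ => ?_
        rw [inner_smul_left, hL, hR, inner_conj_symm, inner_conj_symm]
      rw [← h7, orthonormal_iff_ite.1 (et_orthonormal h (ξ + zv k))]
      have h8 : t0 = t1 ↔ m = 0 := by
        rw [← (rep_inj (n := n) h).eq_iff, ht0, ht1]
        constructor
        · intro h9
          have : m = (m - k) - (-k) := by abel
          rw [this, ← h9, sub_self]
        · rintro rfl
          abel
      simp only [h8]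
    · push Not at hm
      have h9 : m ≠ 0 := by
        rintro rfl
        rw [zv_zero, add_zero] at hm
        linarith
      rw [if_neg h9]
      refine Finset.sum_eq_zero fun s _ => ?_
      rw [hφh s _ hm, map_zero, mul_zero]

end Pool.Agent.Helper54.Wav
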